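import Mathlib

/-! Finitely additive set functions, ultralimits, tight part, and the ball lemma. -/

namespace Pool.Agent.P.MP_6e86bf_an

open scoped Topology
open Set Filter

universe u

/-- nonnegative finitely additive set function -/
def Chg {X : Type*} (σ : Set X → ℝ) : Prop :=
  (∀ E, 0 ≤ σ E) ∧ ∀ E F, σ E = σ (E ∩ F) + σ (E \ F)

namespace Chg

variable {X : Type*} {σ : Set X → ℝ}

theorem mono (h : Chg σ) {E F : Set X} (hEF : E ⊆ F) : σ E ≤ σ F := by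
  have h1 := h.2 F E
  rw [inter_eq_self_of_subset_right hEF] at h1
  linarith [h.1 (F \ E)]

theorem empty (h : Chg σ) : σ ∅ = 0 := by
  have h1 := h.2 ∅ ∅
  simp only [inter_self, sdiff_self] at h1
  linarith

theorem union_eq (h : Chg σ) (E F : Set X) : σ (E ∪ F) = σ F + σ (E \ F) := by
  have h1 := h.2 (E ∪ F) F
  rwa [inter_eq_self_of_subset_right subset_union_right, union_sdiff_right] at h1

theorem union_le (h : Chg σ) (E F : Set X) : σ (E ∪ F) ≤ σ E + σ F := by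
  rw [h.union_eq]
  linarith [h.mono (sdiff_subset : E \ F ⊆ E)]

theorem null_biUnion (h : Chg σ) {ι : Type*} (A : Finset ι) (D : ι → Set X)
    (hD : ∀ b ∈ A, σ (D b) ≤ 0) : σ (⋃ b ∈ A, D b) ≤ 0 := by
  classical
  induction A using Finset.induction_on with
  | empty => simp [h.empty]
  | insert a A ha ih =>
    rw [Finset.set_biUnion_insert]
    have h1 := h.union_le (D a) (⋃ b ∈ A, D b)
    have h2 := hD a (Finset.mem_insert_self _ _)
    have h3 := ih fun b hb => hD b (Finset.mem_insert_of_mem hb)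
    linarith

theorem inter (h : Chg σ) (B : Set X) : Chg fun E => σ (E ∩ B) := by
  refine ⟨fun E => h.1 _, fun E F => ?_⟩
  have h1 := h.2 (E ∩ B) F
  have h2 : (E ∩ B) \ F = (E \ F) ∩ B := by ext x; simp only [Set.mem_sdiff, mem_inter_iff]; tauto
  rw [inter_right_comm, h2] at h1
  exact h1

theorem pair {π : Set (X × X) → ℝ} (h : Chg π) :
    Chg fun E : Set X => π (Prod.fst ⁻¹' E) + π (Prod.snd ⁻¹' E) := by
  refine ⟨fun E => add_nonneg (h.1 _) (h.1 _), fun E F => ?_⟩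
  have h1 := h.2 (Prod.fst ⁻¹' E) (Prod.fst ⁻¹' F)
  have h2 := h.2 (Prod.snd ⁻¹' E) (Prod.snd ⁻¹' F)
  simp only [preimage_inter, preimage_sdiff]
  linarith

end Chg

theorem ulim {X ι : Type*} (𝒰 : Ultrafilter ι) (σ : ι → Set X → ℝ) (h : ∀ i, Chg (σ i)) {C : ℝ}
    (hC : ∀ i, σ i univ ≤ C) :
    ∃ ψ : Set X → ℝ, Chg ψ ∧ ∀ E, Tendsto (fun i => σ i E) 𝒰 (𝓝 (ψ E)) := by
  have h1 : ∀ E, ∃ a, Tendsto (fun i => σ i E) 𝒰 (𝓝 a) := by
    intro E
    obtain ⟨a, -, ha⟩ := (isCompact_Icc (a := (0 : ℝ)) (b := C)).ultrafilter_le_nhds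
      (𝒰.map fun i => σ i E) (by
        rw [Ultrafilter.coe_map, le_principal_iff, mem_map]
        exact Eventually.of_forall fun i => ⟨(h i).1 E, ((h i).mono (subset_univ E)).trans (hC i)⟩)
    exact ⟨a, ha⟩
  choose ψ hψ using h1
  refine ⟨ψ, ⟨fun E => ge_of_tendsto' (hψ E) fun i => (h i).1 E, fun E F => ?_⟩, hψ⟩
  refine tendsto_nhds_unique (hψ E) ?_
  have h2 := (hψ (E ∩ F)).add (hψ (E \ F))
  refine h2.congr fun i => ((h i).2 E F).symm

theorem no_descent {Z : Set ℝ} {a e : ℝ} (ha : 0 < a) (he : 0 < e) (hne : Z.Nonempty)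
    (h1 : ∀ r ∈ Z, a ≤ r) (h2 : ∀ r ∈ Z, ∃ r' ∈ Z, r' * (1 + e) < r) : False := by
  have hb : BddBelow Z := ⟨a, h1⟩
  have hm : a ≤ sInf Z := le_csInf hne h1
  obtain ⟨r, hr, hr'⟩ := exists_lt_of_csInf_lt hne
    (show sInf Z < sInf Z * (1 + e) by nlinarith)
  obtain ⟨r', hr1, hr2⟩ := h2 r hr
  have h3 := csInf_le hb hr1
  nlinarith

variable {M : Type u} [MetricSpace M]

/-- the union of the balls that a later stage has to avoid -/
def BB (τ₀ e : ℝ) (A : Finset M) (r : M → ℝ) : Set M :=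
  {y | ∃ b ∈ A, τ₀ ≤ r b ∧ (2 + e) * dist y b < r b}

theorem key (𝒰 : Ultrafilter (Finset M)) (hU : ∀ x, ∀ᶠ S in (𝒰 : Filter (Finset M)), x ∈ S)
    {σ : Set M → ℝ} (hσ : Chg σ) (A : Finset M → Finset M) (r : Finset M → M → ℝ)
    (hr : ∀ S b, ∀ s ∈ S, r S b ≤ dist b s) {τ₀ e θ : ℝ} (hτ : 0 < τ₀) (he : 0 < e) (hθ : 0 < θ) :
    ∀ᶠ S in (𝒰 : Filter (Finset M)), σ (BB τ₀ e (A S) (r S)) < θ := by
  obtain ⟨ψ, hψ, hlim⟩ := ulim 𝒰 (fun S E => σ (E ∩ BB τ₀ e (A S) (r S)))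
    (fun S => hσ.inter _) (C := σ univ) (fun S => hσ.mono (subset_univ _))
  have step : ∀ E, 0 < ψ E → ∀ᶠ S in (𝒰 : Filter (Finset M)), ∃ b, τ₀ ≤ r S b ∧
      0 < ψ (E ∩ {y | (2 + e) * dist y b < r S b}) := by
    intro E hE
    by_contra hn
    have h1 := Ultrafilter.eventually_not.2 hn
    have h2 : ∀ᶠ S in (𝒰 : Filter (Finset M)), ψ (E ∩ BB τ₀ e (A S) (r S)) ≤ 0 := by
      refine h1.mono fun S hS => ?_
      classical
      have h3 := hψ.null_biUnion ((A S).filter fun b => τ₀ ≤ r S b)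
        (fun b => E ∩ {y | (2 + e) * dist y b < r S b}) (fun b hb => by
          by_contra h4
          exact hS ⟨b, (Finset.mem_filter.1 hb).2, not_le.1 h4⟩)
      refine le_trans (hψ.mono ?_) h3
      rintro y ⟨hy, b, hb, hb1, hb2⟩
      exact mem_iUnion₂.2 ⟨b, Finset.mem_filter.2 ⟨hb, hb1⟩, hy, hb2⟩
    have h3 : ∀ n : ℕ, ∃ W, ψ W ≤ 0 ∧ n * (ψ E / 4) ≤ σ W := by
      intro n
      induction n with
      | zero => exact ⟨∅, hψ.empty.le, by simp [hσ.empty]⟩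
      | succ n ih =>
        obtain ⟨W, hW, hW'⟩ := ih
        have h4 := (hlim E).eventually (lt_mem_nhds (show ψ E / 2 < ψ E by linarith))
        have h5 := (hlim W).eventually (gt_mem_nhds (show ψ W < ψ E / 4 by linarith))
        obtain ⟨S, hS2, hS4, hS5⟩ := (h2.and (h4.and h5)).exists
        refine ⟨(E ∩ BB τ₀ e (A S) (r S)) ∪ W, ?_, ?_⟩
        · linarith [hψ.union_le (E ∩ BB τ₀ e (A S) (r S)) W]
        · rw [hσ.union_eq]
          have h6 := hσ.2 (E ∩ BB τ₀ e (A S) (r S)) W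
          have h7 : σ (E ∩ BB τ₀ e (A S) (r S) ∩ W) ≤ σ (W ∩ BB τ₀ e (A S) (r S)) :=
            hσ.mono fun y hy => ⟨hy.2, hy.1.2⟩
          push_cast
          linarith
    obtain ⟨n, hn⟩ := exists_nat_gt (σ univ / (ψ E / 4))
    obtain ⟨W, -, hW⟩ := h3 n
    rw [div_lt_iff₀ (by linarith)] at hn
    linarith [hσ.mono (subset_univ W)]
  have h0 : ψ univ ≤ 0 := by
    by_contra hn
    refine no_descent (Z := {ρ | ∃ S b, ρ = r S b ∧ τ₀ ≤ r S b ∧
      0 < ψ {y | (2 + e) * dist y b < r S b}}) hτ he ?_ ?_ ?_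
    · obtain ⟨S, b, h1, h2⟩ := (step univ (not_le.1 hn)).exists
      rw [univ_inter] at h2
      exact ⟨_, S, b, rfl, h1, h2⟩
    · rintro _ ⟨S, b, rfl, h1, -⟩
      exact h1
    · rintro _ ⟨S, b, rfl, -, h2⟩
      obtain ⟨S', ⟨b', h3, h4⟩, h5⟩ := ((step _ h2).and (hU b)).exists
      refine ⟨_, ⟨S', b', rfl, h3, h4.trans_le (hψ.mono inter_subset_right)⟩, ?_⟩
      have hne : ({y | (2 + e) * dist y b < r S b} ∩
          {y | (2 + e) * dist y b' < r S' b'}).Nonempty := by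
        by_contra h6
        rw [not_nonempty_iff_eq_empty.1 h6, hψ.empty] at h4
        exact lt_irrefl _ h4
      obtain ⟨y, hy1, hy2⟩ := hne
      have h6 := hr S' b' b h5
      have h7 := dist_triangle_left b' b y
      simp only [mem_ofPred_eq] at hy1 hy2
      nlinarith
  have h1 := (hlim univ).eventually (gt_mem_nhds (show ψ univ < θ by linarith))
  simpa using h1

/-- closed neighbourhood -/
def Nb (τ : ℝ) (E : Set M) : Set M := {x | ∃ z ∈ E, dist x z ≤ τ}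

theorem Nb.mono {τ τ' : ℝ} {E E' : Set M} (h : τ ≤ τ') (h' : E ⊆ E') : Nb τ E ⊆ Nb τ' E' :=
  fun _ ⟨z, hz, hz'⟩ => ⟨z, h' hz, hz'.trans h⟩

theorem Nb.eq (τ : ℝ) (F : Finset M) : Nb τ (F : Set M) = ⋃ z ∈ (F : Set M), Metric.closedBall z τ := by
  ext x
  simp [Nb]

theorem Nb.closed (τ : ℝ) (F : Finset M) : IsClosed (Nb τ (F : Set M)) := by
  rw [Nb.eq]
  exact F.finite_toSet.isClosed_biUnion fun _ _ => Metric.isClosed_closedBall

theorem tight [CompleteSpace M] {σ : Set M → ℝ} (hσ : Chg σ) {η : ℝ} (hη : 0 < η) :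
    ∃ K : Set M, IsCompact K ∧ ∃ τ₀, 0 < τ₀ ∧ ∀ (F : Finset M) (τ : ℝ), 0 < τ →
      σ (Nb τ₀ F \ Nb τ K) ≤ η := by
  classical
  let m : ℝ → ℝ := fun τ => ⨆ F : Finset M, σ (Nb τ F)
  have hbd : ∀ τ, BddAbove (range fun F : Finset M => σ (Nb τ F)) := fun τ =>
    ⟨σ univ, by rintro _ ⟨F, rfl⟩; exact hσ.mono (subset_univ _)⟩
  have hm : ∀ τ (F : Finset M), σ (Nb τ F) ≤ m τ := fun τ F => le_ciSup (hbd τ) F
  have hmm : ∀ τ τ', τ ≤ τ' → m τ ≤ m τ' := fun τ τ' h =>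
    ciSup_le fun F => (hσ.mono (Nb.mono h Subset.rfl)).trans (hm τ' F)
  set m₀ := sInf (m '' Ioi 0) with hm₀
  have hb : BddBelow (m '' Ioi 0) :=
    ⟨0, by rintro _ ⟨τ, -, rfl⟩; exact (hσ.1 _).trans (hm τ ∅)⟩
  set δ := η / 5 with hδ
  have hδ0 : 0 < δ := by positivity
  have h1 : ∀ j : ℕ, ∃ (τ : ℝ) (F : Finset M), 0 < τ ∧ τ ≤ 1 / ((j : ℝ) + 1) ∧
      m τ ≤ m₀ + δ / 2 ^ j ∧ m₀ - δ / 2 ^ j ≤ σ (Nb τ F) := by
    intro j
    have hp : 0 < δ / 2 ^ j := by positivity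
    obtain ⟨_, ⟨τ, hτ, rfl⟩, h2⟩ := exists_lt_of_csInf_lt
      (show (m '' Ioi 0).Nonempty from ⟨_, 1, by simp, rfl⟩)
      (show m₀ < m₀ + δ / 2 ^ j by linarith)
    have hτ' : 0 < min τ (1 / ((j : ℝ) + 1)) := lt_min hτ (by positivity)
    have h3 : m₀ ≤ m (min τ (1 / ((j : ℝ) + 1))) := csInf_le hb ⟨_, hτ', rfl⟩
    obtain ⟨F, hF⟩ := exists_lt_of_lt_ciSup
      (show m₀ - δ / 2 ^ j < m (min τ (1 / ((j : ℝ) + 1))) by linarith)
    exact ⟨_, F, hτ', min_le_right _ _, (hmm _ _ (min_le_left _ _)).trans h2.le, hF.le⟩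
  choose τ F hτ0 hτ1 hτ2 hτ3 using h1
  have hsmall : ∀ ε, 0 < ε → ∃ i, τ i < ε := fun ε hε => by
    obtain ⟨i, hi⟩ := exists_nat_one_div_lt hε
    exact ⟨i, (hτ1 i).trans_lt hi⟩
  let G : ℕ → Set M := fun j => {x | ∀ i ≤ j, x ∈ Nb (τ i) (F i)}
  have hG : ∀ j, m₀ - 4 * δ + 3 * (δ / 2 ^ j) ≤ σ (G j) := by
    intro j
    induction j with
    | zero =>
      have h2 : G 0 = Nb (τ 0) (F 0) := by
        ext x; simp [G]
      have := hτ3 0
      rw [h2]
      simp only [pow_zero, div_one] at this ⊢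
      linarith
    | succ j ih =>
      have h2 : G (j + 1) = G j ∩ Nb (τ (j + 1)) (F (j + 1)) := by
        ext x
        simp only [G, mem_ofPred_eq, mem_inter_iff]
        exact ⟨fun h => ⟨fun i hi => h i (by omega), h _ le_rfl⟩, fun h i hi => by
          rcases Nat.le_succ_iff.1 hi with h3 | rfl
          · exact h.1 i h3
          · exact h.2⟩
      have h3 := hσ.2 (G j) (Nb (τ (j + 1)) (F (j + 1)))
      have h4 := hσ.union_eq (G j) (Nb (τ (j + 1)) (F (j + 1)))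
      have h5 : σ (G j ∪ Nb (τ (j + 1)) (F (j + 1))) ≤ m (max (τ j) (τ (j + 1))) := by
        refine le_trans (hσ.mono ?_) (hm _ (F j ∪ F (j + 1)))
        rw [Finset.coe_union]
        exact union_subset (fun x hx => Nb.mono (le_max_left _ _) subset_union_left (hx j le_rfl))
          (Nb.mono (le_max_right _ _) subset_union_right)
      have h6 : δ / 2 ^ (j + 1) = δ / 2 ^ j / 2 := by rw [pow_succ, ← div_div]
      have hp : 0 < δ / 2 ^ j := by positivity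
      have h7 : m (max (τ j) (τ (j + 1))) ≤ m₀ + δ / 2 ^ j := by
        rcases max_choice (τ j) (τ (j + 1)) with h | h <;> rw [h]
        · exact hτ2 j
        · linarith [hτ2 (j + 1)]
      have h8 := hτ3 (j + 1)
      rw [h2]
      linarith
  let K : Set M := {x | ∀ i, x ∈ Nb (τ i) (F i)}
  have hKc : IsClosed K := by
    have : K = ⋂ i, Nb (τ i) (F i) := by ext x; simp [K]
    rw [this]
    exact isClosed_iInter fun i => Nb.closed _ _
  refine ⟨K, ?_, τ 0, hτ0 0, fun F' τ' hτ' => ?_⟩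
  · refine TotallyBounded.isCompact_of_isClosed ?_ hKc
    refine Metric.totallyBounded_iff.2 fun ε hε => ?_
    obtain ⟨i, hi⟩ := hsmall ε hε
    refine ⟨F i, (F i).finite_toSet, fun x hx => ?_⟩
    obtain ⟨z, hz, hz'⟩ := hx i
    exact mem_iUnion₂.2 ⟨z, hz, hz'.trans_lt hi⟩
  · have h2 : ∃ j, G j ⊆ Nb τ' K := by
      by_contra hn
      push Not at hn
      choose x hx hx' using fun j => not_subset.1 (hn j)
      let V : Ultrafilter M := (hyperfilter ℕ).map x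
      have hV : ((hyperfilter ℕ : Ultrafilter ℕ) : Filter ℕ) ≤ atTop :=
        Nat.cofinite_eq_atTop ▸ hyperfilter_le_cofinite
      have h3 : ∀ i, Nb (τ i) (F i) ∈ V := fun i =>
        hV ((eventually_ge_atTop i).mono fun j hj => hx j i hj)
      have h4 : Cauchy (V : Filter M) := by
        refine Metric.cauchy_iff.2 ⟨inferInstance, fun ε hε => ?_⟩
        obtain ⟨i, hi⟩ := hsmall (ε / 2) (by linarith)
        have h5 := h3 i
        rw [Nb.eq] at h5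
        obtain ⟨z, -, hz⟩ := (Ultrafilter.finite_biUnion_mem_iff (F i).finite_toSet).1 h5
        refine ⟨_, hz, fun a ha b hb => ?_⟩
        have := dist_triangle_right a b z
        rw [Metric.mem_closedBall] at ha hb
        linarith
      obtain ⟨z, hz⟩ := CompleteSpace.complete h4
      have h5 : z ∈ K := fun i => (Nb.closed _ _).mem_of_tendsto (f := id) (b := (V : Filter M))
        (tendsto_id'.2 hz) (h3 i)
      have h6 : Metric.closedBall z τ' ∈ V := hz (Metric.closedBall_mem_nhds z hτ')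
      have h7 : ∀ᶠ j in ((hyperfilter ℕ : Ultrafilter ℕ) : Filter ℕ),
        x j ∈ Metric.closedBall z τ' := h6
      obtain ⟨j, hj⟩ := h7.exists
      exact hx' j ⟨z, h5, hj⟩
    obtain ⟨j, hj⟩ := h2
    have h3 : σ (Nb (τ 0) F' \ Nb τ' K) ≤ σ (Nb (τ 0) F' \ G j) :=
      hσ.mono (sdiff_subset_sdiff_right hj)
    have h4 := hσ.union_eq (Nb (τ 0) F') (G j)
    have h5 : σ (Nb (τ 0) F' ∪ G j) ≤ m (τ 0) := by
      refine le_trans (hσ.mono ?_) (hm _ (F' ∪ F 0))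
      rw [Finset.coe_union]
      exact union_subset (Nb.mono le_rfl subset_union_left)
        (fun x hx => Nb.mono le_rfl subset_union_right (hx 0 (Nat.zero_le _)))
    have h6 := hτ2 0
    have h7 := hG j
    have hp : 0 < δ / 2 ^ j := by positivity
    simp only [pow_zero, div_one] at h6
    linarith

theorem gap {π : Set (M × M) → ℝ} (hπ : Chg π) {η : ℝ} (hη : 0 < η) :
    ∃ τ₀, 0 < τ₀ ∧ ∀ τ, 0 < τ → π {p | τ < dist p.1 p.2 ∧ dist p.1 p.2 ≤ τ₀} ≤ η := by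
  let n : ℝ → ℝ := fun τ => π {p | dist p.1 p.2 ≤ τ}
  have hb : BddBelow (n '' Ioi 0) := ⟨0, by rintro _ ⟨τ, -, rfl⟩; exact hπ.1 _⟩
  obtain ⟨_, ⟨τ₀, hτ, rfl⟩, h2⟩ := exists_lt_of_csInf_lt
    (show (n '' Ioi 0).Nonempty from ⟨_, 1, by simp, rfl⟩)
    (show sInf (n '' Ioi 0) < sInf (n '' Ioi 0) + η by linarith)
  refine ⟨τ₀, hτ, fun τ h => ?_⟩
  rcases le_total τ τ₀ with h1 | h1
  · have h3 : sInf (n '' Ioi 0) ≤ n τ := csInf_le hb ⟨τ, h, rfl⟩
    have h4 := hπ.2 {p | dist p.1 p.2 ≤ τ₀} {p | dist p.1 p.2 ≤ τ}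
    have h5 : n τ ≤ π ({p | dist p.1 p.2 ≤ τ₀} ∩ {p | dist p.1 p.2 ≤ τ}) :=
      hπ.mono fun p hp => ⟨le_trans hp h1, hp⟩
    have h6 : π {p | τ < dist p.1 p.2 ∧ dist p.1 p.2 ≤ τ₀} ≤
        π ({p | dist p.1 p.2 ≤ τ₀} \ {p | dist p.1 p.2 ≤ τ}) :=
      hπ.mono fun p hp => ⟨hp.2, not_le.2 hp.1⟩
    have h7 : n τ₀ = π {p | dist p.1 p.2 ≤ τ₀} := rfl
    linarith
  · refine le_trans (hπ.mono (F := ∅) fun p hp => ?_) (hπ.empty.le.trans hη.le)
    exact absurd (hp.2.trans h1) (not_le.2 hp.1)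

end Pool.Agent.P.MP_6e86bf_an
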