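import Mathlib

/-! Lipschitz-free spaces and the two measures of weak non-compactness. -/

namespace Pool.Agent.P.MP_6e86bf_an

open scoped ENNReal NNReal MeasureTheory
open Set

universe u

section Lip

variable {M : Type u} [MetricSpace M]

theorem lip_add {f g : M → ℝ} (hf : ∃ K : ℝ≥0, LipschitzWith K f)
    (hg : ∃ K : ℝ≥0, LipschitzWith K g) : ∃ K : ℝ≥0, LipschitzWith K (f + g) := by
  obtain ⟨K, hK⟩ := hf
  obtain ⟨L, hL⟩ := hg
  exact ⟨K + L, hK.add hL⟩

theorem lip_smul (c : ℝ) {f : M → ℝ} (hf : ∃ K : ℝ≥0, LipschitzWith K f) :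
    ∃ K : ℝ≥0, LipschitzWith K (c • f) := by
  obtain ⟨K, hK⟩ := hf
  exact ⟨_, (lipschitzWith_smul c).comp hK⟩

/-- The real Lipschitz functions on `M` vanishing at the base point `o`. -/
def lipSub (o : M) : Submodule ℝ (M → ℝ) where
  carrier := {f | f o = 0 ∧ ∃ K : ℝ≥0, LipschitzWith K f}
  add_mem' := fun hf hg => ⟨by simp [hf.1, hg.1], lip_add hf.2 hg.2⟩
  zero_mem' := ⟨rfl, 0, LipschitzWith.const 0⟩
  smul_mem' := fun c _ hf => ⟨by simp [hf.1], lip_smul c hf.2⟩

/-- The space `Lip_0(M)` (a copy of `lipSub o` that will carry the Lipschitz norm). -/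
def Lip0 (o : M) : Type u := ↥(lipSub o)

instance (o : M) : AddCommGroup (Lip0 o) := Submodule.addCommGroup (lipSub o)

instance (o : M) : Module ℝ (Lip0 o) := Submodule.module (lipSub o)

/-- The underlying function of an element of `Lip_0(M)`. -/
def Lip0.fn {o : M} (f : Lip0 o) : M → ℝ := (show ↥(lipSub o) from f).1

/-- The norm of `Lip_0(M)` is the least Lipschitz constant. -/
noncomputable instance (o : M) : Norm (Lip0 o) :=
  ⟨fun f => sInf {K : ℝ | 0 ≤ K ∧ ∀ x y, |f.fn x - f.fn y| ≤ K * dist x y}⟩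

variable {o : M}

theorem Lip0.norm_def (f : Lip0 o) :
    ‖f‖ = sInf {K : ℝ | 0 ≤ K ∧ ∀ x y, |f.fn x - f.fn y| ≤ K * dist x y} := rfl

theorem Lip0.fn_add (f g : Lip0 o) (x : M) : (f + g).fn x = f.fn x + g.fn x := rfl

theorem Lip0.fn_smul (c : ℝ) (f : Lip0 o) (x : M) : (c • f).fn x = c * f.fn x := rfl

theorem Lip0.fn_base (f : Lip0 o) : f.fn o = 0 := (show ↥(lipSub o) from f).2.1

theorem Lip0.ne (f : Lip0 o) :
    {K : ℝ | 0 ≤ K ∧ ∀ x y, |f.fn x - f.fn y| ≤ K * dist x y}.Nonempty := by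
  obtain ⟨K, hK⟩ := (show ↥(lipSub o) from f).2.2
  exact ⟨K, K.2, fun x y => hK.dist_le_mul x y⟩

theorem Lip0.norm_nonneg' (f : Lip0 o) : 0 ≤ ‖f‖ := le_csInf f.ne fun _ h => h.1

theorem Lip0.norm_le (f : Lip0 o) {K : ℝ} (h0 : 0 ≤ K)
    (h : ∀ x y, |f.fn x - f.fn y| ≤ K * dist x y) : ‖f‖ ≤ K :=
  csInf_le ⟨0, fun _ h => h.1⟩ ⟨h0, h⟩

theorem Lip0.le_norm (f : Lip0 o) (x y : M) : |f.fn x - f.fn y| ≤ ‖f‖ * dist x y := by
  rcases eq_or_ne x y with rfl | hxy
  · simp
  · have hd : 0 < dist x y := dist_pos.2 hxy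
    rw [← div_le_iff₀ hd]
    exact le_csInf f.ne fun K hK => (div_le_iff₀ hd).2 (hK.2 x y)

theorem Lip0.smul_le (c : ℝ) (f : Lip0 o) : ‖c • f‖ ≤ |c| * ‖f‖ := by
  refine Lip0.norm_le _ (mul_nonneg (abs_nonneg _) f.norm_nonneg') fun x y => ?_
  rw [Lip0.fn_smul, Lip0.fn_smul, ← mul_sub, abs_mul, mul_assoc]
  exact mul_le_mul_of_nonneg_left (f.le_norm x y) (abs_nonneg _)

theorem Lip0.core (o : M) : NormedSpace.Core ℝ (Lip0 o) where
  norm_nonneg := Lip0.norm_nonneg'
  norm_smul c f := by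
    refine le_antisymm (Lip0.smul_le c f) ?_
    rcases eq_or_ne c 0 with rfl | hc
    · simpa using Lip0.norm_nonneg' _
    · have h := Lip0.smul_le c⁻¹ (c • f)
      rw [smul_smul, inv_mul_cancel₀ hc, one_smul, abs_inv] at h
      have hp : 0 < |c| := abs_pos.2 hc
      rw [Real.norm_eq_abs]
      calc |c| * ‖f‖ ≤ |c| * (|c|⁻¹ * ‖c • f‖) := mul_le_mul_of_nonneg_left h hp.le
        _ = ‖c • f‖ := by field_simp
  norm_triangle f g := by
    refine Lip0.norm_le _ (add_nonneg f.norm_nonneg' g.norm_nonneg') fun x y => ?_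
    have h1 := f.le_norm x y
    have h2 := g.le_norm x y
    rw [Lip0.fn_add, Lip0.fn_add]
    calc |f.fn x + g.fn x - (f.fn y + g.fn y)| = |(f.fn x - f.fn y) + (g.fn x - g.fn y)| := by
          ring_nf
      _ ≤ |f.fn x - f.fn y| + |g.fn x - g.fn y| := abs_add_le _ _
      _ ≤ (‖f‖ + ‖g‖) * dist x y := by linarith
  norm_eq_zero_iff f := by
    constructor
    · intro h
      apply Subtype.ext
      funext x
      have h1 := f.le_norm x o
      rw [h, zero_mul, f.fn_base, sub_zero] at h1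
      exact abs_nonpos_iff.1 h1
    · rintro rfl
      refine le_antisymm (Lip0.norm_le _ le_rfl fun x y => ?_) (Lip0.norm_nonneg' _)
      show |(0 : ℝ) - 0| ≤ _
      simp

noncomputable instance (o : M) : NormedAddCommGroup (Lip0 o) :=
  NormedAddCommGroup.ofCore (Lip0.core o)

noncomputable instance (o : M) : NormedSpace ℝ (Lip0 o) := NormedSpace.ofCore (Lip0.core o)

theorem Lip0.eval_le (x : M) (f : Lip0 o) : ‖f.fn x‖ ≤ dist x o * ‖f‖ := by
  have h := f.le_norm x o
  rw [f.fn_base, sub_zero, mul_comm] at h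
  exact h

/-- The evaluation functional `δ_x` on `Lip_0(M)`. -/
noncomputable def delta (o x : M) : StrongDual ℝ (Lip0 o) :=
  LinearMap.mkContinuous
    { toFun := fun f => f.fn x
      map_add' := fun f g => Lip0.fn_add f g x
      map_smul' := fun c f => Lip0.fn_smul c f x }
    (dist x o) (Lip0.eval_le x)

/-- The closed linear span of the `δ_x` in the dual of `Lip_0(M)`. -/
noncomputable def freeSub (o : M) : Submodule ℝ (StrongDual ℝ (Lip0 o)) :=
  (Submodule.span ℝ (range (delta o))).topologicalClosure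

/-- The Lipschitz-free space `F(M)`: the subspace `freeSub o` with the dual norm. -/
def Free (o : M) : Type u := ↥(freeSub o)

noncomputable instance (o : M) : NormedAddCommGroup (Free o) :=
  Submodule.normedAddCommGroup (freeSub o)

noncomputable instance (o : M) : NormedSpace ℝ (Free o) :=
  Submodule.normedSpace (freeSub o)

/-- `M` is purely 1-unrectifiable: every Lipschitz image of a compact subset of the line is null
for the one-dimensional Hausdorff measure. -/
def PurelyUnrectifiable (M : Type u) [MetricSpace M] [MeasurableSpace M] [BorelSpace M] : Prop :=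
  ∀ (E : Set ℝ) (γ : ℝ → M) (L : ℝ≥0), IsCompact E → LipschitzOnWith L γ E → μH[1] (γ '' E) = 0

end Lip

section Measures

variable {X : Type u} [NormedAddCommGroup X] [NormedSpace ℝ X]

/-- De Blasi measure: the infimum over weakly compact `K` of `sup_{a ∈ A} dist(a, K)`. -/
noncomputable def omega (A : Set X) : ℝ≥0∞ :=
  ⨅ (K : Set X) (_ : IsCompact (toWeakSpace ℝ X '' K)), ⨆ a ∈ A, Metric.infEDist a K

/-- For sets `B`, `C` of functionals on `X`: the supremum over `φ` in the weak-star closure of `B`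
of the norm distance from `φ` to `C`. -/
noncomputable def starExcess (B C : Set (StrongDual ℝ X)) : ℝ≥0∞ :=
  ⨆ φ ∈ closure ((fun b => StrongDual.toWeakDual b) '' B),
    Metric.infEDist (WeakDual.toStrongDual φ) C

/-- The canonical map of `X` into its bidual. -/
noncomputable def canon (a : X) : StrongDual ℝ (StrongDual ℝ X) :=
  NormedSpace.inclusionInDoubleDual ℝ X a

/-- `wk(A)`: the supremum over `φ` in the weak-star closure of `A` in the bidual of the norm
distance from `φ` to (the canonical image of) `X`. -/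
noncomputable def wk (A : Set X) : ℝ≥0∞ :=
  starExcess (X := StrongDual ℝ X) (canon '' A) (range canon)

theorem wk_eq (A : Set X) : wk A = ⨆ φ ∈ closure
    ((fun a => StrongDual.toWeakDual (NormedSpace.inclusionInDoubleDual ℝ X a)) '' A),
    Metric.infEDist (WeakDual.toStrongDual φ) (range (NormedSpace.inclusionInDoubleDual ℝ X)) := by
  rw [wk, starExcess, image_image]
  rfl

end Measures

end Pool.Agent.P.MP_6e86bf_an
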