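import Pool.Agent.P.MP_6e86bf_an.Main

/-! Uniformly separated spaces, and the example showing that the constant 3 is optimal. -/

namespace Pool.Agent.P.MP_6e86bf_an

open scoped Topology ENNReal MeasureTheory
open Set Filter

universe u

section Sep

variable {M : Type u} [MetricSpace M]

theorem sep_complete (h : ∃ δ : ℝ, 0 < δ ∧ ∀ x y : M, x ≠ y → δ ≤ dist x y) : CompleteSpace M := by
  obtain ⟨δ, hδ, h⟩ := h
  refine Metric.complete_of_cauchySeq_tendsto fun u hu => ?_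
  obtain ⟨N, hN⟩ := Metric.cauchySeq_iff'.1 hu δ hδ
  refine ⟨u N, tendsto_const_nhds.congr' ((eventually_ge_atTop N).mono fun n hn => ?_)⟩
  by_contra h1
  exact absurd (h _ _ (Ne.symm h1)) (not_le.2 (hN n hn))

theorem sep_unrect [MeasurableSpace M] [BorelSpace M]
    (h : ∃ δ : ℝ, 0 < δ ∧ ∀ x y : M, x ≠ y → δ ≤ dist x y) : PurelyUnrectifiable M := by
  obtain ⟨δ, hδ, h⟩ := h
  have : DiscreteTopology M := by
    refine discreteTopology_iff_isOpen_singleton.2 fun x => Metric.isOpen_iff.2 ?_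
    rintro _ rfl
    refine ⟨δ, hδ, fun y hy => ?_⟩
    by_contra h1
    exact absurd (h _ _ h1) (not_le.2 hy)
  intro E γ L hE hγ
  have := MeasureTheory.Measure.nullSingletonClass_hausdorff M (d := 1) one_pos
  exact (hE.image_of_continuousOn hγ.continuousOn).finite_of_discrete.measure_zero _

theorem sep_core (h : ∃ δ : ℝ, 0 < δ ∧ ∀ x y : M, x ≠ y → δ ≤ dist x y) : CoreSt M := by
  have := sep_complete h
  borelize M
  exact core (sep_unrect h)

end Sep

section Gen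

variable {X : Type u} [NormedAddCommGroup X] [NormedSpace ℝ X]

theorem wk_mono {A B : Set X} (h : A ⊆ B) : wk A ≤ wk B := by
  rw [wk_eq, wk_eq]
  exact biSup_mono fun _ hφ => closure_mono (image_mono h) hφ

theorem wk_compact {K : Set X} (hK : IsCompact (toWeakSpace ℝ X '' K)) : wk K = 0 := by
  have h1 := (hK.image (NormedSpace.inclusionInDoubleDualWeak ℝ X).continuous).isClosed
  rw [image_image] at h1
  have h2 : IsClosed ((fun a => StrongDual.toWeakDual
    (NormedSpace.inclusionInDoubleDual ℝ X a)) '' K) := h1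
  rw [wk_eq, h2.closure_eq]
  refine le_antisymm (iSup₂_le ?_) zero_le
  rintro _ ⟨a, -, rfl⟩
  exact (Metric.infEDist_zero_of_mem (mem_range_self a)).le

end Gen

/-- the example: points `a_k = (k, true)` and `b_k = (k, false)` -/
def Ex : Type := ℕ × Bool

/-- integer distances on the example -/
def dN (x y : ℕ × Bool) : ℕ :=
  if x.2 = y.2 then (if x.1 = y.1 then 0 else 2)
  else if x.1 = y.1 then 3 else if (x.1 < y.1 ↔ x.2 = true) then 1 else 2

instance : MetricSpace Ex where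
  dist x y := dN x y
  dist_self x := by simp [dN]
  dist_comm := by
    rintro ⟨k, a⟩ ⟨l, b⟩
    congr 1
    cases a <;> cases b <;> simp only [dN] <;> split_ifs <;> simp_all <;> omega
  dist_triangle := by
    rintro ⟨k, a⟩ ⟨l, b⟩ ⟨m, c⟩
    norm_cast
    cases a <;> cases b <;> cases c <;> simp only [dN] <;> split_ifs <;> simp_all <;> omega
  eq_of_dist_eq_zero := by
    rintro ⟨k, a⟩ ⟨l, b⟩ h
    have h1 : dN (k, a) (l, b) = 0 := by exact_mod_cast h
    have h2 : k = l ∧ a = b := by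
      revert h1
      cases a <;> cases b <;> simp only [dN] <;> split_ifs <;> simp_all
    rw [h2.1, h2.2]

theorem Ex.dist_eq (x y : Ex) : dist x y = dN x y := rfl

theorem Ex.sep : ∃ δ : ℝ, 0 < δ ∧ ∀ x y : Ex, x ≠ y → δ ≤ dist x y := by
  refine ⟨1, one_pos, fun x y h => ?_⟩
  have h1 := dist_pos.2 h
  rw [Ex.dist_eq] at h1 ⊢
  exact_mod_cast h1

/-- the point `a_k` -/
def Ex.a (k : ℕ) : Ex := (k, true)

/-- the point `b_k` -/
def Ex.b (k : ℕ) : Ex := (k, false)

/-- the test functions of the example -/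
def fZ (k : ℕ) (x : ℕ × Bool) : ℤ :=
  if x.1 < k then 0 else if x.1 = k then (if x.2 = true then 2 else -1) else 1

theorem fZ_lip (k : ℕ) (x y : Ex) : |(fZ k x : ℝ) - fZ k y| ≤ 1 * dist x y := by
  rw [one_mul, Ex.dist_eq]
  obtain ⟨l, a⟩ := x
  obtain ⟨m, b⟩ := y
  have : |fZ k (l, a) - fZ k (m, b)| ≤ (dN (l, a) (m, b) : ℤ) := by
    cases a <;> cases b <;> simp only [dN, fZ] <;> split_ifs <;> simp_all <;> omega
  exact_mod_cast this

/-- the molecules of the example -/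
noncomputable def Ex.y (k : ℕ) : Free (Ex.a 0) := dl _ (Ex.a k) - dl _ (Ex.b k)

theorem Ex.norm_y (k : ℕ) : ‖Ex.y k‖ ≤ 3 :=
  (norm_dl_sub _ _).trans (by rw [Ex.dist_eq]; simp [dN, Ex.a, Ex.b])

theorem Ex.bdd : Bornology.IsBounded (range Ex.y) :=
  isBounded_iff_forall_norm_le.2 ⟨3, by rintro _ ⟨k, rfl⟩; exact Ex.norm_y k⟩

theorem Ex.omega_ge : 3 ≤ omega (range Ex.y) := by
  refine le_iInf₂ fun K hK => ?_
  by_contra hn
  obtain ⟨c, hc0, hc1, hc2⟩ := ENNReal.lt_iff_exists_real_btwn.1 (not_le.1 hn)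
  have hc3 : c < 3 := by
    rw [← ENNReal.ofReal_ofNat 3] at hc2
    exact (ENNReal.ofReal_lt_ofReal_iff (by norm_num)).1 hc2
  have h1 : ∀ k, ∃ z ∈ K, ‖Ex.y k - z‖ < c := by
    intro k
    obtain ⟨z, hz, hz'⟩ := Metric.infEDist_lt_iff.1
      ((le_iSup₂_of_le (f := fun a (_ : a ∈ range Ex.y) => Metric.infEDist a K) _ ⟨k, rfl⟩
        le_rfl).trans_lt hc1)
    rw [edist_lt_ofReal, dist_eq_norm] at hz'
    exact ⟨z, hz, hz'⟩
  choose z hz hz' using h1
  have hb : Bornology.IsBounded (range z) := isBounded_iff_forall_norm_le.2 ⟨3 + c, by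
    rintro _ ⟨k, rfl⟩
    have := norm_sub_norm_le (z k) (Ex.y k)
    rw [norm_sub_rev] at this
    linarith [Ex.norm_y k, hz' k]⟩
  have h2 := wk_ge (sep_core Ex.sep) (range z) hb (sub_pos.2 hc3) (fun S => by
    obtain ⟨k, hk⟩ := (S.finite_toSet.image (Prod.fst : ℕ × Bool → ℕ)).bddAbove
    obtain ⟨F, hF, hF'⟩ := exists_fun (Ex.a 0) (fun x => (fZ (k + 1) x : ℝ)) zero_le_one
      (fZ_lip (k + 1))
    refine ⟨z (k + 1), ⟨_, rfl⟩, F, hF, fun s hs => ?_, ?_⟩
    · have h3 : (s : ℕ × Bool).1 ≤ k := hk ⟨s, hs, rfl⟩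
      rw [hF']
      simp [fZ, Ex.a, Nat.lt_succ_of_le h3]
    · have h3 : F (Ex.y (k + 1)) = 3 := by
        rw [Ex.y, map_sub, hF', hF']
        simp [fZ, Ex.a, Ex.b]
        norm_num
      have h4 : |F (Ex.y (k + 1) - z (k + 1))| ≤ ‖F‖ * ‖Ex.y (k + 1) - z (k + 1)‖ := F.le_opNorm _
      have h5 : ‖F‖ * ‖Ex.y (k + 1) - z (k + 1)‖ ≤ 1 * c :=
        mul_le_mul hF (hz' _).le (norm_nonneg _) zero_le_one
      rw [map_sub] at h4
      linarith [(abs_le.1 (h4.trans h5)).2])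
  have h3 := (h2.trans (wk_mono (range_subset_iff.2 hz))).trans (wk_compact hK).le
  rw [nonpos_iff_eq_zero, ENNReal.ofReal_eq_zero] at h3
  linarith

theorem Ex.wk_le : wk (range Ex.y) ≤ 1 := by
  rw [wk_eq]
  refine iSup₂_le fun φ hφ => ?_
  set ι := fun a : Free (Ex.a 0) =>
    StrongDual.toWeakDual (NormedSpace.inclusionInDoubleDual ℝ (Free (Ex.a 0)) a) with hι
  by_cases h0 : φ ∈ ι '' range Ex.y
  · obtain ⟨a, -, rfl⟩ := h0
    exact (Metric.infEDist_zero_of_mem (mem_range_self a)).le.trans zero_le_one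
  have key : ∀ F : StrongDual ℝ (Free (Ex.a 0)), ‖F‖ ≤ 1 → φ F ≤ 1 := by
    intro F hF
    refine le_of_forall_pos_le_add fun ε hε => ?_
    have hl := lip1_of_norm F hF
    have hI : {k | 1 + ε < F (Ex.y k)}.Finite := by
      by_contra hI
      have hI' : {k | 1 + ε < F (Ex.y k)}.Infinite := hI
      let Z : Set ℝ := (fun k => F (dl _ (Ex.b k))) '' {k | 1 + ε < F (Ex.y k)}
      have hb : BddAbove Z := ⟨F (dl _ (Ex.b 0)) + 2, by
        rintro _ ⟨k, -, rfl⟩
        have h1 := (abs_le.1 (hl (Ex.b k) (Ex.b 0))).2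
        have h2 : dist (Ex.b k) (Ex.b 0) ≤ 2 := by
          rw [Ex.dist_eq]
          simp only [dN, Ex.b]
          split_ifs <;> simp_all
        simp only at h1 ⊢
        linarith⟩
      obtain ⟨_, ⟨k, hk, rfl⟩, h1⟩ := exists_lt_of_lt_csSup (hI'.nonempty.image _ : Z.Nonempty)
        (show sSup Z - ε < sSup Z by linarith)
      obtain ⟨l, hl1, hl2⟩ := hI'.exists_gt k
      have h2 := le_csSup hb ⟨l, hl1, rfl⟩
      have h3 := (abs_le.1 (hl (Ex.a k) (Ex.b l))).2
      have h4 : dist (Ex.a k) (Ex.b l) = 1 := by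
        rw [Ex.dist_eq]
        simp [dN, Ex.a, Ex.b, hl2, hl2.ne]
      have h5 : 1 + ε < F (Ex.y k) := hk
      rw [Ex.y, map_sub] at h5
      simp only at h1 h2 h3
      linarith
    have h1 : IsClosed (((fun k => ι (Ex.y k)) '' {k | 1 + ε < F (Ex.y k)}) ∪
        {ψ | ψ F ≤ 1 + ε}) :=
      (hI.image _).isClosed.union (isClosed_le (WeakDual.eval_continuous F) continuous_const)
    have h2 := h1.closure_subset_iff.2 (show ι '' range Ex.y ⊆ _ by
      rintro _ ⟨_, ⟨k, rfl⟩, rfl⟩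
      by_cases h : 1 + ε < F (Ex.y k)
      · exact Or.inl ⟨k, h, rfl⟩
      · exact Or.inr (not_lt.1 h)) hφ
    rcases h2 with ⟨k, -, rfl⟩ | h2
    · exact absurd ⟨_, ⟨k, rfl⟩, rfl⟩ h0
    · exact h2
  have h1 : ‖WeakDual.toStrongDual φ‖ ≤ 1 := by
    refine ContinuousLinearMap.opNorm_le_of_unit_norm zero_le_one fun F hF => ?_
    have h2 := key (-F) (by rw [norm_neg]; exact hF.le)
    rw [map_neg] at h2
    exact abs_le.2 ⟨by show -1 ≤ φ F; linarith, key F hF.le⟩
  refine (Metric.infEDist_le_edist_of_mem (mem_range_self 0)).trans ?_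
  rw [edist_dist, dist_eq_norm, map_zero, sub_zero, ← ENNReal.ofReal_one]
  exact ENNReal.ofReal_le_ofReal h1

theorem Ex.sharp : omega (range Ex.y) = 3 ∧ wk (range Ex.y) = 1 := by
  have h1 := omega_le (sep_core Ex.sep) _ Ex.bdd
  refine ⟨le_antisymm (h1.trans ?_) Ex.omega_ge, le_antisymm Ex.wk_le ?_⟩
  · calc 3 * wk (range Ex.y) ≤ 3 * 1 := by gcongr; exact Ex.wk_le
      _ = 3 := mul_one _
  · have h2 := Ex.omega_ge.trans h1
    rwa [← mul_one (3 : ℝ≥0∞), mul_assoc, one_mul,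
      ENNReal.mul_le_mul_iff_right (by norm_num) (by norm_num)] at h2

end Pool.Agent.P.MP_6e86bf_an
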