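import Pool.Agent.P.MP_6e86bf_an.Defs

/-! Functional analysis in the free space: duality with Lipschitz functions, transport plans. -/

namespace Pool.Agent.P.MP_6e86bf_an

open scoped ENNReal NNReal Topology
open Set Filter

universe u

variable {M : Type u} [MetricSpace M]

/-- value of a function on a plan -/
noncomputable def val (w : M × M →₀ ℝ) (g : M → ℝ) : ℝ :=
  ∑ p ∈ w.support, w p * (g p.1 - g p.2)

/-- cost of the part of a plan lying in `D` -/
noncomputable def mass (w : M × M →₀ ℝ) (D : Set (M × M)) : ℝ :=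
  ∑ p ∈ w.support, D.indicator (fun p => w p * dist p.1 p.2) p

/-- `g` is 1-Lipschitz -/
def Lip1 (g : M → ℝ) : Prop := ∀ x y, |g x - g y| ≤ dist x y

/-- The metric core of the argument. -/
def CoreSt (M : Type u) [MetricSpace M] : Prop :=
  ∀ (R c ε : ℝ) (w : Finset M → (M × M →₀ ℝ)) (f : Finset M → M → ℝ), 0 < ε → 0 < c →
    (∀ S p, 0 ≤ w S p) → (∀ S, mass (w S) univ ≤ R) → (∀ S, Lip1 (f S)) →
    (∀ S, ∀ s ∈ S, f S s = 0) → (∀ S, c ≤ val (w S) (f S)) →
    ∃ q : ℕ → Finset M, ∀ (S : Finset M) (κ : ℝ), 0 < κ →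
      ∃ g, Lip1 g ∧ (∀ s ∈ S, |g s| ≤ κ) ∧ ∀ᶠ j in atTop, c / 3 - ε ≤ val (w (q j)) g

variable {o : M}

/-- `δ_x` as an element of the free space -/
noncomputable def dl (o x : M) : Free o :=
  (⟨delta o x, Submodule.le_topologicalClosure _ (Submodule.subset_span ⟨x, rfl⟩)⟩ : ↥(freeSub o))

/-- the inclusion of the free space in the dual of `Lip_0` -/
noncomputable def incl (o : M) : Free o →ₗ[ℝ] StrongDual ℝ (Lip0 o) := (freeSub o).subtype

theorem norm_incl (a : Free o) : ‖incl o a‖ = ‖a‖ := rfl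

theorem incl_dl (x : M) : incl o (dl o x) = delta o x := rfl

theorem dl_base : dl o o = 0 := by
  apply Subtype.ext
  ext f
  exact f.fn_base

theorem norm_dl_sub (x y : M) : ‖dl o x - dl o y‖ ≤ dist x y := by
  show ‖delta o x - delta o y‖ ≤ _
  refine ContinuousLinearMap.opNorm_le_bound _ dist_nonneg fun f => ?_
  have := f.le_norm x y
  rw [mul_comm] at this
  exact this

theorem approx_span (a : Free o) {ε : ℝ} (hε : 0 < ε) :
    ∃ l : M →₀ ℝ, ‖a - ∑ x ∈ l.support, l x • dl o x‖ < ε := by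
  have h : incl o a ∈ closure (Submodule.span ℝ (range (delta o)) : Set _) :=
    (show ↥(freeSub o) from a).2
  obtain ⟨b, hb, hab⟩ := Metric.mem_closure_iff.1 h ε hε
  obtain ⟨l, rfl⟩ := Finsupp.mem_span_range_iff_exists_finsupp.1 hb
  refine ⟨l, ?_⟩
  rw [dist_eq_norm] at hab
  rw [← norm_incl, map_sub, map_sum]
  simp only [map_smul, incl_dl]
  exact hab

theorem dense_span : Dense (Submodule.span ℝ (range (dl o)) : Set (Free o)) := by
  intro a
  refine Metric.mem_closure_iff.2 fun ε hε => ?_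
  obtain ⟨l, hl⟩ := approx_span a hε
  refine ⟨∑ x ∈ l.support, l x • dl o x, ?_, by rw [dist_eq_norm]; exact hl⟩
  exact Submodule.sum_mem _ fun x _ => Submodule.smul_mem _ _ (Submodule.subset_span ⟨x, rfl⟩)

theorem exists_fun (o : M) (g : M → ℝ) {K : ℝ} (hK : 0 ≤ K)
    (hg : ∀ x y, |g x - g y| ≤ K * dist x y) :
    ∃ F : StrongDual ℝ (Free o), ‖F‖ ≤ K ∧ ∀ x, F (dl o x) = g x - g o := by
  have hl : LipschitzWith ⟨K, hK⟩ (fun x => g x - g o) :=
    LipschitzWith.of_dist_le_mul fun x y => by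
      rw [Real.dist_eq, sub_sub_sub_cancel_right]; exact hg x y
  let f0 : Lip0 o := (⟨fun x => g x - g o, sub_self _, _, hl⟩ : ↥(lipSub o))
  have hf0 : ‖f0‖ ≤ K := f0.norm_le hK fun x y => by
    show |g x - g o - (g y - g o)| ≤ _
    rw [sub_sub_sub_cancel_right]; exact hg x y
  have hb : ∀ a : Free o, ‖((NormedSpace.inclusionInDoubleDual ℝ (Lip0 o) f0).toLinearMap.comp
      (incl o)) a‖ ≤ K * ‖a‖ := by
    intro a
    show ‖incl o a f0‖ ≤ K * ‖a‖
    calc ‖incl o a f0‖ ≤ ‖incl o a‖ * ‖f0‖ := (incl o a).le_opNorm f0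
      _ ≤ ‖incl o a‖ * K := mul_le_mul_of_nonneg_left hf0 (norm_nonneg _)
      _ = K * ‖a‖ := mul_comm _ _
  exact ⟨LinearMap.mkContinuous _ K hb, LinearMap.mkContinuous_norm_le _ hK hb, fun x => rfl⟩

theorem norm_le_of_lip (F : StrongDual ℝ (Free o)) {K : ℝ} (hK : 0 ≤ K)
    (hF : ∀ x y, |F (dl o x) - F (dl o y)| ≤ K * dist x y) : ‖F‖ ≤ K := by
  obtain ⟨G, hG, hG'⟩ := exists_fun o (fun x => F (dl o x)) hK hF
  have : F = G := by
    refine ContinuousLinearMap.ext_on dense_span ?_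
    rintro _ ⟨x, rfl⟩
    rw [hG', dl_base, map_zero, sub_zero]
  rw [this]; exact hG

theorem lip1_of_norm (F : StrongDual ℝ (Free o)) (hF : ‖F‖ ≤ 1) : Lip1 fun x => F (dl o x) := by
  intro x y
  rw [← map_sub]
  calc |F (dl o x - dl o y)| ≤ ‖F‖ * ‖dl o x - dl o y‖ := F.le_opNorm _
    _ ≤ 1 * dist x y := mul_le_mul hF (norm_dl_sub x y) (norm_nonneg _) zero_le_one
    _ = dist x y := one_mul _

/-- the element of the free space given by a plan -/
noncomputable def mol (o : M) : (M × M →₀ ℝ) →ₗ[ℝ] Free o :=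
  Finsupp.linearCombination ℝ fun p : M × M => dl o p.1 - dl o p.2

theorem apply_mol (F : StrongDual ℝ (Free o)) (g : M → ℝ) (hF : ∀ x, F (dl o x) = g x - g o)
    (w : M × M →₀ ℝ) : F (mol o w) = val w g := by
  simp only [mol, Finsupp.linearCombination_apply, Finsupp.sum, map_sum, map_smul, map_sub, hF,
    val, smul_eq_mul, sub_sub_sub_cancel_right]

theorem mass_univ (w : M × M →₀ ℝ) :
    mass w univ = Finsupp.linearCombination ℝ (fun p : M × M => dist p.1 p.2) w := by
  simp [mass, Finsupp.linearCombination_apply, Finsupp.sum]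

theorem approx_plan (a : Free o) {R ε : ℝ} (hR : 0 < R) (ha : ‖a‖ ≤ R) (hε : 0 < ε) :
    ∃ w : M × M →₀ ℝ, (∀ p, 0 ≤ w p) ∧ mass w univ ≤ R ∧ ‖a - mol o w‖ < ε := by
  let B : Set (M × M →₀ ℝ) := {w | (∀ p, 0 ≤ w p) ∧ mass w univ ≤ R}
  have hB : Convex ℝ B := by
    intro w hw w' hw' s t hs ht hst
    refine ⟨fun p => ?_, ?_⟩
    · simp only [Finsupp.add_apply, Finsupp.smul_apply, smul_eq_mul]
      exact add_nonneg (mul_nonneg hs (hw.1 p)) (mul_nonneg ht (hw'.1 p))
    · have h1 := hw.2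
      have h2 := hw'.2
      rw [mass_univ] at h1 h2 ⊢
      rw [map_add, map_smul, map_smul, smul_eq_mul, smul_eq_mul]
      calc _ ≤ s * R + t * R :=
            add_le_add (mul_le_mul_of_nonneg_left h1 hs) (mul_le_mul_of_nonneg_left h2 ht)
        _ = R := by rw [← add_mul, hst, one_mul]
  have hmem : a ∈ closure (mol o '' B) := by
    by_contra hn
    obtain ⟨F, u, h1, h2⟩ := geometric_hahn_banach_closed_point
      (hB.linear_image (mol o)).closure isClosed_closure hn
    have hu : 0 < u := by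
      have := h1 0 (subset_closure ⟨0, ⟨fun p => le_rfl, by simp [mass, hR.le]⟩, map_zero _⟩)
      simpa using this
    have key : ∀ x y, F (dl o x) - F (dl o y) ≤ u / R * dist x y := by
      intro x y
      rcases eq_or_ne x y with rfl | hxy
      · simp
      · have hd : 0 < dist x y := dist_pos.2 hxy
        have hm : Finsupp.single (x, y) (R / dist x y) ∈ B := by
          refine ⟨fun p => ?_, ?_⟩
          · classical
            rw [Finsupp.single_apply]
            split_ifs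
            · positivity
            · exact le_rfl
          · rw [mass_univ, Finsupp.linearCombination_single, smul_eq_mul,
              div_mul_cancel₀ _ hd.ne']
        have := h1 _ (subset_closure ⟨_, hm, rfl⟩)
        rw [mol, Finsupp.linearCombination_single, map_smul, map_sub, smul_eq_mul] at this
        have h3 : R / dist x y * (F (dl o x) - F (dl o y)) ≤ u := this.le
        rw [div_mul_eq_mul_div, div_le_iff₀ hd] at h3
        rw [div_mul_eq_mul_div, le_div_iff₀ hR]
        linarith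
    have hF : ‖F‖ ≤ u / R := norm_le_of_lip F (by positivity) fun x y => by
      rw [abs_le]
      have := key y x
      rw [dist_comm] at this
      exact ⟨by linarith, key x y⟩
    have : F a ≤ u := by
      calc F a ≤ ‖F a‖ := Real.le_norm_self _
        _ ≤ ‖F‖ * ‖a‖ := F.le_opNorm a
        _ ≤ u / R * R := mul_le_mul hF ha (norm_nonneg _) (by positivity)
        _ = u := div_mul_cancel₀ _ hR.ne'
    linarith
  obtain ⟨_, ⟨w, hw, rfl⟩, h⟩ := Metric.mem_closure_iff.1 hmem ε hε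
  exact ⟨w, hw.1, hw.2, by rw [← dist_eq_norm]; exact h⟩

theorem exists_annihilator {X : Type*} [NormedAddCommGroup X] [NormedSpace ℝ X]
    (W : Submodule ℝ X) (a : X) {c : ℝ} (h : ∀ y ∈ W, c ≤ ‖a - y‖) :
    ∃ F : StrongDual ℝ X, ‖F‖ ≤ 1 ∧ (∀ y ∈ W, F y = 0) ∧ c ≤ F a := by
  obtain ⟨G, hG, hGa⟩ := exists_dual_vector'' ℝ (Submodule.Quotient.mk a : X ⧸ W)
  refine ⟨G.comp W.mkQL, ?_, fun y hy => ?_, ?_⟩
  · refine ContinuousLinearMap.opNorm_le_bound _ zero_le_one fun x => ?_
    calc ‖G (Submodule.Quotient.mk x)‖ ≤ ‖G‖ * ‖(Submodule.Quotient.mk x : X ⧸ W)‖ :=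
          G.le_opNorm _
      _ ≤ 1 * ‖x‖ := mul_le_mul hG (Submodule.Quotient.norm_mk_le W x) (norm_nonneg _) zero_le_one
  · show G (Submodule.Quotient.mk y) = 0
    rw [(Submodule.Quotient.mk_eq_zero W).2 hy, map_zero]
  · show c ≤ G (Submodule.Quotient.mk a)
    rw [hGa]
    refine le_of_forall_pos_le_add fun ε hε => ?_
    obtain ⟨m, hm, hm'⟩ := Submodule.Quotient.norm_mk_lt (Submodule.Quotient.mk a : X ⧸ W) hε
    have hW : a - m ∈ W := (Submodule.Quotient.eq W).1 hm.symm
    have := h _ hW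
    rw [sub_sub_cancel] at this
    exact this.trans hm'.le

theorem mem_ball_dd {X : Type*} [NormedAddCommGroup X] [NormedSpace ℝ X] (a : X) {R : ℝ}
    (h : ‖a‖ ≤ R) : StrongDual.toWeakDual (NormedSpace.inclusionInDoubleDual ℝ X a) ∈
      WeakDual.toStrongDual ⁻¹' Metric.closedBall (0 : StrongDual ℝ (StrongDual ℝ X)) R := by
  show NormedSpace.inclusionInDoubleDual ℝ X a ∈ Metric.closedBall 0 R
  exact (mem_closedBall_zero_iff (E := StrongDual ℝ (StrongDual ℝ X))).2
    ((NormedSpace.double_dual_bound ℝ _ _).trans h)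

/-- From the metric core: a family of points of `A` far from the spans of finite sets forces
`wk A` to be large. -/
theorem wk_ge (hC : CoreSt M) (A : Set (Free o)) (hA : Bornology.IsBounded A) {c : ℝ} (hc : 0 < c)
    (h : ∀ S : Finset M, ∃ a ∈ A, ∃ F : StrongDual ℝ (Free o), ‖F‖ ≤ 1 ∧
      (∀ s ∈ S, F (dl o s) = 0) ∧ c ≤ F a) : ENNReal.ofReal (c / 3) ≤ wk A := by
  obtain ⟨R, hR, hAR⟩ := hA.exists_pos_norm_le
  choose a ha F hF1 hF0 hFa using h
  have main : ∀ ε : ℝ, 0 < ε → ε < c → ENNReal.ofReal (c / 3 - 5 * ε) ≤ wk A := by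
    intro ε hε hεc
    choose w hw0 hwR hwa using fun S => approx_plan (a S) hR (hAR _ (ha S)) hε
    have hval : ∀ S, c - ε ≤ val (w S) fun x => F S (dl o x) := by
      intro S
      rw [← apply_mol (F S) (fun x => F S (dl o x)) (fun x => by rw [dl_base, map_zero, sub_zero])]
      have h1 : |F S (a S - mol o (w S))| ≤ ‖F S‖ * ‖a S - mol o (w S)‖ := (F S).le_opNorm _
      have h2 : ‖F S‖ * ‖a S - mol o (w S)‖ ≤ 1 * ε :=
        mul_le_mul (hF1 S) (hwa S).le (norm_nonneg _) zero_le_one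
      rw [map_sub] at h1
      have := (abs_le.1 (h1.trans h2)).2
      linarith [hFa S]
    obtain ⟨q, hq⟩ := hC R (c - ε) ε w (fun S x => F S (dl o x)) hε (by linarith) hw0 hwR
      (fun S => lip1_of_norm _ (hF1 S)) hF0 hval
    let ι : Free o → WeakDual ℝ (StrongDual ℝ (Free o)) := fun a =>
      StrongDual.toWeakDual (NormedSpace.inclusionInDoubleDual ℝ (Free o) a)
    have hcomp := WeakDual.isCompact_closedBall (𝕜 := ℝ)
      (0 : StrongDual ℝ (StrongDual ℝ (Free o))) R
    let V : Ultrafilter ℕ := hyperfilter ℕ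
    have hV : (V : Filter ℕ) ≤ atTop := Nat.cofinite_eq_atTop ▸ hyperfilter_le_cofinite
    obtain ⟨φ, -, hφ⟩ := hcomp.ultrafilter_le_nhds (V.map fun j => ι (a (q j))) (by
      rw [Ultrafilter.coe_map, le_principal_iff, mem_map]
      refine Eventually.of_forall fun j => ?_
      exact mem_ball_dd _ (hAR _ (ha _)))
    have hφt : Tendsto (fun j => ι (a (q j))) V (𝓝 φ) := hφ
    have hφA : φ ∈ closure (ι '' A) :=
      mem_closure_of_tendsto hφt (Eventually.of_forall fun j => ⟨_, ha _, rfl⟩)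
    rw [wk_eq]
    refine le_trans ?_ (le_iSup₂_of_le φ hφA le_rfl)
    rw [Metric.le_infEDist]
    rintro _ ⟨y, rfl⟩
    rw [edist_dist, dist_eq_norm]
    apply ENNReal.ofReal_le_ofReal
    obtain ⟨l, hl⟩ := approx_span y hε
    classical
    set T : ℝ := ∑ x ∈ l.support, |l x| with hT
    have hT0 : 0 ≤ T := Finset.sum_nonneg fun _ _ => abs_nonneg _
    obtain ⟨g, hg, hgS, hgq⟩ := hq (insert o l.support) (ε / (2 * T + 1)) (by positivity)
    obtain ⟨G, hG1, hG⟩ := exists_fun o g zero_le_one (fun x y => by rw [one_mul]; exact hg x y)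
    have e1 : c / 3 - 7 / 3 * ε ≤ φ G := by
      have ht : Tendsto (fun j => G (a (q j))) V (𝓝 (φ G)) :=
        ((WeakDual.eval_continuous G).tendsto φ).comp hφt
      refine ge_of_tendsto ht ((hgq.filter_mono hV).mono fun j hj => ?_)
      rw [← apply_mol G g hG] at hj
      have h1 : |G (a (q j) - mol o (w (q j)))| ≤ ‖G‖ * ‖a (q j) - mol o (w (q j))‖ :=
        G.le_opNorm _
      have h2 : ‖G‖ * ‖a (q j) - mol o (w (q j))‖ ≤ 1 * ε :=
        mul_le_mul hG1 (hwa _).le (norm_nonneg _) zero_le_one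
      rw [map_sub] at h1
      have := (abs_le.1 (h1.trans h2)).1
      linarith
    have e2 : G (∑ x ∈ l.support, l x • dl o x) ≤ ε := by
      rw [map_sum]
      have hk : ∀ x ∈ l.support, G (l x • dl o x) ≤ |l x| * (2 * (ε / (2 * T + 1))) := by
        intro x hx
        rw [map_smul, smul_eq_mul, hG]
        have h1 := hgS x (Finset.mem_insert_of_mem hx)
        have h2 := hgS o (Finset.mem_insert_self _ _)
        have h3 : |g x - g o| ≤ 2 * (ε / (2 * T + 1)) := by
          have := abs_sub (g x) (g o)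
          linarith
        calc l x * (g x - g o) ≤ |l x * (g x - g o)| := le_abs_self _
          _ = |l x| * |g x - g o| := abs_mul _ _
          _ ≤ _ := mul_le_mul_of_nonneg_left h3 (abs_nonneg _)
      refine (Finset.sum_le_sum hk).trans ?_
      rw [← Finset.sum_mul, ← hT, ← mul_div_assoc, ← mul_div_assoc, div_le_iff₀ (by positivity)]
      nlinarith
    have e3 : G y ≤ 2 * ε := by
      have h1 : |G (y - ∑ x ∈ l.support, l x • dl o x)| ≤
          ‖G‖ * ‖y - ∑ x ∈ l.support, l x • dl o x‖ := G.le_opNorm _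
      have h2 : ‖G‖ * ‖y - ∑ x ∈ l.support, l x • dl o x‖ ≤ 1 * ε :=
        mul_le_mul hG1 hl.le (norm_nonneg _) zero_le_one
      rw [map_sub] at h1
      have := (abs_le.1 (h1.trans h2)).2
      linarith
    set Φ := WeakDual.toStrongDual φ - NormedSpace.inclusionInDoubleDual ℝ (Free o) y with hΦ
    have e4 : Φ G = φ G - G y := rfl
    have e5 : Φ G ≤ ‖Φ‖ := by
      calc Φ G ≤ ‖Φ G‖ := Real.le_norm_self _
        _ ≤ ‖Φ‖ * ‖G‖ := Φ.le_opNorm G
        _ ≤ ‖Φ‖ * 1 := mul_le_mul_of_nonneg_left hG1 (norm_nonneg _)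
        _ = ‖Φ‖ := mul_one _
    linarith
  refine ENNReal.le_of_forall_pos_le_add fun ε hε _ => ?_
  have hε' : (0 : ℝ) < ε := hε
  have h1 := main (min (c / 2) (ε / 5)) (by positivity) (by
    have := min_le_left (c / 2) (ε / 5 : ℝ); linarith)
  calc ENNReal.ofReal (c / 3) ≤ ENNReal.ofReal (c / 3 - 5 * min (c / 2) (ε / 5) + ε) := by
        apply ENNReal.ofReal_le_ofReal
        have := min_le_right (c / 2) (ε / 5 : ℝ); linarith
    _ ≤ ENNReal.ofReal (c / 3 - 5 * min (c / 2) (ε / 5)) + ENNReal.ofReal ε :=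
        ENNReal.ofReal_add_le
    _ ≤ wk A + ε := by rw [ENNReal.ofReal_coe_nnreal]; gcongr

/-- the far point produced by a lower bound on `omega` -/
theorem far_of_omega (A : Set (Free o)) (hA : Bornology.IsBounded A) {c : ℝ} (hc : 0 < c)
    (h : ENNReal.ofReal c < omega A) (S : Finset M) :
    ∃ a ∈ A, ∃ F : StrongDual ℝ (Free o), ‖F‖ ≤ 1 ∧ (∀ s ∈ S, F (dl o s) = 0) ∧ c ≤ F a := by
  obtain ⟨R, hR, hAR⟩ := hA.exists_pos_norm_le
  let W : Submodule ℝ (Free o) := Submodule.span ℝ (dl o '' S)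
  have : FiniteDimensional ℝ W := FiniteDimensional.span_of_finite ℝ (S.finite_toSet.image _)
  let K : Set (Free o) := W.subtypeL '' Metric.closedBall 0 (R + c)
  have hK : IsCompact K := (isCompact_closedBall _ _).image W.subtypeL.continuous
  have hK' : IsCompact (toWeakSpace ℝ (Free o) '' K) :=
    hK.image (toWeakSpaceCLM ℝ (Free o)).continuous
  have h1 : ENNReal.ofReal c < ⨆ a ∈ A, Metric.infEDist a K :=
    h.trans_le (iInf₂_le_of_le K hK' le_rfl)
  obtain ⟨a, h2⟩ := lt_iSup_iff.1 h1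
  obtain ⟨ha, h3⟩ := lt_iSup_iff.1 h2
  have h4 : ∀ y ∈ W, c ≤ ‖a - y‖ := by
    intro y hy
    by_cases hyn : ‖y‖ ≤ R + c
    · have hyK : y ∈ K := ⟨⟨y, hy⟩, mem_closedBall_zero_iff.2 hyn, rfl⟩
      have := h3.trans_le (Metric.infEDist_le_edist_of_mem hyK)
      rw [edist_dist, dist_eq_norm] at this
      exact ((ENNReal.ofReal_lt_ofReal_iff_of_nonneg hc.le).1 this).le
    · have h5 := norm_sub_norm_le y a
      rw [norm_sub_rev] at h5
      have := hAR a ha
      linarith [not_le.1 hyn]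
  obtain ⟨F, hF1, hF0, hFa⟩ := exists_annihilator W a h4
  exact ⟨a, ha, F, hF1, fun s hs => hF0 _ (Submodule.subset_span ⟨s, hs, rfl⟩), hFa⟩

theorem omega_le (hC : CoreSt M) (A : Set (Free o)) (hA : Bornology.IsBounded A) :
    omega A ≤ 3 * wk A := by
  refine le_of_forall_lt_imp_le_of_dense fun t ht => ?_
  have htop : t ≠ ∞ := ht.ne_top
  rcases eq_or_ne t 0 with rfl | h0
  · exact zero_le
  · have hc : 0 < t.toReal := ENNReal.toReal_pos h0 htop
    have h1 := wk_ge hC A hA hc (far_of_omega A hA hc (by rwa [ENNReal.ofReal_toReal htop]))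
    calc t = 3 * ENNReal.ofReal (t.toReal / 3) := by
          rw [← ENNReal.ofReal_ofNat 3, ← ENNReal.ofReal_mul (by norm_num),
            mul_div_cancel₀ _ (by norm_num), ENNReal.ofReal_toReal htop]
      _ ≤ 3 * wk A := by gcongr

end Pool.Agent.P.MP_6e86bf_an
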