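import Pool.Agent.P.MP_6e86bf_an.Defs
import Pool.Agent.P.MP_6e86bf_an.Charge

/-! Locally flat functions near a compact subset of a purely 1-unrectifiable space. -/

namespace Pool.Agent.P.MP_6e86bf_an

open scoped Topology MeasureTheory ENNReal
open Set Filter MeasureTheory

universe u

variable {M : Type u} [MetricSpace M]

/-- bookkeeping for a chain from `y` to `z` made of short steps and jumps -/
def St (K : Set M) (y : M) (s : ℝ) (z : M) (t J : ℝ) (Γ : Set (ℝ × M)) (W : Set ℝ) : Prop :=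
  0 ≤ J ∧ J ≤ t ∧ (∀ p ∈ Γ, 0 ≤ p.1 ∧ p.2 ∈ Nb s K ∧ dist z p.2 ≤ t - p.1) ∧
    (∀ p ∈ Γ, ∀ q ∈ Γ, dist p.2 q.2 ≤ |p.1 - q.1|) ∧ volume W ≤ ENNReal.ofReal J ∧
    ∀ a ∈ Icc 0 (dist z y), a ∈ W ∨ ∃ p ∈ Γ, |a - dist p.2 y| ≤ s

theorem St.start (K : Set M) (y : M) (s : ℝ) : St K y s y 0 0 ∅ {0} := by
  refine ⟨le_rfl, le_rfl, by simp, by simp, by simp, fun a ha => Or.inl ?_⟩
  rw [dist_self] at ha
  exact le_antisymm ha.2 ha.1

theorem St.jump {K : Set M} {y z : M} {s t J : ℝ} {Γ : Set (ℝ × M)} {W : Set ℝ}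
    (h : St K y s z t J Γ W) (z' : M) :
    St K y s z' (t + dist z z') (J + dist z z') Γ (W ∪ Icc (dist z y) (dist z y + dist z z')) := by
  obtain ⟨h1, h2, h3, h4, h5, h6⟩ := h
  have hd : 0 ≤ dist z z' := dist_nonneg
  refine ⟨by linarith, by linarith, fun p hp => ⟨(h3 p hp).1, (h3 p hp).2.1, ?_⟩, h4, ?_,
    fun a ha => ?_⟩
  · linarith [(h3 p hp).2.2, dist_triangle_left z' p.2 z]
  · refine (measure_union_le _ _).trans ?_
    rw [Real.volume_Icc, add_sub_cancel_left, ENNReal.ofReal_add h1 hd]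
    gcongr
  · rcases le_total a (dist z y) with h7 | h7
    · rcases h6 a ⟨ha.1, h7⟩ with h8 | h8
      · exact Or.inl (Or.inl h8)
      · exact Or.inr h8
    · exact Or.inl (Or.inr ⟨h7, by linarith [ha.2, dist_triangle_left z' y z]⟩)

theorem St.short {K : Set M} {y z : M} {s t J : ℝ} {Γ : Set (ℝ × M)} {W : Set ℝ}
    (h : St K y s z t J Γ W) {z' : M} (hz : z ∈ Nb s K) (hd : dist z z' ≤ s) :
    St K y s z' (t + dist z z') J (insert (t, z) Γ) W := by
  obtain ⟨h1, h2, h3, h4, h5, h6⟩ := h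
  have hd0 : 0 ≤ dist z z' := dist_nonneg
  refine ⟨h1, by linarith, ?_, ?_, h5, fun a ha => ?_⟩
  · rintro p (rfl | hp)
    · exact ⟨by linarith, hz, by simp [dist_comm]⟩
    · exact ⟨(h3 p hp).1, (h3 p hp).2.1,
        by linarith [(h3 p hp).2.2, dist_triangle_left z' p.2 z]⟩
  · rintro p (rfl | hp) q (rfl | hq)
    · simp
    · exact (h3 q hq).2.2.trans (le_abs_self _)
    · rw [dist_comm, abs_sub_comm]
      exact (h3 p hp).2.2.trans (le_abs_self _)
    · exact h4 p hp q hq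
  · rcases le_total a (dist z y) with h7 | h7
    · rcases h6 a ⟨ha.1, h7⟩ with h8 | ⟨p, hp, h8⟩
      · exact Or.inl h8
      · exact Or.inr ⟨p, Or.inr hp, h8⟩
    · refine Or.inr ⟨(t, z), Or.inl rfl, ?_⟩
      rw [abs_of_nonneg (by linarith)]
      linarith [ha.2, dist_triangle_left z' y z]

theorem no_cheap [MeasurableSpace M] [BorelSpace M] (hM : PurelyUnrectifiable M) {K : Set M}
    (hK : IsCompact K) (x y : M) {θ : ℝ} (hθ : 0 < θ) :
    ∃ s, 0 < s ∧ ∀ t J Γ W, St K y s x t J Γ W → dist x y ≤ θ * (t - J) + 2 * J := by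
  by_contra hn
  push Not at hn
  choose t J Γ W hSt hc using fun n : ℕ => hn (1 / ((n : ℝ) + 1)) (by positivity)
  set D := dist x y with hD
  have hc0 : ∀ n, 0 ≤ θ * (t n - J n) := fun n =>
    mul_nonneg hθ.le (by linarith [(hSt n).2.1])
  have hD0 : 0 < D := by linarith [hc 0, hc0 0, (hSt 0).1]
  set L := D / θ + D / 2 with hL
  have htL : ∀ n, t n ≤ L := by
    intro n
    have h1 : t n - J n ≤ D / θ := by
      rw [le_div_iff₀ hθ]
      linarith [hc n, (hSt n).1]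
    linarith [hc n, hc0 n]
  let V : Ultrafilter ℕ := hyperfilter ℕ
  have hV : (V : Filter ℕ) ≤ atTop := Nat.cofinite_eq_atTop ▸ hyperfilter_le_cofinite
  have hs : ∀ δ : ℝ, 0 < δ → ∀ᶠ n : ℕ in (V : Filter ℕ), 1 / ((n : ℝ) + 1) < δ := fun δ hδ =>
    hV (tendsto_one_div_add_atTop_nhds_zero_nat.eventually (gt_mem_nhds hδ))
  let E : Set (ℝ × M) := {p | p ∈ Icc 0 L ×ˢ K ∧ ∀ δ : ℝ, 0 < δ →
    ∀ᶠ n in (V : Filter ℕ), ∃ q ∈ Γ n, dist p q < δ}
  have hE : IsCompact E := by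
    refine (isCompact_Icc.prod hK).inter_right (t := {p | ∀ δ : ℝ, 0 < δ →
      ∀ᶠ n in (V : Filter ℕ), ∃ q ∈ Γ n, dist p q < δ}) ?_
    refine isClosed_of_closure_subset fun p hp δ hδ => ?_
    obtain ⟨p', hp', hd⟩ := Metric.mem_closure_iff.1 hp (δ / 2) (by linarith)
    refine (hp' (δ / 2) (by linarith)).mono ?_
    rintro n ⟨q, hq, hq'⟩
    exact ⟨q, hq, by linarith [dist_triangle p p' q]⟩
  have hEl : ∀ p ∈ E, ∀ q ∈ E, dist p.2 q.2 ≤ dist p.1 q.1 := by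
    intro p hp q hq
    refine le_of_forall_pos_le_add fun δ hδ => ?_
    obtain ⟨n, ⟨p', hp', h1⟩, q', hq', h2⟩ :=
      ((hp.2 (δ / 4) (by linarith)).and (hq.2 (δ / 4) (by linarith))).exists
    have h3 := (hSt n).2.2.2.1 p' hp' q' hq'
    rw [← Real.dist_eq] at h3
    rw [Prod.dist_eq, max_lt_iff] at h1 h2
    have h4 := dist_triangle4 p.2 p'.2 q'.2 q.2
    have h5 := dist_triangle4 p'.1 p.1 q.1 q'.1
    rw [dist_comm q'.2] at h4
    rw [dist_comm p'.1 p.1] at h5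
    linarith [h1.1, h1.2, h2.1, h2.2]
  classical
  let γ : ℝ → M := fun a => if h : ∃ z, (a, z) ∈ E then h.choose else y
  have hγ : ∀ p ∈ E, γ p.1 = p.2 := by
    intro p hp
    have h : ∃ z, (p.1, z) ∈ E := ⟨p.2, hp⟩
    have h1 := hEl _ h.choose_spec p hp
    simp only [γ, dif_pos h]
    simpa using h1
  have hγl : LipschitzOnWith 1 γ (Prod.fst '' E) := by
    refine LipschitzOnWith.of_dist_le_mul ?_
    rintro _ ⟨p, hp, rfl⟩ _ ⟨q, hq, rfl⟩
    rw [hγ p hp, hγ q hq, NNReal.coe_one, one_mul]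
    exact hEl p hp q hq
  have h0 := hM _ γ 1 (hE.image continuous_fst) hγl
  have h1 := (LipschitzWith.dist_left y).hausdorffMeasure_image_le zero_le_one
    (γ '' (Prod.fst '' E))
  rw [h0, mul_zero, hausdorffMeasure_real] at h1
  obtain ⟨O, hO1, hO2, hO3⟩ := Set.exists_isOpen_lt_of_lt (μ := volume)
    ((fun z => dist z y) '' (γ '' (Prod.fst '' E))) (ENNReal.ofReal (D / 4))
    (h1.trans_lt (ENNReal.ofReal_pos.2 (by linarith)))
  have h2 : ∀ᶠ n in (V : Filter ℕ), ∀ p ∈ Γ n, ∀ a : ℝ, |a - dist p.2 y| ≤ 1 / ((n : ℝ) + 1) →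
      a ∈ O := by
    by_contra h3
    have h4 := Ultrafilter.eventually_not.2 h3
    have h5 : ∀ n : ℕ, ∃ (p : ℝ × M) (k : M) (a : ℝ),
        (¬ ∀ p ∈ Γ n, ∀ a : ℝ, |a - dist p.2 y| ≤ 1 / ((n : ℝ) + 1) → a ∈ O) →
        p ∈ Γ n ∧ k ∈ K ∧ dist p.2 k ≤ 1 / ((n : ℝ) + 1) ∧
          |a - dist p.2 y| ≤ 1 / ((n : ℝ) + 1) ∧ a ∉ O := by
      intro n
      by_cases h : ∀ p ∈ Γ n, ∀ a : ℝ, |a - dist p.2 y| ≤ 1 / ((n : ℝ) + 1) → a ∈ O
      · exact ⟨(0, y), y, 0, fun h' => absurd h h'⟩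
      · push Not at h
        obtain ⟨p, hp, a, ha, ha'⟩ := h
        obtain ⟨k, hk, hk'⟩ := ((hSt n).2.2.1 p hp).2.1
        exact ⟨p, k, a, fun _ => ⟨hp, hk, hk', ha, ha'⟩⟩
    choose p k a hp using h5
    have h6 := h4.mono hp
    obtain ⟨z, hz, hz'⟩ := ((isCompact_Icc (a := (0 : ℝ)) (b := L)).prod hK).ultrafilter_le_nhds
      (V.map fun n => ((p n).1, k n)) (by
        rw [Ultrafilter.coe_map, le_principal_iff, mem_map]
        refine h6.mono fun n hn => ⟨⟨((hSt n).2.2.1 _ hn.1).1, ?_⟩, hn.2.1⟩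
        have := ((hSt n).2.2.1 _ hn.1).2.2
        linarith [htL n, dist_nonneg (x := x) (y := (p n).2)])
    have h7 : Tendsto (fun n => ((p n).1, k n)) V (𝓝 z) := hz'
    have h8 : ∀ δ : ℝ, 0 < δ → ∀ᶠ n in (V : Filter ℕ), dist z (p n) < δ := by
      intro δ hδ
      filter_upwards [h6, hs (δ / 2) (by linarith), Metric.tendsto_nhds.1 h7 (δ / 2) (by linarith)]
        with n hn h9 h10
      rw [Prod.dist_eq, max_lt_iff] at h10 ⊢
      have h11 := dist_triangle_left z.2 (p n).2 (k n)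
      have h12 := hn.2.2.1
      rw [dist_comm] at h12
      rw [dist_comm z.1]
      exact ⟨by linarith [h10.1], by linarith [h10.2]⟩
    have hzE : z ∈ E := ⟨hz, fun δ hδ => (h6.and (h8 δ hδ)).mono fun n hn => ⟨_, hn.1.1, hn.2⟩⟩
    have h9 : dist z.2 y ∈ O := hO1 ⟨_, ⟨_, ⟨z, hzE, rfl⟩, hγ z hzE⟩, rfl⟩
    obtain ⟨δ, hδ, hball⟩ := Metric.isOpen_iff.1 hO2 _ h9
    obtain ⟨n, hn, h10, h11⟩ :=
      (h6.and ((hs (δ / 2) (by linarith)).and (h8 (δ / 2) (by linarith)))).exists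
    refine hn.2.2.2.2 (hball ?_)
    rw [Metric.mem_ball, Real.dist_eq]
    rw [Prod.dist_eq, max_lt_iff] at h11
    have h12 := abs_dist_sub_le (p n).2 z.2 y
    rw [dist_comm (p n).2 z.2] at h12
    have h13 := abs_sub_le (a n) (dist (p n).2 y) (dist z.2 y)
    linarith [hn.2.2.2.1, h11.2]
  obtain ⟨n, hn⟩ := h2.exists
  have h3 : Icc 0 D ⊆ W n ∪ O := fun a ha =>
    ((hSt n).2.2.2.2.2 a ha).imp id fun ⟨p, hp, h⟩ => hn p hp a h
  have h4 := (measure_mono (μ := volume) h3).trans (measure_union_le _ _)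
  rw [Real.volume_Icc, sub_zero] at h4
  have h5 : ENNReal.ofReal D ≤ ENNReal.ofReal (J n + D / 4) := by
    rw [ENNReal.ofReal_add (hSt n).1 (by linarith)]
    exact h4.trans (add_le_add (hSt n).2.2.2.2.1 hO3.le)
  rw [ENNReal.ofReal_le_ofReal_iff (by linarith [(hSt n).1])] at h5
  linarith [hc n, hc0 n]

/-- `h` is 2-Lipschitz and `θ`-flat at scale `s` near `K` -/
def Fl (K : Set M) (s θ : ℝ) (h : M → ℝ) : Prop :=
  (∀ a b, h b ≤ h a + 2 * dist a b) ∧
    ∀ a b, a ∈ Nb s K → b ∈ Nb s K → dist a b ≤ s → h b ≤ h a + θ * dist a b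

theorem flat [MeasurableSpace M] [BorelSpace M] (hM : PurelyUnrectifiable M) {K : Set M}
    (hK : IsCompact K) (x y : M) {θ : ℝ} (hθ : 0 < θ) :
    ∃ s, 0 < s ∧ ∃ h : M → ℝ, Fl K s θ h ∧ dist x y ≤ h x - h y := by
  obtain ⟨s, hs, hc⟩ := no_cheap hM hK x y hθ
  let C : M → Set ℝ := fun z => {c | ∃ t J Γ W, St K y s z t J Γ W ∧ c = θ * (t - J) + 2 * J}
  have hne : ∀ z, (C z).Nonempty := fun z => ⟨_, _, _, _, _, (St.start K y s).jump z, rfl⟩
  have hb : ∀ z, BddBelow (C z) := fun z => ⟨0, by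
    rintro _ ⟨t, J, Γ, W, h, rfl⟩
    have := mul_nonneg hθ.le (sub_nonneg.2 h.2.1)
    linarith [h.1]⟩
  refine ⟨s, hs, fun z => sInf (C z), ⟨fun a b => ?_, fun a b ha _ hab => ?_⟩, ?_⟩
  · rw [← sub_le_iff_le_add]
    refine le_csInf (hne a) ?_
    rintro _ ⟨t, J, Γ, W, h, rfl⟩
    have := csInf_le (hb b) ⟨_, _, _, _, h.jump b, rfl⟩
    linarith
  · rw [← sub_le_iff_le_add]
    refine le_csInf (hne a) ?_
    rintro _ ⟨t, J, Γ, W, h, rfl⟩
    have := csInf_le (hb b) ⟨_, _, _, _, h.short ha hab, rfl⟩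
    linarith
  · have h1 : dist x y ≤ sInf (C x) := le_csInf (hne x) (by
      rintro _ ⟨t, J, Γ, W, h, rfl⟩
      exact hc _ _ _ _ h)
    have h2 := csInf_le (hb y) ⟨_, _, _, _, St.start K y s, rfl⟩
    simp only
    linarith

namespace Fl

variable {K : Set M} {s s' θ : ℝ} {h g : M → ℝ}

theorem mono (hh : Fl K s θ h) (hs : s' ≤ s) : Fl K s' θ h :=
  ⟨hh.1, fun a b ha hb hab =>
    hh.2 a b (Nb.mono hs Subset.rfl ha) (Nb.mono hs Subset.rfl hb) (hab.trans hs)⟩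

theorem const (hθ : 0 ≤ θ) (c : ℝ) : Fl K s θ fun _ => c :=
  ⟨fun _ _ => le_add_of_nonneg_right (by positivity),
    fun _ _ _ _ _ => le_add_of_nonneg_right (by positivity)⟩

theorem max (hh : Fl K s θ h) (hg : Fl K s θ g) : Fl K s θ fun x => max (h x) (g x) :=
  ⟨fun a b => max_le (by linarith [hh.1 a b, le_max_left (h a) (g a)])
      (by linarith [hg.1 a b, le_max_right (h a) (g a)]),
    fun a b ha hb hab => max_le (by linarith [hh.2 a b ha hb hab, le_max_left (h a) (g a)])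
      (by linarith [hg.2 a b ha hb hab, le_max_right (h a) (g a)])⟩

theorem min (hh : Fl K s θ h) (hg : Fl K s θ g) : Fl K s θ fun x => min (h x) (g x) := by
  refine ⟨fun a b => ?_, fun a b ha hb hab => ?_⟩
  · simp only
    rcases min_choice (h a) (g a) with h1 | h1 <;> rw [h1]
    · linarith [hh.1 a b, min_le_left (h b) (g b)]
    · linarith [hg.1 a b, min_le_right (h b) (g b)]
  · simp only
    rcases min_choice (h a) (g a) with h1 | h1 <;> rw [h1]
    · linarith [hh.2 a b ha hb hab, min_le_left (h b) (g b)]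
    · linarith [hg.2 a b ha hb hab, min_le_right (h b) (g b)]

theorem abs1 (hh : Fl K s θ h) (a b : M) : |h a - h b| ≤ 2 * dist a b := by
  have h1 := hh.1 b a
  rw [dist_comm] at h1
  exact abs_le.2 ⟨by linarith [hh.1 a b], by linarith⟩

theorem abs2 (hh : Fl K s θ h) {a b : M} (ha : a ∈ Nb s K) (hb : b ∈ Nb s K) (hab : dist a b ≤ s) :
    |h a - h b| ≤ θ * dist a b := by
  have h1 := hh.2 b a hb ha (by rwa [dist_comm])
  rw [dist_comm] at h1
  exact abs_le.2 ⟨by linarith [hh.2 a b ha hb hab], by linarith⟩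

theorem affine (hh : Fl K s θ h) (c : ℝ) {t : ℝ} (ht : |t| ≤ 1) :
    Fl K s θ fun x => c + t * h x := by
  have key : ∀ u v B : ℝ, |u - v| ≤ B → c + t * v ≤ c + t * u + B := by
    intro u v B huv
    have h1 : |t * (u - v)| ≤ 1 * B := by
      rw [abs_mul]
      exact mul_le_mul ht huv (abs_nonneg _) zero_le_one
    linarith [(abs_le.1 h1).1]
  exact ⟨fun a b => key _ _ _ (hh.abs1 a b), fun a b ha hb hab => key _ _ _ (hh.abs2 ha hb hab)⟩

end Fl

theorem interp [MeasurableSpace M] [BorelSpace M] (hM : PurelyUnrectifiable M) {K : Set M}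
    (hK : IsCompact K) {θ β : ℝ} (hθ : 0 < θ) (hβ : 0 ≤ β) (φ : M → ℝ)
    (hφ : ∀ x y, |φ x - φ y| ≤ dist x y) (P : Finset M) (hP : ∀ p ∈ P, |φ p| ≤ β) :
    ∃ s, 0 < s ∧ ∃ h : M → ℝ, Fl K s θ h ∧ (∀ x, |h x| ≤ β) ∧ ∀ p ∈ P, h p = φ p := by
  classical
  have two : ∀ p q, ∃ s, 0 < s ∧ ∃ h : M → ℝ, Fl K s θ h ∧ h p = φ p ∧ h q = φ q := by
    intro p q
    rcases eq_or_ne p q with rfl | hpq
    · exact ⟨1, one_pos, _, Fl.const hθ.le (φ p), rfl, rfl⟩
    · obtain ⟨s, hs, h, hh, hd⟩ := flat hM hK p q hθ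
      have hd0 : 0 < h p - h q := (dist_pos.2 hpq).trans_le hd
      have ht : |(φ p - φ q) / (h p - h q)| ≤ 1 := by
        rw [abs_div, abs_of_pos hd0, div_le_one hd0]
        exact (hφ p q).trans hd
      refine ⟨s, hs, _, hh.affine (φ q - (φ p - φ q) / (h p - h q) * h q) ht, ?_, ?_⟩
      · field_simp
        ring
      · ring
  have stepA : ∀ p (Q : Finset M), ∃ s, 0 < s ∧ ∃ h : M → ℝ, Fl K s θ h ∧ h p = φ p ∧
      (∀ x, h x ≤ φ p) ∧ ∀ q ∈ Q, h q ≤ φ q := by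
    intro p Q
    induction Q using Finset.induction_on with
    | empty => exact ⟨1, one_pos, _, Fl.const hθ.le (φ p), rfl, fun _ => le_rfl, by simp⟩
    | insert q Q _ ih =>
      obtain ⟨s, hs, h, h1, h2, h3, h4⟩ := ih
      obtain ⟨s', hs', g, g1, g2, g3⟩ := two p q
      refine ⟨_, lt_min hs hs', _, (h1.mono (min_le_left s s')).min (g1.mono (min_le_right s s')),
        by simp [h2, g2], fun x => (min_le_left _ _).trans (h3 x), fun q' hq' => ?_⟩
      rcases Finset.mem_insert.1 hq' with rfl | hq'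
      · exact (min_le_right _ _).trans g3.le
      · exact (min_le_left _ _).trans (h4 q' hq')
  have stepB : ∀ Q : Finset M, Q ⊆ P → ∃ s, 0 < s ∧ ∃ h : M → ℝ, Fl K s θ h ∧
      (∀ x, -β ≤ h x ∧ h x ≤ β) ∧ (∀ q ∈ P, h q ≤ φ q) ∧ ∀ q ∈ Q, φ q ≤ h q := by
    intro Q
    induction Q using Finset.induction_on with
    | empty =>
      exact fun _ => ⟨1, one_pos, _, Fl.const hθ.le (-β), fun _ => ⟨le_rfl, by linarith⟩,
        fun q hq => (abs_le.1 (hP q hq)).1, by simp⟩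
    | insert p Q _ ih =>
      intro hQ
      obtain ⟨s, hs, h, h1, h2, h3, h4⟩ := ih ((Finset.subset_insert _ _).trans hQ)
      obtain ⟨s', hs', g, g1, g2, g3, g4⟩ := stepA p P
      refine ⟨_, lt_min hs hs', _, (h1.mono (min_le_left s s')).max (g1.mono (min_le_right s s')),
        fun x => ⟨(h2 x).1.trans (le_max_left _ _), max_le (h2 x).2 ((g3 x).trans
          (abs_le.1 (hP p (hQ (Finset.mem_insert_self _ _)))).2)⟩,
        fun q hq => max_le (h3 q hq) (g4 q hq), fun q hq => ?_⟩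
      rcases Finset.mem_insert.1 hq with rfl | hq
      · exact g2.ge.trans (le_max_right _ _)
      · exact (h4 q hq).trans (le_max_left _ _)
  obtain ⟨s, hs, h, h1, h2, h3, h4⟩ := stepB P Finset.Subset.rfl
  exact ⟨s, hs, h, h1, fun x => abs_le.2 (h2 x), fun p hp => le_antisymm (h3 p hp) (h4 p hp)⟩

end Pool.Agent.P.MP_6e86bf_an
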