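import Pool.Agent.P.MP_6e86bf_an.FA
import Pool.Agent.P.MP_6e86bf_an.Flat

/-! Gluing the functions of the successive stages into one Lipschitz function. -/

namespace Pool.Agent.P.MP_6e86bf_an

open scoped Topology
open Set Filter

universe u

variable {M : Type u} [MetricSpace M]

theorem extend (V : M → ℝ → Prop) {L κ : ℝ} (hL : 1 ≤ L) (hκ : 0 ≤ κ) (S : Finset M)
    (hV : ∀ x t y t', V x t → V y t' → |t - t'| ≤ L * dist x y)
    (hS : ∀ x t, V x t → ∀ s ∈ S, |t| ≤ L * dist x s + κ) :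
    ∃ g, Lip1 g ∧ (∀ s ∈ S, |g s| ≤ κ) ∧ ∀ x t, V x t → L * g x = t := by
  classical
  have hL0 : 0 < L := by linarith
  let v : M → ℝ := fun x => if h : ∃ t, V x t then h.choose / L else 0
  have hv : ∀ x t, V x t → v x = t / L := by
    intro x t h
    have h1 : ∃ t, V x t := ⟨t, h⟩
    have h2 := hV x _ x t h1.choose_spec h
    rw [dist_self, mul_zero, abs_nonpos_iff, sub_eq_zero] at h2
    simp only [v, dif_pos h1, h2]
  have hl : LipschitzOnWith 1 v {x | ∃ t, V x t} := by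
    refine LipschitzOnWith.of_dist_le_mul ?_
    rintro x ⟨t, ht⟩ y ⟨t', ht'⟩
    rw [hv x t ht, hv y t' ht', NNReal.coe_one, one_mul, Real.dist_eq, ← sub_div, abs_div,
      abs_of_pos hL0, div_le_iff₀ hL0, mul_comm]
    exact hV x t y t' ht ht'
  obtain ⟨g, hg, hgv⟩ := hl.extend_real
  have hg1 : Lip1 g := fun x y => by simpa [Real.dist_eq] using hg.dist_le_mul x y
  have hg2 : ∀ x t, V x t → g x = t / L := fun x t h => by rw [← hgv ⟨t, h⟩, hv x t h]
  rcases S.eq_empty_or_nonempty with rfl | hne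
  · exact ⟨g, hg1, by simp, fun x t h => by rw [hg2 x t h, mul_div_cancel₀ _ hL0.ne']⟩
  · let ρ : M → ℝ := fun x => Metric.infDist x S + κ
    have hρ : ∀ x y, |ρ x - ρ y| ≤ dist x y := fun x y => by
      simpa [ρ, Real.dist_eq] using (Metric.lipschitz_infDist_pt (S : Set M)).dist_le_mul x y
    refine ⟨fun x => max (-ρ x) (min (g x) (ρ x)), fun x y => ?_, fun s hs => ?_, fun x t h => ?_⟩
    · refine (abs_max_sub_max_le_max _ _ _ _).trans (max_le ?_
        ((abs_min_sub_min_le_max _ _ _ _).trans (max_le (hg1 x y) (hρ x y))))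
      rw [neg_sub_neg, abs_sub_comm]
      exact hρ x y
    · have h1 : ρ s = κ := by simp [ρ, Metric.infDist_zero_of_mem (Finset.mem_coe.2 hs)]
      simp only [h1]
      exact abs_le.2 ⟨le_max_left _ _, max_le (by linarith) (min_le_right _ _)⟩
    · have h1 : |g x| ≤ ρ x := by
        have h2 : |g x| - κ ≤ Metric.infDist x S := by
          refine (Metric.le_infDist (Finset.coe_nonempty.2 hne)).2 fun s hs => ?_
          rw [hg2 x t h, abs_div, abs_of_pos hL0, sub_le_iff_le_add, div_le_iff₀ hL0]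
          have := hS x t h s hs
          nlinarith
        simp only [ρ]
        linarith
      simp only
      rw [min_eq_left (abs_le.1 h1).2, max_eq_right (abs_le.1 h1).1, hg2 x t h,
        mul_div_cancel₀ _ hL0.ne']

theorem sum_half {θ : ℕ → ℝ} (h0 : ∀ j, 0 < θ j) (h : ∀ j, θ (j + 1) ≤ θ j / 2) (a b : ℕ) :
    ∑ i ∈ Finset.Ico a b, θ i ≤ 2 * θ a := by
  rcases le_total a b with hab | hab
  · have key : ∀ b, a ≤ b → ∑ i ∈ Finset.Ico a b, θ i ≤ 2 * θ a - 2 * θ b := by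
      intro b hb
      induction b, hb using Nat.le_induction with
      | base => simp
      | succ b hb ih =>
        rw [Finset.sum_Ico_succ_top hb]
        linarith [h b]
    linarith [key b hab, h0 b]
  · rw [Finset.Ico_eq_empty (not_lt.2 hab), Finset.sum_empty]
    linarith [h0 a]

theorem glue (A T : ℕ → Finset M) (U : ℕ → Set M) (f h : ℕ → M → ℝ) (τ θ s : ℕ → ℝ) (K : Set M)
    {τ₀ e η : ℝ} (he : 0 < e) (hτ₀ : 0 < τ₀) (hη : η ≤ 1 / 8) (hf : ∀ j, Lip1 (f j))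
    (hfT : ∀ j, ∀ t ∈ T j, f j t = 0) (hnet : ∀ j, ∀ k ∈ K, ∃ t ∈ T j, dist k t ≤ τ j)
    (hτ : ∀ j, τ j ≤ θ j * τ₀) (hθ : ∀ j, 0 < θ j) (hθη : ∀ j, θ j ≤ η)
    (hθ2 : ∀ j, θ (j + 1) ≤ θ j / 2) (hs : ∀ j, 0 < s j)
    (hFl : ∀ j, Fl (K ∪ T j ∪ A j) (s j) (θ j) (h j)) (hh : ∀ j x, |h j x| ≤ 2 * τ j)
    (hhT : ∀ j, ∀ t ∈ T j, h j t = 0) (hhA : ∀ j, ∀ x ∈ A j, x ∈ Nb (τ j) K → h j x = f j x)
    (hAT : ∀ i j, i < j → A i ⊆ T j)
    (hBU : ∀ i j, i < j → BB τ₀ e (A i) (fun b => |f i b|) ⊆ U j)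
    (hτs : ∀ i j, i < j → τ j ≤ θ j * s i) (S : Finset M) {κ : ℝ} (hκ : 0 < κ) :
    ∃ g, Lip1 g ∧ (∀ s ∈ S, |g s| ≤ κ) ∧ ∀ᶠ j in atTop, ∀ x ∈ A j, ∀ y ∈ A j, x ∉ U j → y ∉ U j →
      x ∉ Nb τ₀ (T j) \ Nb (τ j) K → y ∉ Nb τ₀ (T j) \ Nb (τ j) K →
      ¬ (τ j < dist x y ∧ dist x y ≤ τ₀) →
      f j x - f j y - 8 * η * dist x y ≤ (3 + e) * (g x - g y) := by
  have hη0 : 0 < η := (hθ 0).trans_le (hθη 0)
  have hfd : ∀ j x, ∀ t ∈ T j, |f j x| ≤ dist x t := fun j x t ht => by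
    simpa [hfT j t ht] using hf j x t
  have hfar : ∀ j x, x ∉ Nb τ₀ (T j) → ∀ t ∈ T j, τ₀ < dist x t := fun j x hx t ht =>
    not_le.1 fun h => hx ⟨t, ht, h⟩
  have hτs' : ∀ i j, i < j → τ j ≤ s i := fun i j hij => by
    nlinarith [hτs i j hij, hθη j, hs i]
  -- choice of the first stage
  have c1 : ∀ᶠ j in atTop, 4 * θ j * τ₀ ≤ κ := by
    have h1 : ∀ j, θ j ≤ θ 0 * (1 / 2) ^ j := by
      intro j
      induction j with
      | zero => simp
      | succ j ih => rw [pow_succ]; linarith [hθ2 j]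
    have h2 : Tendsto (fun j : ℕ => 4 * (θ 0 * (1 / 2) ^ j) * τ₀) atTop (𝓝 (4 * (θ 0 * 0) * τ₀)) :=
      (((tendsto_pow_atTop_nhds_zero_of_lt_one (by norm_num) (by norm_num)).const_mul _).const_mul
        _).mul_const _
    refine (h2.eventually (gt_mem_nhds (by simpa using hκ))).mono fun j hj => le_trans ?_ hj.le
    gcongr
    exact h1 j
  have c2 : ∀ s₀, ∀ᶠ j in atTop, ∀ x ∈ A j, x ∉ Nb τ₀ (T j) → |f j x| ≤ (2 + e) * dist x s₀ := by
    intro s₀
    by_contra hn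
    have h1 : ∀ i, ∃ j, i < j ∧ ∃ x ∈ A j, x ∉ Nb τ₀ (T j) ∧ (2 + e) * dist x s₀ < |f j x| := by
      intro i
      by_contra h2
      push Not at h2
      exact hn ((eventually_gt_atTop i).mono h2)
    have h2 : ∀ i x, x ∈ A i → (2 + e) * dist x s₀ < |f i x| → ∃ j, ∃ y ∈ A j,
        (2 + e) * dist y s₀ < |f j y| ∧ |f j y| * (1 + e) < |f i x| ∧ τ₀ ≤ |f i x| := by
      intro i x hx hx'
      obtain ⟨j, hij, y, hy, hy1, hy2⟩ := h1 i
      have h3 := hfd j y x (hAT i j hij hx)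
      have h4 := hfar j y hy1 x (hAT i j hij hx)
      have h5 := dist_triangle_right y x s₀
      have h6 : |f j y| * (1 + e) < |f i x| := by nlinarith
      refine ⟨j, y, hy, hy2, h6, ?_⟩
      nlinarith [abs_nonneg (f j y)]
    refine no_descent (Z := {r | ∃ i, ∃ x ∈ A i, (2 + e) * dist x s₀ < |f i x| ∧ r = |f i x|})
      hτ₀ he ?_ ?_ ?_
    · obtain ⟨j, -, x, hx, -, hx2⟩ := h1 0
      exact ⟨_, j, x, hx, hx2, rfl⟩
    · rintro _ ⟨i, x, hx, hx', rfl⟩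
      obtain ⟨j, y, -, -, -, h3⟩ := h2 i x hx hx'
      exact h3
    · rintro _ ⟨i, x, hx, hx', rfl⟩
      obtain ⟨j, y, hy, h3, h4, -⟩ := h2 i x hx hx'
      exact ⟨_, ⟨j, y, hy, h3, rfl⟩, h4⟩
  obtain ⟨j₀, hj₀⟩ := eventually_atTop.1 (c1.and ((eventually_all_finset S).2 fun s₀ _ => c2 s₀))
  have hsum : ∀ n, ∑ i ∈ Finset.Ico j₀ n, θ i ≤ 2 * η := fun n =>
    (sum_half hθ hθ2 j₀ n).trans (by linarith [hθη j₀])
  have hH : ∀ n x, |∑ i ∈ Finset.Ico j₀ n, h i x| ≤ 4 * θ j₀ * τ₀ := by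
    intro n x
    calc _ ≤ ∑ i ∈ Finset.Ico j₀ n, |h i x| := Finset.abs_sum_le_sum_abs _ _
      _ ≤ ∑ i ∈ Finset.Ico j₀ n, θ i * (2 * τ₀) :=
          Finset.sum_le_sum fun i _ => by linarith [hh i x, hτ i]
      _ ≤ 2 * θ j₀ * (2 * τ₀) := by
          rw [← Finset.sum_mul]
          exact mul_le_mul_of_nonneg_right (sum_half hθ hθ2 j₀ n) (by linarith)
      _ = _ := by ring
  have hH' : ∀ n x, |∑ i ∈ Finset.Ico j₀ n, h i x| ≤ 4 * η * τ₀ := fun n x =>
    (hH n x).trans (by gcongr; exact hθη j₀)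
  have hnear : ∀ j, ∀ x ∈ A j, x ∈ Nb (τ j) K → ∀ i, x ∈ Nb (s i) (K ∪ T i ∪ A i) := by
    intro j x hx hx' i
    rcases lt_trichotomy i j with hij | rfl | hij
    · exact Nb.mono (hτs' i j hij) (subset_union_left.trans subset_union_left) hx'
    · exact ⟨x, Or.inr hx, by simpa using (hs i).le⟩
    · exact ⟨x, Or.inl (Or.inr (hAT j i hij hx)), by simpa using (hs i).le⟩
  have nn : ∀ j k x y, j ≤ k → x ∈ A j → x ∈ Nb (τ j) K → y ∈ A k → y ∈ Nb (τ k) K →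
      |∑ i ∈ Finset.Ico j₀ (j + 1), h i x - ∑ i ∈ Finset.Ico j₀ (k + 1), h i y| ≤
        3 * dist x y := by
    intro j k x y hjk hx hx' hy hy'
    have hd : 0 ≤ dist x y := dist_nonneg
    have h1 : ∑ i ∈ Finset.Ico j₀ (j + 1), h i x = ∑ i ∈ Finset.Ico j₀ (k + 1), h i x := by
      refine Finset.sum_subset (Finset.Ico_subset_Ico_right (by omega)) fun i hi hi' => ?_
      rw [Finset.mem_Ico] at hi hi'
      exact hhT i x (hAT j i (by omega) hx)
    have h2 : ∃ m, ∀ i, i ≠ m → |h i x - h i y| ≤ 4 * θ i * dist x y := by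
      have h3 : ∀ i, dist x y ≤ s i → |h i x - h i y| ≤ 4 * θ i * dist x y := fun i hi =>
        ((hFl i).abs2 (hnear j x hx hx' i) (hnear k y hy hy' i) hi).trans
          (by nlinarith [mul_nonneg (hθ i).le hd])
      by_cases hex : ∃ i, s i < dist x y
      · classical
        refine ⟨Nat.find hex, fun i hi => ?_⟩
        rcases lt_or_gt_of_ne hi with h4 | h4
        · exact h3 i (not_lt.1 (Nat.find_min hex h4))
        · have h5 := hτs _ i h4
          have h6 := mul_le_mul_of_nonneg_left (Nat.find_spec hex).le (hθ i).le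
          have h7 := abs_sub (h i x) (h i y)
          linarith [hh i x, hh i y]
      · push Not at hex
        exact ⟨0, fun i _ => h3 i (hex i)⟩
    obtain ⟨m, hm⟩ := h2
    rw [h1, ← Finset.sum_sub_distrib]
    calc _ ≤ ∑ i ∈ Finset.Ico j₀ (k + 1), |h i x - h i y| := Finset.abs_sum_le_sum_abs _ _
      _ ≤ ∑ i ∈ Finset.Ico j₀ (k + 1),
            (θ i * (4 * dist x y) + if i = m then 2 * dist x y else 0) := by
          refine Finset.sum_le_sum fun i _ => ?_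
          split_ifs with h3
          · nlinarith [(hFl i).abs1 x y, mul_nonneg (hθ i).le hd]
          · linarith [hm i h3]
      _ ≤ 2 * η * (4 * dist x y) + 2 * dist x y := by
          rw [Finset.sum_add_distrib, ← Finset.sum_mul, Finset.sum_ite_eq']
          refine add_le_add (mul_le_mul_of_nonneg_right (hsum _) (by linarith)) ?_
          split_ifs <;> linarith
      _ ≤ 3 * dist x y := by nlinarith
  have fn : ∀ i k x y, x ∉ Nb τ₀ (T i) → y ∈ Nb (τ k) K →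
      3 / 4 * τ₀ ≤ dist x y ∧ |f i x| ≤ dist x y + τ₀ / 4 := by
    rintro i k x y hx ⟨z, hz, hz'⟩
    obtain ⟨t, ht, ht'⟩ := hnet i z hz
    have h1 := hfar i x hx t ht
    have h2 := hfd i x t ht
    have h3 := dist_triangle4 x y z t
    have h4 : τ i ≤ τ₀ / 8 := by nlinarith [hτ i, hθη i]
    have h5 : τ k ≤ τ₀ / 8 := by nlinarith [hτ k, hθη k]
    exact ⟨by linarith, by linarith⟩
  have ff : ∀ i j x y, i < j → x ∈ A i → y ∉ Nb τ₀ (T j) → y ∉ U j →
      |f i x - f j y| ≤ (3 + e) * dist x y := by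
    intro i j x y hij hx hy hy'
    have h1 := hfd j y x (hAT i j hij hx)
    have h2 := hfar j y hy x (hAT i j hij hx)
    have h3 : |f i x| ≤ (2 + e) * dist y x := by
      by_contra h4
      refine hy' (hBU i j hij ⟨x, hx, ?_, not_le.1 h4⟩)
      nlinarith [not_le.1 h4]
    rw [dist_comm]
    linarith [abs_sub (f i x) (f j y)]
  obtain ⟨g, hg1, hg2, hg3⟩ := extend (fun x t => ∃ j, j₀ ≤ j ∧ x ∈ A j ∧
    ((x ∈ Nb (τ j) K ∧ t = ∑ i ∈ Finset.Ico j₀ (j + 1), h i x) ∨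
      (x ∉ Nb τ₀ (T j) ∧ x ∉ U j ∧ t = f j x))) (L := 3 + e) (by linarith) hκ.le S (by
    rintro x t y t' ⟨j, -, hx, hx'⟩ ⟨k, -, hy, hy'⟩
    have hd : 0 ≤ e * dist x y := mul_nonneg he.le dist_nonneg
    have hd' : 0 ≤ dist x y := dist_nonneg
    rcases hx' with ⟨hx1, rfl⟩ | ⟨hx1, hx2, rfl⟩ <;> rcases hy' with ⟨hy1, rfl⟩ | ⟨hy1, hy2, rfl⟩
    · rcases le_total j k with hjk | hjk
      · linarith [nn j k x y hjk hx hx1 hy hy1]
      · have := nn k j y x hjk hy hy1 hx hx1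
        rw [abs_sub_comm, dist_comm] at this
        linarith
    · obtain ⟨h1, h2⟩ := fn k j y x hy1 hx1
      rw [dist_comm] at h1 h2
      have h3 := abs_sub (∑ i ∈ Finset.Ico j₀ (j + 1), h i x) (f k y)
      nlinarith [hH' (j + 1) x]
    · obtain ⟨h1, h2⟩ := fn j k x y hx1 hy1
      have h3 := abs_sub (f j x) (∑ i ∈ Finset.Ico j₀ (k + 1), h i y)
      nlinarith [hH' (k + 1) y]
    · rcases lt_trichotomy j k with hjk | rfl | hjk
      · exact ff j k x y hjk hx hy1 hy2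
      · linarith [hf j x y]
      · have := ff k j y x hjk hy hx1 hx2
        rwa [abs_sub_comm, dist_comm] at this) (by
    rintro x t ⟨j, hj, hx, ⟨-, rfl⟩ | ⟨hx1, -, rfl⟩⟩ s₀ hs₀
    · have : 0 ≤ (3 + e) * dist x s₀ := by positivity
      linarith [hH (j + 1) x, (hj₀ j₀ le_rfl).1]
    · have : 0 ≤ dist x s₀ := dist_nonneg
      linarith [(hj₀ j hj).2 s₀ hs₀ x hx hx1])
  refine ⟨g, hg1, hg2, (eventually_ge_atTop j₀).mono fun j hj x hx y hy hxU hyU hxQ hyQ hxy => ?_⟩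
  have gn : ∀ x ∈ A j, x ∈ Nb (τ j) K →
      (3 + e) * g x = ∑ i ∈ Finset.Ico j₀ j, h i x + f j x := fun x hx hx' => by
    rw [hg3 x _ ⟨j, hj, hx, Or.inl ⟨hx', rfl⟩⟩, Finset.sum_Ico_succ_top hj, hhA j x hx hx']
  have gf : ∀ x ∈ A j, x ∉ U j → x ∉ Nb τ₀ (T j) → (3 + e) * g x = f j x := fun x hx h1 h2 =>
    hg3 x _ ⟨j, hj, hx, Or.inr ⟨h2, h1, rfl⟩⟩
  have hd : 0 ≤ dist x y := dist_nonneg
  have a1 := abs_le.1 (hH' j x)
  have a2 := abs_le.1 (hH' j y)
  rw [mul_sub]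
  by_cases hx1 : x ∈ Nb (τ j) K <;> by_cases hy1 : y ∈ Nb (τ j) K
  · rw [gn x hx hx1, gn y hy hy1]
    rcases le_or_gt (dist x y) (τ j) with h1 | h1
    · have h2 : |∑ i ∈ Finset.Ico j₀ j, h i x - ∑ i ∈ Finset.Ico j₀ j, h i y| ≤
          2 * η * dist x y := by
        rw [← Finset.sum_sub_distrib]
        calc _ ≤ ∑ i ∈ Finset.Ico j₀ j, |h i x - h i y| := Finset.abs_sum_le_sum_abs _ _
          _ ≤ ∑ i ∈ Finset.Ico j₀ j, θ i * dist x y := Finset.sum_le_sum fun i hi =>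
              (hFl i).abs2 (hnear j x hx hx1 i) (hnear j y hy hy1 i)
                (h1.trans (hτs' i j (Finset.mem_Ico.1 hi).2))
          _ ≤ _ := by
              rw [← Finset.sum_mul]
              exact mul_le_mul_of_nonneg_right (hsum _) hd
      nlinarith [(abs_le.1 h2).1, mul_nonneg hη0.le hd]
    · have h2 : τ₀ < dist x y := not_le.1 fun h => hxy ⟨h1, h⟩
      nlinarith [a1.1, a2.2]
  · have hy2 : y ∉ Nb τ₀ (T j) := fun h => hyQ ⟨h, hy1⟩
    rw [gn x hx hx1, gf y hy hyU hy2]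
    have h1 := (fn j j y x hy2 hx1).1
    rw [dist_comm] at h1
    nlinarith [a1.1]
  · have hx2 : x ∉ Nb τ₀ (T j) := fun h => hxQ ⟨h, hx1⟩
    rw [gn y hy hy1, gf x hx hxU hx2]
    have h1 := (fn j j x y hx2 hy1).1
    nlinarith [a2.2]
  · rw [gf x hx hxU fun h => hxQ ⟨h, hx1⟩, gf y hy hyU fun h => hyQ ⟨h, hy1⟩]
    nlinarith [mul_nonneg hη0.le hd]

end Pool.Agent.P.MP_6e86bf_an
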