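import Pool.Agent.P.MP_6e86bf_an.Flat

/-! A finite anchor set that is almost nearest, and a sharper form of the flat functions. -/

namespace Pool.Agent.P.MP_6e86bf_an

open scoped Topology MeasureTheory ENNReal
open Set Filter MeasureTheory

universe u

theorem Chg.biUnion_le {X : Type*} {σ : Set X → ℝ} (h : Chg σ) {ι : Type*} (A : Finset ι)
    (D : ι → Set X) : σ (⋃ b ∈ A, D b) ≤ ∑ b ∈ A, σ (D b) := by
  classical
  induction A using Finset.induction_on with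
  | empty => simp [h.empty]
  | insert a A ha ih =>
    rw [Finset.set_biUnion_insert, Finset.sum_insert ha]
    linarith [h.union_le (D a) (⋃ b ∈ A, D b)]

variable {M : Type u} [MetricSpace M]

/-- far points for which `T` has a point much nearer than all points of `T₀` -/
def Bad (τ₀ e : ℝ) (T₀ T : Finset M) : Set M :=
  {y | (∀ x ∈ T, τ₀ < dist y x) ∧ ∃ x ∈ T, ∀ t ∈ T₀, (1 + e) * dist y x < dist y t}

theorem sat {σ : Set M → ℝ} (hσ : Chg σ) (o : M) {τ₀ e η : ℝ} (hτ : 0 < τ₀) (he : 0 < e)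
    (hη : 0 < η) : ∃ T₀ : Finset M, ∀ T : Finset M, σ (Bad τ₀ e T₀ T) ≤ η := by
  classical
  obtain ⟨L, hL⟩ : ∃ L : ℝ, ∀ L' : ℝ, σ (Metric.closedBall o L' \ Metric.closedBall o L) ≤ η / 2 := by
    have hbd : BddAbove (range fun L : ℝ => σ (Metric.closedBall o L)) :=
      ⟨σ univ, by rintro _ ⟨L, rfl⟩; exact hσ.mono (subset_univ _)⟩
    obtain ⟨L, hL⟩ := exists_lt_of_lt_ciSup (f := fun L : ℝ => σ (Metric.closedBall o L))
      (show (⨆ L : ℝ, σ (Metric.closedBall o L)) - η / 2 < _ by linarith)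
    refine ⟨L, fun L' => ?_⟩
    have h1 := hσ.union_eq (Metric.closedBall o L') (Metric.closedBall o L)
    have h2 : σ (Metric.closedBall o L' ∪ Metric.closedBall o L) ≤
        σ (Metric.closedBall o (max L' L)) := hσ.mono (union_subset
      (Metric.closedBall_subset_closedBall (le_max_left _ _))
      (Metric.closedBall_subset_closedBall (le_max_right _ _)))
    have h3 := le_ciSup hbd (max L' L)
    linarith
  obtain ⟨m, hm⟩ : ∃ m : ℕ, L / τ₀ < (1 + e) ^ m := pow_unbounded_of_one_lt _ (by linarith)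
  rw [div_lt_iff₀ hτ] at hm
  have h1 : ∀ ρ : ℝ, ∃ F : Finset M, ∀ T : Finset M,
      σ (Nb ρ T \ Nb ρ F) ≤ η / 2 / ((m : ℝ) + 1) := by
    intro ρ
    have hbd : BddAbove (range fun F : Finset M => σ (Nb ρ F)) :=
      ⟨σ univ, by rintro _ ⟨F, rfl⟩; exact hσ.mono (subset_univ _)⟩
    have hp : 0 < η / 2 / ((m : ℝ) + 1) := by positivity
    obtain ⟨F, hF⟩ := exists_lt_of_lt_ciSup (f := fun F : Finset M => σ (Nb ρ F))
      (show (⨆ F : Finset M, σ (Nb ρ F)) - η / 2 / ((m : ℝ) + 1) < _ by linarith)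
    refine ⟨F, fun T => ?_⟩
    have h2 := hσ.union_eq (Nb ρ T) (Nb ρ F)
    have h3 : σ (Nb ρ T ∪ Nb ρ F) ≤ σ (Nb ρ ((T ∪ F : Finset M) : Set M)) := by
      rw [Finset.coe_union]
      exact hσ.mono (union_subset (Nb.mono le_rfl subset_union_left)
        (Nb.mono le_rfl subset_union_right))
    have h4 := le_ciSup hbd (T ∪ F)
    linarith
  choose F hF using h1
  refine ⟨insert o ((Finset.range (m + 1)).biUnion fun i => F ((1 + e) ^ i * τ₀)), fun T => ?_⟩
  obtain ⟨B, hB⟩ := (T.finite_toSet.image fun x => dist x o).bddAbove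
  have h2 : Bad τ₀ e (insert o ((Finset.range (m + 1)).biUnion fun i => F ((1 + e) ^ i * τ₀))) T ⊆
      (Metric.closedBall o (B / e + B) \ Metric.closedBall o L) ∪
        ⋃ i ∈ Finset.range (m + 1), (Nb ((1 + e) ^ i * τ₀) T \
          Nb ((1 + e) ^ i * τ₀) (F ((1 + e) ^ i * τ₀))) := by
    rintro y ⟨hy1, x, hx, hy2⟩
    have h3 := hy2 o (Finset.mem_insert_self _ _)
    have h4 : dist x o ≤ B := hB ⟨x, hx, rfl⟩
    have h5 := dist_triangle y x o
    have hd : 0 ≤ dist y x := dist_nonneg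
    by_cases hyL : dist y o ≤ L
    · right
      have hex : ∃ i : ℕ, dist y x ≤ (1 + e) ^ i * τ₀ := ⟨m, by nlinarith⟩
      have h6 : Nat.find hex ≤ m := Nat.find_min' hex (by nlinarith)
      have h7 : (1 + e) ^ Nat.find hex * τ₀ ≤ (1 + e) * dist y x := by
        rcases Nat.eq_zero_or_pos (Nat.find hex) with h8 | h8
        · rw [h8, pow_zero, one_mul]
          nlinarith [hy1 x hx]
        · have h9 := not_le.1 (Nat.find_min hex (Nat.sub_lt h8 one_pos))
          obtain ⟨k, hk⟩ : ∃ k, Nat.find hex = k + 1 := ⟨Nat.find hex - 1, by omega⟩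
          rw [hk] at h9 ⊢
          rw [Nat.add_sub_cancel] at h9
          rw [pow_succ', mul_assoc]
          exact mul_le_mul_of_nonneg_left h9.le (by linarith)
      refine mem_iUnion₂.2 ⟨Nat.find hex, Finset.mem_range.2 (by omega),
        ⟨x, hx, Nat.find_spec hex⟩, ?_⟩
      rintro ⟨t, ht, ht'⟩
      have h8 := hy2 t (Finset.mem_insert_of_mem (Finset.mem_biUnion.2
        ⟨Nat.find hex, Finset.mem_range.2 (by omega), ht⟩))
      linarith
    · left
      refine ⟨?_, hyL⟩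
      have h6 : dist y x ≤ B / e := by
        rw [le_div_iff₀ he]
        nlinarith
      rw [Metric.mem_closedBall]
      linarith
  refine (hσ.mono h2).trans ((hσ.union_le _ _).trans ?_)
  have h3 := (hσ.biUnion_le (Finset.range (m + 1)) fun i => Nb ((1 + e) ^ i * τ₀) T \
    Nb ((1 + e) ^ i * τ₀) (F ((1 + e) ^ i * τ₀))).trans (Finset.sum_le_sum fun i _ => hF _ T)
  rw [Finset.sum_const, Finset.card_range, nsmul_eq_mul] at h3
  push_cast at h3
  rw [mul_div_cancel₀ _ (by positivity)] at h3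
  linarith [hL (B / e + B)]

theorem no_cheap2 [MeasurableSpace M] [BorelSpace M] (hM : PurelyUnrectifiable M) {K : Set M}
    (hK : IsCompact K) (x y : M) {θ e : ℝ} (hθ : 0 < θ) (he : 0 < e) :
    ∃ s, 0 < s ∧ ∀ t J Γ W, St K y s x t J Γ W → dist x y ≤ θ * (t - J) + (1 + e) * J := by
  by_contra hn
  push Not at hn
  choose t J Γ W hSt hc using fun n : ℕ => hn (1 / ((n : ℝ) + 1)) (by positivity)
  set D := dist x y with hD
  have hc0 : ∀ n, 0 ≤ θ * (t n - J n) := fun n =>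
    mul_nonneg hθ.le (by linarith [(hSt n).2.1])
  have hJ0 : ∀ n, 0 ≤ e * J n := fun n => mul_nonneg he.le (hSt n).1
  have hD0 : 0 < D := by linarith [hc 0, hc0 0, (hSt 0).1, hJ0 0]
  set L := D / θ + D with hL
  have htL : ∀ n, t n ≤ L := by
    intro n
    have h1 : t n - J n ≤ D / θ := by
      rw [le_div_iff₀ hθ]
      linarith [hc n, (hSt n).1, hJ0 n]
    linarith [hc n, hc0 n, hJ0 n]
  let V : Ultrafilter ℕ := hyperfilter ℕ
  have hV : (V : Filter ℕ) ≤ atTop := Nat.cofinite_eq_atTop ▸ hyperfilter_le_cofinite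
  have hs : ∀ δ : ℝ, 0 < δ → ∀ᶠ n : ℕ in (V : Filter ℕ), 1 / ((n : ℝ) + 1) < δ := fun δ hδ =>
    hV (tendsto_one_div_add_atTop_nhds_zero_nat.eventually (gt_mem_nhds hδ))
  let E : Set (ℝ × M) := {p | p ∈ Icc 0 L ×ˢ K ∧ ∀ δ : ℝ, 0 < δ →
    ∀ᶠ n in (V : Filter ℕ), ∃ q ∈ Γ n, dist p q < δ}
  have hE : IsCompact E := by
    refine (isCompact_Icc.prod hK).inter_right (t := {p | ∀ δ : ℝ, 0 < δ →
      ∀ᶠ n in (V : Filter ℕ), ∃ q ∈ Γ n, dist p q < δ}) ?_
    refine isClosed_of_closure_subset fun p hp δ hδ => ?_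
    obtain ⟨p', hp', hd⟩ := Metric.mem_closure_iff.1 hp (δ / 2) (by linarith)
    refine (hp' (δ / 2) (by linarith)).mono ?_
    rintro n ⟨q, hq, hq'⟩
    exact ⟨q, hq, by linarith [dist_triangle p p' q]⟩
  have hEl : ∀ p ∈ E, ∀ q ∈ E, dist p.2 q.2 ≤ dist p.1 q.1 := by
    intro p hp q hq
    refine le_of_forall_pos_le_add fun δ hδ => ?_
    obtain ⟨n, ⟨p', hp', h1⟩, q', hq', h2⟩ :=
      ((hp.2 (δ / 4) (by linarith)).and (hq.2 (δ / 4) (by linarith))).exists
    have h3 := (hSt n).2.2.2.1 p' hp' q' hq'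
    rw [← Real.dist_eq] at h3
    rw [Prod.dist_eq, max_lt_iff] at h1 h2
    have h4 := dist_triangle4 p.2 p'.2 q'.2 q.2
    have h5 := dist_triangle4 p'.1 p.1 q.1 q'.1
    rw [dist_comm q'.2] at h4
    rw [dist_comm p'.1 p.1] at h5
    linarith [h1.1, h1.2, h2.1, h2.2]
  classical
  let γ : ℝ → M := fun a => if h : ∃ z, (a, z) ∈ E then h.choose else y
  have hγ : ∀ p ∈ E, γ p.1 = p.2 := by
    intro p hp
    have h : ∃ z, (p.1, z) ∈ E := ⟨p.2, hp⟩
    have h1 := hEl _ h.choose_spec p hp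
    simp only [γ, dif_pos h]
    simpa using h1
  have hγl : LipschitzOnWith 1 γ (Prod.fst '' E) := by
    refine LipschitzOnWith.of_dist_le_mul ?_
    rintro _ ⟨p, hp, rfl⟩ _ ⟨q, hq, rfl⟩
    rw [hγ p hp, hγ q hq, NNReal.coe_one, one_mul]
    exact hEl p hp q hq
  have h0 := hM _ γ 1 (hE.image continuous_fst) hγl
  have h1 := (LipschitzWith.dist_left y).hausdorffMeasure_image_le zero_le_one
    (γ '' (Prod.fst '' E))
  rw [h0, mul_zero, hausdorffMeasure_real] at h1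
  obtain ⟨O, hO1, hO2, hO3⟩ := Set.exists_isOpen_lt_of_lt (μ := volume)
    ((fun z => dist z y) '' (γ '' (Prod.fst '' E))) (ENNReal.ofReal (e * D / (1 + e)))
    (h1.trans_lt (ENNReal.ofReal_pos.2 (by positivity)))
  have h2 : ∀ᶠ n in (V : Filter ℕ), ∀ p ∈ Γ n, ∀ a : ℝ, |a - dist p.2 y| ≤ 1 / ((n : ℝ) + 1) →
      a ∈ O := by
    by_contra h3
    have h4 := Ultrafilter.eventually_not.2 h3
    have h5 : ∀ n : ℕ, ∃ (p : ℝ × M) (k : M) (a : ℝ),
        (¬ ∀ p ∈ Γ n, ∀ a : ℝ, |a - dist p.2 y| ≤ 1 / ((n : ℝ) + 1) → a ∈ O) →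
        p ∈ Γ n ∧ k ∈ K ∧ dist p.2 k ≤ 1 / ((n : ℝ) + 1) ∧
          |a - dist p.2 y| ≤ 1 / ((n : ℝ) + 1) ∧ a ∉ O := by
      intro n
      by_cases h : ∀ p ∈ Γ n, ∀ a : ℝ, |a - dist p.2 y| ≤ 1 / ((n : ℝ) + 1) → a ∈ O
      · exact ⟨(0, y), y, 0, fun h' => absurd h h'⟩
      · push Not at h
        obtain ⟨p, hp, a, ha, ha'⟩ := h
        obtain ⟨k, hk, hk'⟩ := ((hSt n).2.2.1 p hp).2.1
        exact ⟨p, k, a, fun _ => ⟨hp, hk, hk', ha, ha'⟩⟩
    choose p k a hp using h5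
    have h6 := h4.mono hp
    obtain ⟨z, hz, hz'⟩ := ((isCompact_Icc (a := (0 : ℝ)) (b := L)).prod hK).ultrafilter_le_nhds
      (V.map fun n => ((p n).1, k n)) (by
        rw [Ultrafilter.coe_map, le_principal_iff, mem_map]
        refine h6.mono fun n hn => ⟨⟨((hSt n).2.2.1 _ hn.1).1, ?_⟩, hn.2.1⟩
        have := ((hSt n).2.2.1 _ hn.1).2.2
        linarith [htL n, dist_nonneg (x := x) (y := (p n).2)])
    have h7 : Tendsto (fun n => ((p n).1, k n)) V (𝓝 z) := hz'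
    have h8 : ∀ δ : ℝ, 0 < δ → ∀ᶠ n in (V : Filter ℕ), dist z (p n) < δ := by
      intro δ hδ
      filter_upwards [h6, hs (δ / 2) (by linarith), Metric.tendsto_nhds.1 h7 (δ / 2) (by linarith)]
        with n hn h9 h10
      rw [Prod.dist_eq, max_lt_iff] at h10 ⊢
      have h11 := dist_triangle_left z.2 (p n).2 (k n)
      have h12 := hn.2.2.1
      rw [dist_comm] at h12
      rw [dist_comm z.1]
      exact ⟨by linarith [h10.1], by linarith [h10.2]⟩
    have hzE : z ∈ E := ⟨hz, fun δ hδ => (h6.and (h8 δ hδ)).mono fun n hn => ⟨_, hn.1.1, hn.2⟩⟩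
    have h9 : dist z.2 y ∈ O := hO1 ⟨_, ⟨_, ⟨z, hzE, rfl⟩, hγ z hzE⟩, rfl⟩
    obtain ⟨δ, hδ, hball⟩ := Metric.isOpen_iff.1 hO2 _ h9
    obtain ⟨n, hn, h10, h11⟩ :=
      (h6.and ((hs (δ / 2) (by linarith)).and (h8 (δ / 2) (by linarith)))).exists
    refine hn.2.2.2.2 (hball ?_)
    rw [Metric.mem_ball, Real.dist_eq]
    rw [Prod.dist_eq, max_lt_iff] at h11
    have h12 := abs_dist_sub_le (p n).2 z.2 y
    rw [dist_comm (p n).2 z.2] at h12
    have h13 := abs_sub_le (a n) (dist (p n).2 y) (dist z.2 y)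
    linarith [hn.2.2.2.1, h11.2]
  obtain ⟨n, hn⟩ := h2.exists
  have h3 : Icc 0 D ⊆ W n ∪ O := fun a ha =>
    ((hSt n).2.2.2.2.2 a ha).imp id fun ⟨p, hp, h⟩ => hn p hp a h
  have h4 := (measure_mono (μ := volume) h3).trans (measure_union_le _ _)
  rw [Real.volume_Icc, sub_zero] at h4
  have h5 : ENNReal.ofReal D ≤ ENNReal.ofReal (J n + e * D / (1 + e)) := by
    rw [ENNReal.ofReal_add (hSt n).1 (by positivity)]
    exact h4.trans (add_le_add (hSt n).2.2.2.2.1 hO3.le)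
  rw [ENNReal.ofReal_le_ofReal_iff (add_nonneg (hSt n).1 (by positivity)),
    ← sub_le_iff_le_add', le_div_iff₀ (by linarith)] at h5
  linarith [hc n, hc0 n]

/-- `h` is `L`-Lipschitz and `θ`-flat at scale `s` near `K` -/
def Fl2 (K : Set M) (s θ L : ℝ) (h : M → ℝ) : Prop :=
  (∀ a b, |h a - h b| ≤ L * dist a b) ∧
    ∀ a b, a ∈ Nb s K → b ∈ Nb s K → dist a b ≤ s → |h a - h b| ≤ θ * dist a b

theorem flat2 [MeasurableSpace M] [BorelSpace M] (hM : PurelyUnrectifiable M) {K : Set M}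
    (hK : IsCompact K) (x y : M) {θ e : ℝ} (hθ : 0 < θ) (he : 0 < e) :
    ∃ s, 0 < s ∧ ∃ h : M → ℝ, Fl2 K s θ (1 + e) h ∧ dist x y ≤ h x - h y := by
  obtain ⟨s, hs, hc⟩ := no_cheap2 hM hK x y hθ he
  let C : M → Set ℝ := fun z => {c | ∃ t J Γ W, St K y s z t J Γ W ∧ c = θ * (t - J) + (1 + e) * J}
  have hne : ∀ z, (C z).Nonempty := fun z => ⟨_, _, _, _, _, (St.start K y s).jump z, rfl⟩
  have hb : ∀ z, BddBelow (C z) := fun z => ⟨0, by
    rintro _ ⟨t, J, Γ, W, h, rfl⟩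
    exact add_nonneg (mul_nonneg hθ.le (sub_nonneg.2 h.2.1)) (mul_nonneg (by linarith) h.1)⟩
  have h1 : ∀ a b, sInf (C b) - (1 + e) * dist a b ≤ sInf (C a) := by
    intro a b
    refine le_csInf (hne a) ?_
    rintro _ ⟨t, J, Γ, W, h, rfl⟩
    have := csInf_le (hb b) ⟨_, _, _, _, h.jump b, rfl⟩
    linarith
  have h2 : ∀ a b, a ∈ Nb s K → dist a b ≤ s → sInf (C b) - θ * dist a b ≤ sInf (C a) := by
    intro a b ha hab
    refine le_csInf (hne a) ?_
    rintro _ ⟨t, J, Γ, W, h, rfl⟩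
    have := csInf_le (hb b) ⟨_, _, _, _, h.short ha hab, rfl⟩
    linarith
  refine ⟨s, hs, fun z => sInf (C z), ⟨fun a b => ?_, fun a b ha hb hab => ?_⟩, ?_⟩
  · have h3 := h1 b a
    rw [dist_comm] at h3
    exact abs_le.2 ⟨by linarith [h1 a b], by linarith⟩
  · have h3 := h2 b a hb (by rwa [dist_comm])
    rw [dist_comm] at h3
    exact abs_le.2 ⟨by linarith [h2 a b ha hab], by linarith⟩
  · have h3 : dist x y ≤ sInf (C x) := le_csInf (hne x) (by
      rintro _ ⟨t, J, Γ, W, h, rfl⟩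
      exact hc _ _ _ _ h)
    have h4 := csInf_le (hb y) ⟨_, _, _, _, St.start K y s, rfl⟩
    simp only
    linarith

namespace Fl2

variable {K : Set M} {s s' θ L : ℝ} {h g : M → ℝ}

theorem mono (hh : Fl2 K s θ L h) (hs : s' ≤ s) : Fl2 K s' θ L h :=
  ⟨hh.1, fun a b ha hb hab =>
    hh.2 a b (Nb.mono hs Subset.rfl ha) (Nb.mono hs Subset.rfl hb) (hab.trans hs)⟩

theorem const (hθ : 0 ≤ θ) (hL : 0 ≤ L) (c : ℝ) : Fl2 K s θ L fun _ => c :=
  ⟨fun _ _ => by rw [sub_self, abs_zero]; positivity,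
    fun _ _ _ _ _ => by rw [sub_self, abs_zero]; positivity⟩

theorem max (hh : Fl2 K s θ L h) (hg : Fl2 K s θ L g) : Fl2 K s θ L fun x => max (h x) (g x) :=
  ⟨fun a b => (abs_max_sub_max_le_max _ _ _ _).trans (max_le (hh.1 a b) (hg.1 a b)),
    fun a b ha hb hab => (abs_max_sub_max_le_max _ _ _ _).trans
      (max_le (hh.2 a b ha hb hab) (hg.2 a b ha hb hab))⟩

theorem min (hh : Fl2 K s θ L h) (hg : Fl2 K s θ L g) : Fl2 K s θ L fun x => min (h x) (g x) :=
  ⟨fun a b => (abs_min_sub_min_le_max _ _ _ _).trans (max_le (hh.1 a b) (hg.1 a b)),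
    fun a b ha hb hab => (abs_min_sub_min_le_max _ _ _ _).trans
      (max_le (hh.2 a b ha hb hab) (hg.2 a b ha hb hab))⟩

theorem affine (hh : Fl2 K s θ L h) (c : ℝ) {t C : ℝ} (ht : |t| ≤ C) :
    Fl2 K s (C * θ) (C * L) fun x => c + t * h x := by
  have key : ∀ u v B : ℝ, |u - v| ≤ B → |c + t * u - (c + t * v)| ≤ C * B := by
    intro u v B huv
    rw [add_sub_add_left_eq_sub, ← mul_sub, abs_mul]
    exact mul_le_mul ht huv (abs_nonneg _) ((abs_nonneg _).trans ht)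
  exact ⟨fun a b => by rw [mul_assoc]; exact key _ _ _ (hh.1 a b),
    fun a b ha hb hab => by rw [mul_assoc]; exact key _ _ _ (hh.2 a b ha hb hab)⟩

end Fl2

theorem interp2 [MeasurableSpace M] [BorelSpace M] (hM : PurelyUnrectifiable M) {K : Set M}
    (hK : IsCompact K) {θ β e C : ℝ} (hθ : 0 < θ) (hβ : 0 ≤ β) (he : 0 < e) (hC : 0 ≤ C)
    (φ : M → ℝ)
    (hφ : ∀ x y, |φ x - φ y| ≤ C * dist x y) (P : Finset M) (hP : ∀ p ∈ P, |φ p| ≤ β) :
    ∃ s, 0 < s ∧ ∃ h : M → ℝ, Fl2 K s (C * θ) (C * (1 + e)) h ∧ (∀ x, |h x| ≤ β) ∧ ∀ p ∈ P, h p = φ p := by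
  classical
  have two : ∀ p q, ∃ s, 0 < s ∧ ∃ h : M → ℝ, Fl2 K s (C * θ) (C * (1 + e)) h ∧ h p = φ p ∧ h q = φ q := by
    intro p q
    rcases eq_or_ne p q with rfl | hpq
    · exact ⟨1, one_pos, _, Fl2.const (by positivity) (by positivity) (φ p), rfl, rfl⟩
    · obtain ⟨s, hs, h, hh, hd⟩ := flat2 hM hK p q hθ he
      have hd0 : 0 < h p - h q := (dist_pos.2 hpq).trans_le hd
      have ht : |(φ p - φ q) / (h p - h q)| ≤ C := by
        rw [abs_div, abs_of_pos hd0, div_le_iff₀ hd0]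
        exact (hφ p q).trans (mul_le_mul_of_nonneg_left hd hC)
      refine ⟨s, hs, _, hh.affine (φ q - (φ p - φ q) / (h p - h q) * h q) ht, ?_, ?_⟩
      · field_simp
        ring
      · ring
  have stepA : ∀ p (Q : Finset M), ∃ s, 0 < s ∧ ∃ h : M → ℝ, Fl2 K s (C * θ) (C * (1 + e)) h ∧ h p = φ p ∧
      (∀ x, h x ≤ φ p) ∧ ∀ q ∈ Q, h q ≤ φ q := by
    intro p Q
    induction Q using Finset.induction_on with
    | empty => exact ⟨1, one_pos, _, Fl2.const (by positivity) (by positivity) (φ p), rfl, fun _ => le_rfl, by simp⟩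
    | insert q Q _ ih =>
      obtain ⟨s, hs, h, h1, h2, h3, h4⟩ := ih
      obtain ⟨s', hs', g, g1, g2, g3⟩ := two p q
      refine ⟨_, lt_min hs hs', _, (h1.mono (min_le_left s s')).min (g1.mono (min_le_right s s')),
        by simp [h2, g2], fun x => (min_le_left _ _).trans (h3 x), fun q' hq' => ?_⟩
      rcases Finset.mem_insert.1 hq' with rfl | hq'
      · exact (min_le_right _ _).trans g3.le
      · exact (min_le_left _ _).trans (h4 q' hq')
  have stepB : ∀ Q : Finset M, Q ⊆ P → ∃ s, 0 < s ∧ ∃ h : M → ℝ, Fl2 K s (C * θ) (C * (1 + e)) h ∧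
      (∀ x, -β ≤ h x ∧ h x ≤ β) ∧ (∀ q ∈ P, h q ≤ φ q) ∧ ∀ q ∈ Q, φ q ≤ h q := by
    intro Q
    induction Q using Finset.induction_on with
    | empty =>
      exact fun _ => ⟨1, one_pos, _, Fl2.const (by positivity) (by positivity) (-β), fun _ => ⟨le_rfl, by linarith⟩,
        fun q hq => (abs_le.1 (hP q hq)).1, by simp⟩
    | insert p Q _ ih =>
      intro hQ
      obtain ⟨s, hs, h, h1, h2, h3, h4⟩ := ih ((Finset.subset_insert _ _).trans hQ)
      obtain ⟨s', hs', g, g1, g2, g3, g4⟩ := stepA p P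
      refine ⟨_, lt_min hs hs', _, (h1.mono (min_le_left s s')).max (g1.mono (min_le_right s s')),
        fun x => ⟨(h2 x).1.trans (le_max_left _ _), max_le (h2 x).2 ((g3 x).trans
          (abs_le.1 (hP p (hQ (Finset.mem_insert_self _ _)))).2)⟩,
        fun q hq => max_le (h3 q hq) (g4 q hq), fun q hq => ?_⟩
      rcases Finset.mem_insert.1 hq with rfl | hq
      · exact g2.ge.trans (le_max_right _ _)
      · exact (h4 q hq).trans (le_max_left _ _)
  obtain ⟨s, hs, h, h1, h2, h3, h4⟩ := stepB P Finset.Subset.rfl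
  exact ⟨s, hs, h, h1, fun x => abs_le.2 (h2 x), fun p hp => le_antisymm (h3 p hp) (h4 p hp)⟩

end Pool.Agent.P.MP_6e86bf_an
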