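import Pool.Agent.P.MP_6e86bf_an.Main
import Pool.Agent.P.MP_6e86bf_an.Sat

/-! Gluing when the functions of the stages agree with a common limit on the earlier points. -/

namespace Pool.Agent.P.MP_6e86bf_an

open scoped Topology
open Set Filter

universe u

variable {M : Type u} [MetricSpace M]

theorem glue2 (A T : ℕ → Finset M) (T₀ : Finset M) (f h : ℕ → M → ℝ) (F : M → ℝ)
    (τ θ s : ℕ → ℝ) (K : Set M) {τ₀ e η : ℝ} (he : 0 < e) (he1 : e ≤ 1) (hτ₀ : 0 < τ₀)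
    (hη : 24 * η ≤ e) (hF : Lip1 F) (hf : ∀ j x y, |f j x - f j y| ≤ (1 + e) * dist x y)
    (hfT : ∀ j, ∀ t ∈ T j, f j t = F t) (hT₀ : ∀ j, T₀ ⊆ T j)
    (hnet : ∀ j, ∀ k ∈ K, ∃ t ∈ T j, dist k t ≤ τ j)
    (hτ : ∀ j, τ j ≤ θ j * τ₀) (hθ : ∀ j, 0 < θ j) (hθη : ∀ j, θ j ≤ η)
    (hθ2 : ∀ j, θ (j + 1) ≤ θ j / 2) (hs : ∀ j, 0 < s j)
    (hFl : ∀ j, Fl2 (K ∪ T j ∪ A j) (s j) ((2 + e) * θ j) ((2 + e) * (1 + e)) (h j))
    (hh : ∀ j x, |h j x| ≤ 6 * τ j) (hhT : ∀ j, ∀ t ∈ T j, h j t = 0)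
    (hhA : ∀ j, ∀ x ∈ A j, x ∈ Nb (τ j) K → h j x = f j x - F x)
    (hAT : ∀ i j, i < j → A i ⊆ T j) (hτs : ∀ i j, i < j → τ j ≤ θ j * s i) :
    ∃ g, Lip1 g ∧ ∀ j, ∀ x ∈ A j, ∀ y ∈ A j, x ∉ Bad τ₀ e T₀ (T j) → y ∉ Bad τ₀ e T₀ (T j) →
      x ∉ Nb τ₀ (T j) \ Nb (τ j) K → y ∉ Nb τ₀ (T j) \ Nb (τ j) K →
      ¬ (τ j < dist x y ∧ dist x y ≤ τ₀) →
      f j x - f j y - 24 * η * dist x y ≤ (3 + 7 * e) * (g x - g y) := by
  have hη0 : 0 < η := (hθ 0).trans_le (hθη 0)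
  have hfar : ∀ j x, x ∉ Nb τ₀ (T j) → ∀ t ∈ T j, τ₀ < dist x t := fun j x hx t ht =>
    not_le.1 fun h => hx ⟨t, ht, h⟩
  have hτs' : ∀ i j, i < j → τ j ≤ s i := fun i j hij => by
    nlinarith [hτs i j hij, hθη j, hs i]
  have hL1 : ∀ i x y, |h i x - h i y| ≤ (2 + 4 * e) * dist x y := fun i x y =>
    ((hFl i).1 x y).trans (mul_le_mul_of_nonneg_right (by nlinarith) dist_nonneg)
  have hL2 : ∀ i x y, x ∈ Nb (s i) (K ∪ T i ∪ A i) → y ∈ Nb (s i) (K ∪ T i ∪ A i) →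
      dist x y ≤ s i → |h i x - h i y| ≤ θ i * (3 * dist x y) := fun i x y hx hy hxy =>
    ((hFl i).2 x y hx hy hxy).trans (by
      nlinarith [mul_nonneg (hθ i).le (dist_nonneg (x := x) (y := y))])
  have hsum : ∀ n, ∑ i ∈ Finset.Ico 0 n, θ i ≤ 2 * η := fun n =>
    (sum_half hθ hθ2 0 n).trans (by linarith [hθη 0])
  have hH : ∀ n x, |∑ i ∈ Finset.Ico 0 n, h i x| ≤ 12 * η * τ₀ := by
    intro n x
    calc _ ≤ ∑ i ∈ Finset.Ico 0 n, |h i x| := Finset.abs_sum_le_sum_abs _ _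
      _ ≤ ∑ i ∈ Finset.Ico 0 n, θ i * (6 * τ₀) :=
          Finset.sum_le_sum fun i _ => by linarith [hh i x, hτ i]
      _ ≤ 2 * η * (6 * τ₀) := by
          rw [← Finset.sum_mul]
          exact mul_le_mul_of_nonneg_right (hsum n) (by linarith)
      _ = _ := by ring
  have hnear : ∀ j, ∀ x ∈ A j, x ∈ Nb (τ j) K → ∀ i, x ∈ Nb (s i) (K ∪ T i ∪ A i) := by
    intro j x hx hx' i
    rcases lt_trichotomy i j with hij | rfl | hij
    · exact Nb.mono (hτs' i j hij) (subset_union_left.trans subset_union_left) hx'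
    · exact ⟨x, Or.inr hx, by simpa using (hs i).le⟩
    · exact ⟨x, Or.inl (Or.inr (hAT j i hij hx)), by simpa using (hs i).le⟩
  have nn : ∀ j k x y, j ≤ k → x ∈ A j → x ∈ Nb (τ j) K → y ∈ A k → y ∈ Nb (τ k) K →
      |F x + ∑ i ∈ Finset.Ico 0 (j + 1), h i x - (F y + ∑ i ∈ Finset.Ico 0 (k + 1), h i y)| ≤
        (3 + 7 * e) * dist x y := by
    intro j k x y hjk hx hx' hy hy'
    have hd : 0 ≤ dist x y := dist_nonneg
    have h1 : ∑ i ∈ Finset.Ico 0 (j + 1), h i x = ∑ i ∈ Finset.Ico 0 (k + 1), h i x := by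
      refine Finset.sum_subset (Finset.Ico_subset_Ico_right (by omega)) fun i hi hi' => ?_
      rw [Finset.mem_Ico] at hi hi'
      exact hhT i x (hAT j i (by omega) hx)
    have h2 : ∃ m, ∀ i, i ≠ m → |h i x - h i y| ≤ θ i * (12 * dist x y) := by
      have h3 : ∀ i, dist x y ≤ s i → |h i x - h i y| ≤ θ i * (12 * dist x y) := fun i hi =>
        (hL2 i x y (hnear j x hx hx' i) (hnear k y hy hy' i) hi).trans
          (by nlinarith [mul_nonneg (hθ i).le hd])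
      by_cases hex : ∃ i, s i < dist x y
      · classical
        refine ⟨Nat.find hex, fun i hi => ?_⟩
        rcases lt_or_gt_of_ne hi with h4 | h4
        · exact h3 i (not_lt.1 (Nat.find_min hex h4))
        · have h5 := hτs _ i h4
          have h6 := mul_le_mul_of_nonneg_left (Nat.find_spec hex).le (hθ i).le
          have h7 := abs_sub (h i x) (h i y)
          linarith [hh i x, hh i y]
      · push Not at hex
        exact ⟨0, fun i _ => h3 i (hex i)⟩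
    obtain ⟨m, hm⟩ := h2
    have h3 : |∑ i ∈ Finset.Ico 0 (k + 1), h i x - ∑ i ∈ Finset.Ico 0 (k + 1), h i y| ≤
        2 * η * (12 * dist x y) + (2 + 4 * e) * dist x y := by
      rw [← Finset.sum_sub_distrib]
      calc _ ≤ ∑ i ∈ Finset.Ico 0 (k + 1), |h i x - h i y| := Finset.abs_sum_le_sum_abs _ _
        _ ≤ ∑ i ∈ Finset.Ico 0 (k + 1),
              (θ i * (12 * dist x y) + if i = m then (2 + 4 * e) * dist x y else 0) := by
            refine Finset.sum_le_sum fun i _ => ?_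
            split_ifs with h3
            · nlinarith [hL1 i x y, mul_nonneg (hθ i).le hd]
            · linarith [hm i h3]
        _ ≤ _ := by
            rw [Finset.sum_add_distrib, ← Finset.sum_mul, Finset.sum_ite_eq']
            refine add_le_add (mul_le_mul_of_nonneg_right (hsum _) (by linarith)) ?_
            split_ifs
            · exact le_rfl
            · positivity
    rw [h1, add_sub_add_comm]
    refine (abs_add_le _ _).trans ?_
    nlinarith [hF x y, mul_le_mul_of_nonneg_right hη hd, mul_nonneg he.le hd]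
  have fn : ∀ i k x y, x ∉ Nb τ₀ (T i) → y ∈ Nb (τ k) K →
      3 / 4 * τ₀ ≤ dist x y ∧ |f i x - F y| ≤ 2 * dist x y + τ₀ / 4 := by
    rintro i k x y hx ⟨z, hz, hz'⟩
    obtain ⟨t, ht, ht'⟩ := hnet i z hz
    have h1 := hfar i x hx t ht
    have h2 := hf i x t
    rw [hfT i t ht] at h2
    have h3 := dist_triangle4 x y z t
    have h4 : τ i ≤ τ₀ / 24 := by nlinarith [hτ i, hθη i]
    have h5 : τ k ≤ τ₀ / 24 := by nlinarith [hτ k, hθη k]
    have h6 := hF y t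
    have h7 := dist_triangle y z t
    have h8 := abs_sub_le (f i x) (F t) (F y)
    rw [abs_sub_comm (F t)] at h8
    have h9 : (1 + e) * dist x t ≤ 2 * dist x t :=
      mul_le_mul_of_nonneg_right (by linarith) dist_nonneg
    exact ⟨by linarith, by linarith⟩
  have ff : ∀ i j x y, i < j → x ∈ A i → y ∉ Nb τ₀ (T j) → y ∉ Bad τ₀ e T₀ (T j) →
      |f i x - f j y| ≤ (3 + 7 * e) * dist x y := by
    intro i j x y hij hx hy hy'
    have h1 : ∃ t ∈ T₀, dist y t ≤ (1 + e) * dist y x := by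
      by_contra h2
      push Not at h2
      exact hy' ⟨hfar j y hy, x, hAT i j hij hx, h2⟩
    obtain ⟨t, ht, ht'⟩ := h1
    have h2 := hf i x t
    have h3 := hf j t y
    rw [hfT i t (hT₀ i ht)] at h2
    rw [hfT j t (hT₀ j ht), dist_comm] at h3
    rw [dist_comm y x] at ht'
    have h4 := abs_sub_le (f i x) (F t) (f j y)
    have h5 := dist_triangle x y t
    have hd : 0 ≤ dist x y := dist_nonneg
    have h6 : (1 + e) * (dist x t + dist y t) ≤ (1 + e) * ((3 + 2 * e) * dist x y) :=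
      mul_le_mul_of_nonneg_left (by linarith) (by linarith)
    have h7 : (1 + e) * (3 + 2 * e) * dist x y ≤ (3 + 7 * e) * dist x y :=
      mul_le_mul_of_nonneg_right (by nlinarith) hd
    linarith
  obtain ⟨g, hg1, -, hg3⟩ := extend (fun x t => ∃ j, x ∈ A j ∧
    ((x ∈ Nb (τ j) K ∧ t = F x + ∑ i ∈ Finset.Ico 0 (j + 1), h i x) ∨
      (x ∉ Nb τ₀ (T j) ∧ x ∉ Bad τ₀ e T₀ (T j) ∧ t = f j x))) (L := 3 + 7 * e) (by linarith)
      le_rfl ∅ (by
    rintro x t y t' ⟨j, hx, hx'⟩ ⟨k, hy, hy'⟩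
    have hd : 0 ≤ e * dist x y := mul_nonneg he.le dist_nonneg
    have hd' : 0 ≤ dist x y := dist_nonneg
    have hτη : 12 * η * τ₀ ≤ τ₀ / 2 := by nlinarith
    rcases hx' with ⟨hx1, rfl⟩ | ⟨hx1, hx2, rfl⟩ <;> rcases hy' with ⟨hy1, rfl⟩ | ⟨hy1, hy2, rfl⟩
    · rcases le_total j k with hjk | hjk
      · exact nn j k x y hjk hx hx1 hy hy1
      · have := nn k j y x hjk hy hy1 hx hx1
        rwa [abs_sub_comm, dist_comm] at this
    · obtain ⟨h1, h2⟩ := fn k j y x hy1 hx1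
      rw [dist_comm] at h1 h2
      have h3 := abs_le.1 (hH (j + 1) x)
      have h4 := abs_le.1 h2
      exact abs_le.2 ⟨by linarith [h3.1, h4.2], by linarith [h3.2, h4.1]⟩
    · obtain ⟨h1, h2⟩ := fn j k x y hx1 hy1
      have h3 := abs_le.1 (hH (k + 1) y)
      have h4 := abs_le.1 h2
      exact abs_le.2 ⟨by linarith [h3.2, h4.1], by linarith [h3.1, h4.2]⟩
    · rcases lt_trichotomy j k with hjk | rfl | hjk
      · exact ff j k x y hjk hx hy1 hy2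
      · linarith [hf j x y]
      · have := ff k j y x hjk hy hx1 hx2
        rwa [abs_sub_comm, dist_comm] at this) (by simp)
  refine ⟨g, hg1, fun j x hx y hy hxU hyU hxQ hyQ hxy => ?_⟩
  have gn : ∀ x ∈ A j, x ∈ Nb (τ j) K →
      (3 + 7 * e) * g x = ∑ i ∈ Finset.Ico 0 j, h i x + f j x := fun x hx hx' => by
    rw [hg3 x _ ⟨j, hx, Or.inl ⟨hx', rfl⟩⟩, Finset.sum_Ico_succ_top (Nat.zero_le j),
      hhA j x hx hx']
    ring
  have gf : ∀ x ∈ A j, x ∉ Bad τ₀ e T₀ (T j) → x ∉ Nb τ₀ (T j) → (3 + 7 * e) * g x = f j x :=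
    fun x hx h1 h2 => hg3 x _ ⟨j, hx, Or.inr ⟨h2, h1, rfl⟩⟩
  have hd : 0 ≤ dist x y := dist_nonneg
  have a1 := abs_le.1 (hH j x)
  have a2 := abs_le.1 (hH j y)
  rw [mul_sub]
  by_cases hx1 : x ∈ Nb (τ j) K <;> by_cases hy1 : y ∈ Nb (τ j) K
  · rw [gn x hx hx1, gn y hy hy1]
    rcases le_or_gt (dist x y) (τ j) with h1 | h1
    · have h2 : |∑ i ∈ Finset.Ico 0 j, h i x - ∑ i ∈ Finset.Ico 0 j, h i y| ≤
          2 * η * (3 * dist x y) := by
        rw [← Finset.sum_sub_distrib]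
        calc _ ≤ ∑ i ∈ Finset.Ico 0 j, |h i x - h i y| := Finset.abs_sum_le_sum_abs _ _
          _ ≤ ∑ i ∈ Finset.Ico 0 j, θ i * (3 * dist x y) := Finset.sum_le_sum fun i hi =>
              hL2 i x y (hnear j x hx hx1 i) (hnear j y hy hy1 i)
                (h1.trans (hτs' i j (Finset.mem_Ico.1 hi).2))
          _ ≤ _ := by
              rw [← Finset.sum_mul]
              exact mul_le_mul_of_nonneg_right (hsum _) (by linarith)
      nlinarith [(abs_le.1 h2).1, mul_nonneg hη0.le hd]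
    · have h2 : τ₀ < dist x y := not_le.1 fun h => hxy ⟨h1, h⟩
      nlinarith [a1.1, a2.2]
  · have hy2 : y ∉ Nb τ₀ (T j) := fun h => hyQ ⟨h, hy1⟩
    rw [gn x hx hx1, gf y hy hyU hy2]
    have h1 := (fn j j y x hy2 hx1).1
    rw [dist_comm] at h1
    nlinarith [a1.1]
  · have hx2 : x ∉ Nb τ₀ (T j) := fun h => hxQ ⟨h, hx1⟩
    rw [gn y hy hy1, gf x hx hxU hx2]
    have h1 := (fn j j x y hx2 hy1).1
    nlinarith [a2.2]
  · rw [gf x hx hxU fun h => hxQ ⟨h, hx1⟩, gf y hy hyU fun h => hyQ ⟨h, hy1⟩]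
    nlinarith [mul_nonneg hη0.le hd]

/-- the data of one stage -/
structure Stage2 (M : Type u) where
  n : ℕ
  T : Finset M
  τ : ℝ
  θ : ℝ
  s : ℝ
  f : M → ℝ
  h : M → ℝ

theorem core2 [CompleteSpace M] [MeasurableSpace M] [BorelSpace M] (hM : PurelyUnrectifiable M)
    (o : M) {R c ε : ℝ} (w : ℕ → (M × M →₀ ℝ)) (f : ℕ → M → ℝ) (hε : 0 < ε) (hc : 0 < c)
    (hw : ∀ n p, 0 ≤ w n p) (hR : ∀ n, mass (w n) univ ≤ R) (hf : ∀ n, Lip1 (f n))
    (hf0 : ∀ n, f n o = 0) (hval : ∀ n, c ≤ val (w n) (f n)) :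
    ∃ g, Lip1 g ∧ ∃ᶠ n in atTop, c / 3 - ε ≤ val (w n) g := by
  classical
  have hR0 : 0 ≤ R := ((mass_chg (hw 0)).1 _).trans (hR 0)
  set e := min (1 / 7) (ε / (2 * R + 2 + 3 * c)) with he
  have he0 : 0 < e := lt_min (by norm_num) (by positivity)
  have he1 : e ≤ 1 / 7 := min_le_left _ _
  have hec : e * (2 * R + 2 + 3 * c) ≤ ε := (le_div_iff₀ (by positivity)).1 (min_le_right _ _)
  set η := e / 24 with hη
  have hη0 : 0 < η := by positivity
  let 𝒰 : Ultrafilter ℕ := hyperfilter ℕ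
  have hU : (𝒰 : Filter ℕ) ≤ atTop := Nat.cofinite_eq_atTop ▸ hyperfilter_le_cofinite
  have h0 : ∀ x, ∃ a, Tendsto (fun n => f n x) 𝒰 (𝓝 a) := by
    intro x
    obtain ⟨a, -, ha⟩ := (isCompact_Icc (a := -dist x o) (b := dist x o)).ultrafilter_le_nhds
      (𝒰.map fun n => f n x) (by
        rw [Ultrafilter.coe_map, le_principal_iff, mem_map]
        exact Eventually.of_forall fun n => abs_le.1 (by simpa [hf0 n] using hf n x o))
    exact ⟨a, ha⟩
  choose F hF using h0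
  have hF1 : Lip1 F := fun x y =>
    le_of_tendsto' ((hF x).sub (hF y)).abs fun n => hf n x y
  obtain ⟨π, hπ, hlim⟩ := ulim 𝒰 (fun n => mass (w n)) (fun n => mass_chg (hw n)) hR
  let sg : (Set (M × M) → ℝ) → Set M → ℝ := fun μ E => μ (Prod.fst ⁻¹' E) + μ (Prod.snd ⁻¹' E)
  have hσ : Chg (sg π) := hπ.pair
  have hlim' : ∀ E, Tendsto (fun n => sg (mass (w n)) E) 𝒰 (𝓝 (sg π E)) := fun E =>
    (hlim _).add (hlim _)
  obtain ⟨K, hK, τ₁, hτ₁, hKt⟩ := tight hσ hη0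
  obtain ⟨τ₂, hτ₂, hgap⟩ := gap hπ hη0
  set τ₀ := min τ₁ τ₂ with hτ₀
  have hτ₀0 : 0 < τ₀ := lt_min hτ₁ hτ₂
  obtain ⟨T₀, hT₀⟩ := sat hσ o hτ₀0 he0 hη0
  let Good : Stage2 M → Prop := fun x => T₀ ⊆ x.T ∧ (∀ k ∈ K, ∃ t ∈ x.T, dist k t ≤ x.τ) ∧
    x.τ ≤ x.θ * τ₀ ∧ 0 < x.θ ∧ x.θ ≤ η ∧ 0 < x.s ∧
    Fl2 (K ∪ x.T ∪ ends (w x.n)) x.s ((2 + e) * x.θ) ((2 + e) * (1 + e)) x.h ∧
    (∀ y, |x.h y| ≤ 6 * x.τ) ∧ (∀ t ∈ x.T, x.h t = 0) ∧
    (∀ y ∈ ends (w x.n), y ∈ Nb x.τ K → x.h y = x.f y - F y) ∧ (∀ t ∈ x.T, x.f t = F t) ∧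
    (∀ a b, |(f x.n a - x.f a) - (f x.n b - x.f b)| ≤ e * dist a b) ∧
    sg (mass (w x.n)) (Nb τ₀ x.T \ Nb x.τ K) ≤ 2 * η ∧
    mass (w x.n) {p | x.τ < dist p.1 p.2 ∧ dist p.1 p.2 ≤ τ₀} ≤ 2 * η ∧
    sg (mass (w x.n)) (Bad τ₀ e T₀ x.T) ≤ 2 * η
  have step : ∀ (T₁ : Finset M) (θ b : ℝ) (N : ℕ), 0 < θ → θ ≤ η → 0 < b →
      ∃ x, Good x ∧ T₁ ⊆ x.T ∧ x.θ = θ ∧ x.τ ≤ θ * b ∧ x.s ≤ b ∧ N < x.n := by
    intro T₁ θ b N hθ hθη hb
    set τ := θ * min b τ₀ with hτ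
    have hτ0 : 0 < τ := mul_pos hθ (lt_min hb hτ₀0)
    obtain ⟨Z, hZ, hKZ⟩ := Metric.totallyBounded_iff.1 hK.totallyBounded τ hτ0
    set T := T₁ ∪ (T₀ ∪ hZ.toFinset) with hT
    have hnet : ∀ k ∈ K, ∃ t ∈ T, dist k t ≤ τ := fun k hk => by
      obtain ⟨t, ht, ht'⟩ := mem_iUnion₂.1 (hKZ hk)
      exact ⟨t, Finset.mem_union_right _ (Finset.mem_union_right _ (hZ.mem_toFinset.2 ht)),
        le_of_lt ht'⟩
    have e1 := (hlim' (Nb τ₀ T \ Nb τ K)).eventually (gt_mem_nhds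
      (show sg π (Nb τ₀ T \ Nb τ K) < 2 * η by
        have := hσ.mono (sdiff_subset_sdiff_left (t := Nb τ K)
          (Nb.mono (min_le_left τ₁ τ₂) (Subset.refl (T : Set M))))
        linarith [hKt T τ hτ0]))
    have e2 := (hlim {p | τ < dist p.1 p.2 ∧ dist p.1 p.2 ≤ τ₀}).eventually (gt_mem_nhds
      (show π {p | τ < dist p.1 p.2 ∧ dist p.1 p.2 ≤ τ₀} < 2 * η by
        have : π {p | τ < dist p.1 p.2 ∧ dist p.1 p.2 ≤ τ₀} ≤
            π {p | τ < dist p.1 p.2 ∧ dist p.1 p.2 ≤ τ₂} :=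
          hπ.mono fun p hp => ⟨hp.1, hp.2.trans (min_le_right _ _)⟩
        linarith [hgap τ hτ0]))
    have e3 := (hlim' (Bad τ₀ e T₀ T)).eventually (gt_mem_nhds
      (show sg π (Bad τ₀ e T₀ T) < 2 * η by linarith [hT₀ T]))
    have e4 : ∀ᶠ n in (𝒰 : Filter ℕ), ∀ a ∈ T, ∀ b ∈ T,
        |(f n a - F a) - (f n b - F b)| ≤ e * dist a b := by
      refine (eventually_all_finset T).2 fun a _ => (eventually_all_finset T).2 fun b _ => ?_
      rcases eq_or_ne a b with rfl | hab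
      · simp
      · have h1 := (((hF a).sub_const (F a)).sub ((hF b).sub_const (F b))).abs
        simp only [sub_self, abs_zero] at h1
        exact (h1.eventually (gt_mem_nhds (mul_pos he0 (dist_pos.2 hab)))).mono fun n hn => hn.le
    obtain ⟨n, hn, h1, h2, h3, h4⟩ :=
      (((eventually_gt_atTop N).filter_mono hU).and (e1.and (e2.and (e3.and e4)))).exists
    have h5 : LipschitzOnWith ⟨e, he0.le⟩ (fun a => f n a - F a) T :=
      LipschitzOnWith.of_dist_le_mul fun a ha b hb => h4 a ha b hb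
    obtain ⟨ψ, hψ, hψT⟩ := h5.extend_real
    have hψ1 : ∀ a b, |ψ a - ψ b| ≤ e * dist a b := fun a b => hψ.dist_le_mul a b
    have hψ2 : ∀ t ∈ T, f n t - ψ t - F t = 0 := fun t ht => by
      have : f n t - F t = ψ t := hψT (Finset.mem_coe.2 ht)
      linarith
    have hφ : ∀ a b, |(f n a - ψ a - F a) - (f n b - ψ b - F b)| ≤ (2 + e) * dist a b := by
      intro a b
      have a1 := abs_le.1 (hf n a b)
      have a2 := abs_le.1 (hψ1 a b)
      have a3 := abs_le.1 (hF1 a b)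
      exact abs_le.2 ⟨by linarith [a1.1, a2.2, a3.2], by linarith [a1.2, a2.1, a3.1]⟩
    obtain ⟨s, hs, h, hFl, hh, hP⟩ := interp2 hM
      ((hK.union T.finite_toSet.isCompact).union (ends (w n)).finite_toSet.isCompact) hθ
      (show 0 ≤ 6 * τ by linarith) he0 (show 0 ≤ 2 + e by linarith)
      (fun a => f n a - ψ a - F a) hφ (T ∪ (ends (w n)).filter (· ∈ Nb τ K)) (by
        intro p hp
        rcases Finset.mem_union.1 hp with hp | hp
        · simp only [hψ2 p hp, abs_zero]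
          linarith
        · obtain ⟨k, hk, hk'⟩ := (Finset.mem_filter.1 hp).2
          obtain ⟨t, ht, ht'⟩ := hnet k hk
          have h6 := hφ p t
          rw [hψ2 t ht, sub_zero] at h6
          have h7 : (2 + e) * dist p t ≤ 3 * (2 * τ) := mul_le_mul (by linarith)
            (by linarith [dist_triangle p k t]) dist_nonneg (by norm_num)
          linarith)
    refine ⟨⟨n, T, τ, θ, min s b, fun a => f n a - ψ a, h⟩,
      ⟨Finset.subset_union_left.trans Finset.subset_union_right, hnet,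
      mul_le_mul_of_nonneg_left (min_le_right _ _) hθ.le, hθ, hθη, lt_min hs hb,
      hFl.mono (min_le_left _ _), hh, fun t ht => ?_, fun y hy hy' => ?_, fun t ht => ?_,
      fun a b => ?_, h1.le, h2.le, h3.le⟩,
      Finset.subset_union_left, rfl, mul_le_mul_of_nonneg_left (min_le_left _ _) hθ.le,
      min_le_right _ _, hn⟩
    · exact (hP t (Finset.mem_union_left _ ht)).trans (hψ2 t ht)
    · exact hP y (Finset.mem_union_right _ (Finset.mem_filter.2 ⟨hy, hy'⟩))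
    · exact sub_eq_zero.1 (hψ2 t ht)
    · simpa using hψ1 a b
  obtain ⟨x, hx⟩ := dc Good (fun x y => ends (w x.n) ∪ x.T ⊆ y.T ∧
      y.θ = x.θ / 2 ∧ y.τ ≤ x.θ / 2 * x.s ∧ y.s ≤ x.s ∧ x.n < y.n)
    ((step ∅ η 1 0 hη0 le_rfl one_pos).imp fun _ h => h.1)
    (fun x hx => step _ _ _ _ (half_pos hx.2.2.2.1)
      (by linarith [hx.2.2.2.1, hx.2.2.2.2.1]) hx.2.2.2.2.2.1)
  have mT : Monotone fun n => (x n).T := monotone_nat_of_le_succ fun n =>
    Finset.subset_union_right.trans (hx n).2.1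
  have ms : Antitone fun n => (x n).s := antitone_nat_of_succ_le fun n => (hx n).2.2.2.2.1
  have mn : StrictMono fun n => (x n).n := strictMono_nat_of_lt_succ fun n => (hx n).2.2.2.2.2
  obtain ⟨g, hg1, hg3⟩ := glue2 (fun j => ends (w (x j).n)) (fun j => (x j).T) T₀
    (fun j => (x j).f) (fun j => (x j).h) F (fun j => (x j).τ)
    (fun j => (x j).θ) (fun j => (x j).s) K (η := η) he0 (by linarith) hτ₀0 (by linarith) hF1
    (fun j a b => by
      have a1 := abs_le.1 (hf (x j).n a b)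
      have a2 := abs_le.1 ((hx j).1.2.2.2.2.2.2.2.2.2.2.2.1 a b)
      exact abs_le.2 ⟨by linarith [a1.1, a2.2], by linarith [a1.2, a2.1]⟩)
    (fun j => (hx j).1.2.2.2.2.2.2.2.2.2.2.1) (fun j => (hx j).1.1)
    (fun j => (hx j).1.2.1) (fun j => (hx j).1.2.2.1)
    (fun j => (hx j).1.2.2.2.1) (fun j => (hx j).1.2.2.2.2.1) (fun j => (hx j).2.2.1.le)
    (fun j => (hx j).1.2.2.2.2.2.1) (fun j => (hx j).1.2.2.2.2.2.2.1)
    (fun j => (hx j).1.2.2.2.2.2.2.2.1) (fun j => (hx j).1.2.2.2.2.2.2.2.2.1)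
    (fun j => (hx j).1.2.2.2.2.2.2.2.2.2.1)
    (fun i j hij => (Finset.subset_union_left.trans (hx i).2.1).trans (mT hij))
    (fun i j hij => by
      obtain ⟨k, rfl⟩ : ∃ k, j = k + 1 := ⟨j - 1, by omega⟩
      refine (hx k).2.2.2.1.trans ?_
      rw [(hx k).2.2.1]
      exact mul_le_mul_of_nonneg_left (ms (by omega)) (half_pos (hx k).1.2.2.2.1).le)
  refine ⟨g, hg1, mn.tendsto_atTop.frequently (Frequently.of_forall fun j => ?_)⟩
  obtain ⟨-, -, -, -, -, -, -, -, -, -, -, h0, h1, h2, h3⟩ := (hx j).1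
  set U := Bad τ₀ e T₀ (x j).T
  set Q := Nb τ₀ ((x j).T : Set M) \ Nb (x j).τ K
  set G : Set (M × M) := {p | (x j).τ < dist p.1 p.2 ∧ dist p.1 p.2 ≤ τ₀}
  have h4 := val_ge (hw (x j).n) (hf (x j).n) hg1 (L := 3 + 7 * e) (a := 2 * e) (by linarith)
    (by linarith) (by linarith)
    ((Prod.fst ⁻¹' U ∪ Prod.snd ⁻¹' U) ∪ (Prod.fst ⁻¹' Q ∪ Prod.snd ⁻¹' Q) ∪ G)
    (fun p hp hD => by
      have a1 := hg3 j _ (fst_mem_ends hp) _ (snd_mem_ends hp)
        (fun h => hD (Or.inl (Or.inl (Or.inl h)))) (fun h => hD (Or.inl (Or.inl (Or.inr h))))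
        (fun h => hD (Or.inl (Or.inr (Or.inl h)))) (fun h => hD (Or.inl (Or.inr (Or.inr h))))
        fun h => hD (Or.inr h)
      have a2 := (abs_le.1 (h0 p.1 p.2)).2
      have a3 : 24 * η * dist p.1 p.2 = e * dist p.1 p.2 := by rw [hη]; ring
      linarith)
  have hm := mass_chg (hw (x j).n)
  have h5 := hm.union_le ((Prod.fst ⁻¹' U ∪ Prod.snd ⁻¹' U) ∪
    (Prod.fst ⁻¹' Q ∪ Prod.snd ⁻¹' Q)) G
  have h6 := hm.union_le (Prod.fst ⁻¹' U ∪ Prod.snd ⁻¹' U) (Prod.fst ⁻¹' Q ∪ Prod.snd ⁻¹' Q)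
  have h7 := hm.union_le (Prod.fst ⁻¹' U) (Prod.snd ⁻¹' U)
  have h8 := hm.union_le (Prod.fst ⁻¹' Q) (Prod.snd ⁻¹' Q)
  have h9 := mul_le_mul_of_nonneg_left (hR (x j).n) (show 0 ≤ 2 * e by linarith)
  have h10 := hval (x j).n
  simp only [sg] at h1 h3
  have h11 : c - 2 * e * R - 2 * e ≤ (3 + 7 * e) * val (w (x j).n) g := by linarith
  refine le_of_mul_le_mul_left (le_trans ?_ h11) (show 0 < 3 + 7 * e by linarith)
  nlinarith [mul_pos he0 hε, mul_pos he0 hc]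

end Pool.Agent.P.MP_6e86bf_an
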