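import Pool.Agent.P.MP_6e86bf_an.Glue

/-! The metric core for complete purely 1-unrectifiable spaces. -/

namespace Pool.Agent.P.MP_6e86bf_an

open scoped Topology
open Set Filter

universe u

variable {M : Type u} [MetricSpace M]

open Classical in
/-- the end points of a plan -/
noncomputable def ends (w : M × M →₀ ℝ) : Finset M :=
  w.support.image Prod.fst ∪ w.support.image Prod.snd

omit [MetricSpace M] in
theorem fst_mem_ends {w : M × M →₀ ℝ} {p : M × M} (hp : p ∈ w.support) : p.1 ∈ ends w := by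
  classical
  simp only [ends, Finset.mem_union, Finset.mem_image]
  exact Or.inl ⟨p, hp, rfl⟩

omit [MetricSpace M] in
theorem snd_mem_ends {w : M × M →₀ ℝ} {p : M × M} (hp : p ∈ w.support) : p.2 ∈ ends w := by
  classical
  simp only [ends, Finset.mem_union, Finset.mem_image]
  exact Or.inr ⟨p, hp, rfl⟩

theorem mass_chg {w : M × M →₀ ℝ} (hw : ∀ p, 0 ≤ w p) : Chg (mass w) := by
  refine ⟨fun E => Finset.sum_nonneg fun p _ =>
    indicator_nonneg (fun q _ => mul_nonneg (hw q) dist_nonneg) _, fun E F => ?_⟩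
  simp only [mass]
  rw [← Finset.sum_add_distrib]
  refine Finset.sum_congr rfl fun p _ => ?_
  by_cases h1 : p ∈ E <;> by_cases h2 : p ∈ F <;> simp [indicator, h1, h2]

theorem val_ge {w : M × M →₀ ℝ} (hw : ∀ p, 0 ≤ w p) {f g : M → ℝ} (hf : Lip1 f) (hg : Lip1 g)
    {L a : ℝ} (hL0 : 0 ≤ L) (hL : L ≤ 4) (ha : 0 ≤ a) (D : Set (M × M))
    (h : ∀ p ∈ w.support, p ∉ D → f p.1 - f p.2 - a * dist p.1 p.2 ≤ L * (g p.1 - g p.2)) :
    val w f - a * mass w univ - 5 * mass w D ≤ L * val w g := by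
  simp only [val, mass, Finset.mul_sum, ← Finset.sum_sub_distrib, indicator_univ]
  refine Finset.sum_le_sum fun p hp => ?_
  have hd : 0 ≤ dist p.1 p.2 := dist_nonneg
  by_cases hD : p ∈ D
  · rw [indicator_of_mem hD]
    have h1 := (abs_le.1 (hf p.1 p.2)).2
    have h2 := (abs_le.1 (hg p.1 p.2)).1
    have h3 : f p.1 - f p.2 - a * dist p.1 p.2 - 5 * dist p.1 p.2 ≤ L * (g p.1 - g p.2) := by
      nlinarith [mul_nonneg ha hd, mul_le_mul_of_nonneg_left h2 hL0]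
    nlinarith [mul_le_mul_of_nonneg_left h3 (hw p)]
  · rw [indicator_of_notMem hD]
    nlinarith [mul_le_mul_of_nonneg_left (h p hp hD) (hw p)]

theorem dc {α : Type*} (P : α → Prop) (r : α → α → Prop) (h0 : ∃ a, P a)
    (h : ∀ a, P a → ∃ b, P b ∧ r a b) : ∃ x : ℕ → α, ∀ n, P (x n) ∧ r (x n) (x (n + 1)) := by
  obtain ⟨a, ha⟩ := h0
  choose nx h1 h2 using h
  let y : ℕ → {a // P a} := fun n => Nat.rec ⟨a, ha⟩ (fun _ b => ⟨nx b.1 b.2, h1 b.1 b.2⟩) n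
  exact ⟨fun n => (y n).1, fun n => ⟨(y n).2, h2 _ (y n).2⟩⟩

/-- the data of one stage -/
structure Stage (M : Type u) where
  S : Finset M
  T : Finset M
  U : Set M
  τ : ℝ
  θ : ℝ
  s : ℝ
  h : M → ℝ

theorem core [CompleteSpace M] [MeasurableSpace M] [BorelSpace M] (hM : PurelyUnrectifiable M) :
    CoreSt M := by
  classical
  intro R c ε w f hε hc hw hR hf hf0 hval
  have hR0 : 0 ≤ R := ((mass_chg (hw ∅)).1 _).trans (hR ∅)
  set e := min 1 (ε / c) with he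
  have he0 : 0 < e := lt_min one_pos (by positivity)
  have he1 : e ≤ 1 := min_le_left _ _
  have hec : e * c ≤ ε := (le_div_iff₀ hc).1 (min_le_right _ _)
  set η := min (1 / 8) (ε / (8 * R + 25)) with hη
  have hη0 : 0 < η := lt_min (by norm_num) (by positivity)
  have hη1 : η ≤ 1 / 8 := min_le_left _ _
  have hηε : η * (8 * R + 25) ≤ ε := (le_div_iff₀ (by positivity)).1 (min_le_right _ _)
  let 𝒰 : Ultrafilter (Finset M) := Ultrafilter.of atTop
  have hU : (𝒰 : Filter (Finset M)) ≤ atTop := Ultrafilter.of_le _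
  have hUT : ∀ T : Finset M, ∀ᶠ S in (𝒰 : Filter (Finset M)), T ⊆ S := fun T =>
    hU (eventually_ge_atTop T)
  obtain ⟨π, hπ, hlim⟩ := ulim 𝒰 (fun S => mass (w S)) (fun S => mass_chg (hw S)) hR
  let sg : (Set (M × M) → ℝ) → Set M → ℝ := fun μ E => μ (Prod.fst ⁻¹' E) + μ (Prod.snd ⁻¹' E)
  have hσ : Chg (sg π) := hπ.pair
  have hlim' : ∀ E, Tendsto (fun S => sg (mass (w S)) E) 𝒰 (𝓝 (sg π E)) := fun E =>
    (hlim _).add (hlim _)
  obtain ⟨K, hK, τ₁, hτ₁, hKt⟩ := tight hσ hη0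
  obtain ⟨τ₂, hτ₂, hgap⟩ := gap hπ hη0
  set τ₀ := min τ₁ τ₂ with hτ₀
  have hτ₀0 : 0 < τ₀ := lt_min hτ₁ hτ₂
  let B : Finset M → Set M := fun S => BB τ₀ e (ends (w S)) fun b => |f S b|
  let Good : Stage M → Prop := fun x => x.T ⊆ x.S ∧ (∀ k ∈ K, ∃ t ∈ x.T, dist k t ≤ x.τ) ∧
    x.τ ≤ x.θ * τ₀ ∧ 0 < x.θ ∧ x.θ ≤ η ∧ 0 < x.s ∧ Fl (K ∪ x.T ∪ ends (w x.S)) x.s x.θ x.h ∧
    (∀ y, |x.h y| ≤ 2 * x.τ) ∧ (∀ t ∈ x.T, x.h t = 0) ∧
    (∀ y ∈ ends (w x.S), y ∈ Nb x.τ K → x.h y = f x.S y) ∧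
    sg (mass (w x.S)) (Nb τ₀ x.T \ Nb x.τ K) ≤ 2 * η ∧
    mass (w x.S) {p | x.τ < dist p.1 p.2 ∧ dist p.1 p.2 ≤ τ₀} ≤ 2 * η ∧
    sg (mass (w x.S)) x.U ≤ η ∧ sg π (x.U ∪ B x.S) < η
  have step : ∀ (T₀ : Finset M) (U : Set M) (θ b : ℝ), sg π U < η → 0 < θ → θ ≤ η → 0 < b →
      ∃ x, Good x ∧ T₀ ⊆ x.T ∧ x.U = U ∧ x.θ = θ ∧ x.τ ≤ θ * b ∧ x.s ≤ b := by
    intro T₀ U θ b hU1 hθ hθη hb
    set τ := θ * min b τ₀ with hτ
    have hτ0 : 0 < τ := mul_pos hθ (lt_min hb hτ₀0)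
    obtain ⟨N, hN, hKN⟩ := Metric.totallyBounded_iff.1 hK.totallyBounded τ hτ0
    set T := T₀ ∪ hN.toFinset with hT
    have hnet : ∀ k ∈ K, ∃ t ∈ T, dist k t ≤ τ := fun k hk => by
      obtain ⟨t, ht, ht'⟩ := mem_iUnion₂.1 (hKN hk)
      exact ⟨t, Finset.mem_union_right _ (hN.mem_toFinset.2 ht), le_of_lt ht'⟩
    have e1 := (hlim' (Nb τ₀ T \ Nb τ K)).eventually (gt_mem_nhds
      (show sg π (Nb τ₀ T \ Nb τ K) < 2 * η by
        have := hσ.mono (sdiff_subset_sdiff_left (t := Nb τ K)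
          (Nb.mono (min_le_left τ₁ τ₂) (Subset.refl (T : Set M))))
        linarith [hKt T τ hτ0]))
    have e2 := (hlim {p | τ < dist p.1 p.2 ∧ dist p.1 p.2 ≤ τ₀}).eventually (gt_mem_nhds
      (show π {p | τ < dist p.1 p.2 ∧ dist p.1 p.2 ≤ τ₀} < 2 * η by
        have : π {p | τ < dist p.1 p.2 ∧ dist p.1 p.2 ≤ τ₀} ≤
            π {p | τ < dist p.1 p.2 ∧ dist p.1 p.2 ≤ τ₂} :=
          hπ.mono fun p hp => ⟨hp.1, hp.2.trans (min_le_right _ _)⟩
        linarith [hgap τ hτ0]))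
    have e3 := (hlim' U).eventually (gt_mem_nhds hU1)
    have e4 := key 𝒰 (fun x => (hUT {x}).mono fun S hS => hS (Finset.mem_singleton_self x)) hσ
      (fun S => ends (w S)) (fun S b => |f S b|)
      (fun S b s hs => by simpa [hf0 S s hs] using hf S b s) hτ₀0 he0 (sub_pos.2 hU1)
    obtain ⟨S, hTS, h1, h2, h3, h4⟩ := ((hUT T).and (e1.and (e2.and (e3.and e4)))).exists
    obtain ⟨s, hs, h, hFl, hh, hP⟩ := interp hM
      ((hK.union T.finite_toSet.isCompact).union (ends (w S)).finite_toSet.isCompact) hθ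
      (show 0 ≤ 2 * τ by linarith) (f S) (hf S) (T ∪ (ends (w S)).filter (· ∈ Nb τ K)) (by
        intro p hp
        rcases Finset.mem_union.1 hp with hp | hp
        · rw [hf0 S p (hTS hp), abs_zero]
          linarith
        · obtain ⟨k, hk, hk'⟩ := (Finset.mem_filter.1 hp).2
          obtain ⟨t, ht, ht'⟩ := hnet k hk
          have h5 := hf S p t
          rw [hf0 S t (hTS ht), sub_zero] at h5
          linarith [dist_triangle p k t])
    refine ⟨⟨S, T, U, τ, θ, min s b, h⟩, ⟨hTS, hnet,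
      mul_le_mul_of_nonneg_left (min_le_right _ _) hθ.le, hθ, hθη, lt_min hs hb,
      hFl.mono (min_le_left _ _), hh, fun t ht => ?_, fun y hy hy' => ?_, h1.le, h2.le, h3.le, ?_⟩,
      Finset.subset_union_left, rfl, rfl, mul_le_mul_of_nonneg_left (min_le_left _ _) hθ.le,
      min_le_right _ _⟩
    · exact (hP t (Finset.mem_union_left _ ht)).trans (hf0 S t (hTS ht))
    · exact hP y (Finset.mem_union_right _ (Finset.mem_filter.2 ⟨hy, hy'⟩))
    · have := hσ.union_le U (B S)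
      simp only [B] at this ⊢
      linarith
  obtain ⟨x, hx⟩ := dc Good (fun x y => ends (w x.S) ∪ x.T ⊆ y.T ∧ y.U = x.U ∪ B x.S ∧
      y.θ = x.θ / 2 ∧ y.τ ≤ x.θ / 2 * x.s ∧ y.s ≤ x.s)
    ((step ∅ ∅ η 1 (hσ.empty.trans_lt hη0) hη0 le_rfl one_pos).imp fun _ h => h.1)
    (fun x hx => step _ _ _ _ hx.2.2.2.2.2.2.2.2.2.2.2.2.2 (half_pos hx.2.2.2.1)
      (by linarith [hx.2.2.2.1, hx.2.2.2.2.1]) hx.2.2.2.2.2.1)
  have mT : Monotone fun n => (x n).T := monotone_nat_of_le_succ fun n =>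
    Finset.subset_union_right.trans (hx n).2.1
  have mU : Monotone fun n => (x n).U := monotone_nat_of_le_succ fun n => by
    show (x n).U ⊆ (x (n + 1)).U
    rw [(hx n).2.2.1]
    exact subset_union_left
  have ms : Antitone fun n => (x n).s := antitone_nat_of_succ_le fun n => (hx n).2.2.2.2.2
  refine ⟨fun j => (x j).S, fun S κ hκ => ?_⟩
  obtain ⟨g, hg1, hg2, hg3⟩ := glue (fun j => ends (w (x j).S)) (fun j => (x j).T)
    (fun j => (x j).U) (fun j => f (x j).S) (fun j => (x j).h) (fun j => (x j).τ)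
    (fun j => (x j).θ) (fun j => (x j).s) K he0 hτ₀0 hη1 (fun j => hf _)
    (fun j t ht => hf0 _ t ((hx j).1.1 ht)) (fun j => (hx j).1.2.1) (fun j => (hx j).1.2.2.1)
    (fun j => (hx j).1.2.2.2.1) (fun j => (hx j).1.2.2.2.2.1) (fun j => (hx j).2.2.2.1.le)
    (fun j => (hx j).1.2.2.2.2.2.1) (fun j => (hx j).1.2.2.2.2.2.2.1)
    (fun j => (hx j).1.2.2.2.2.2.2.2.1) (fun j => (hx j).1.2.2.2.2.2.2.2.2.1)
    (fun j => (hx j).1.2.2.2.2.2.2.2.2.2.1)
    (fun i j hij => (Finset.subset_union_left.trans (hx i).2.1).trans (mT hij))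
    (fun i j hij => by
      refine Subset.trans ?_ (mU hij)
      show B (x i).S ⊆ (x (i + 1)).U
      rw [(hx i).2.2.1]
      exact subset_union_right)
    (fun i j hij => by
      obtain ⟨k, rfl⟩ : ∃ k, j = k + 1 := ⟨j - 1, by omega⟩
      refine (hx k).2.2.2.2.1.trans ?_
      rw [(hx k).2.2.2.1]
      exact mul_le_mul_of_nonneg_left (ms (by omega)) (half_pos (hx k).1.2.2.2.1).le) S hκ
  refine ⟨g, hg1, hg2, hg3.mono fun j hj => ?_⟩
  obtain ⟨-, -, -, -, -, -, -, -, -, -, h1, h2, h3, -⟩ := (hx j).1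
  set Q := Nb τ₀ ((x j).T : Set M) \ Nb (x j).τ K
  set G : Set (M × M) := {p | (x j).τ < dist p.1 p.2 ∧ dist p.1 p.2 ≤ τ₀}
  have h4 := val_ge (hw (x j).S) (hf (x j).S) hg1 (L := 3 + e) (a := 8 * η) (by linarith)
    (by linarith) (by linarith)
    ((Prod.fst ⁻¹' (x j).U ∪ Prod.snd ⁻¹' (x j).U) ∪ (Prod.fst ⁻¹' Q ∪ Prod.snd ⁻¹' Q) ∪ G)
    (fun p hp hD => hj _ (fst_mem_ends hp) _ (snd_mem_ends hp)
      (fun h => hD (Or.inl (Or.inl (Or.inl h)))) (fun h => hD (Or.inl (Or.inl (Or.inr h))))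
      (fun h => hD (Or.inl (Or.inr (Or.inl h)))) (fun h => hD (Or.inl (Or.inr (Or.inr h))))
      fun h => hD (Or.inr h))
  have hm := mass_chg (hw (x j).S)
  have h5 := hm.union_le ((Prod.fst ⁻¹' (x j).U ∪ Prod.snd ⁻¹' (x j).U) ∪
    (Prod.fst ⁻¹' Q ∪ Prod.snd ⁻¹' Q)) G
  have h6 := hm.union_le (Prod.fst ⁻¹' (x j).U ∪ Prod.snd ⁻¹' (x j).U)
    (Prod.fst ⁻¹' Q ∪ Prod.snd ⁻¹' Q)
  have h7 := hm.union_le (Prod.fst ⁻¹' (x j).U) (Prod.snd ⁻¹' (x j).U)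
  have h8 := hm.union_le (Prod.fst ⁻¹' Q) (Prod.snd ⁻¹' Q)
  have h9 := mul_le_mul_of_nonneg_left (hR (x j).S) (show 0 ≤ 8 * η by linarith)
  have h10 := hval (x j).S
  simp only [sg] at h1 h3
  have h11 : c - ε ≤ (3 + e) * val (w (x j).S) g := by linarith
  refine le_of_mul_le_mul_left (le_trans ?_ h11) (show 0 < 3 + e by linarith)
  nlinarith [mul_pos he0 hε]

theorem upper [CompleteSpace M] [MeasurableSpace M] [BorelSpace M] (hM : PurelyUnrectifiable M)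
    (o : M) (A : Set (Free o)) (hA : Bornology.IsBounded A) : omega A ≤ 3 * wk A :=
  omega_le (core hM) A hA

end Pool.Agent.P.MP_6e86bf_an
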