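import Pool.Agent.P.MP_6e86bf_an.Defs

/-! The two quantities in the quantitative Schur property. -/

namespace Pool.Agent.P.MP_6e86bf_an

open scoped ENNReal
open Set Filter

universe u

variable {X : Type u} [NormedAddCommGroup X] [NormedSpace ℝ X]

/-- `osc(x_n)`: the infimum over `n` of the diameter of `{x_k : k ≥ n}`. -/
noncomputable def osc (x : ℕ → X) : ℝ≥0∞ := ⨅ n, Metric.ediam (x '' Ici n)

/-- The norm diameter of the set of weak-star cluster points of a sequence of functionals. -/
noncomputable def starDiam (y : ℕ → StrongDual ℝ X) : ℝ≥0∞ :=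
  Metric.ediam ((fun φ => WeakDual.toStrongDual φ) ''
    {φ | MapClusterPt φ atTop fun n => StrongDual.toWeakDual (y n)})

/-- `δ(x_n)`: the diameter of the set of weak-star cluster points of `(x_n)` in the bidual. -/
noncomputable def clusterDiam (x : ℕ → X) : ℝ≥0∞ :=
  starDiam (X := StrongDual ℝ X) fun n => canon (x n)

end Pool.Agent.P.MP_6e86bf_an
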