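import Pool.Agent.P.MP_6e86bf_an.Glue2
import Pool.Agent.P.MP_6e86bf_an.Ex
import Pool.Agent.P.MP_6e86bf_an.SDefs

/-! The 3-Schur property and its optimality. -/

namespace Pool.Agent.P.MP_6e86bf_an

open scoped Topology ENNReal
open Set Filter

universe u

section Gen

variable {X : Type u} [NormedAddCommGroup X] [NormedSpace ℝ X]

theorem exists_cluster (x : ℕ → X) {R : ℝ} (hR : ∀ n, ‖x n‖ ≤ R) (V : Ultrafilter ℕ) (a : ℕ → ℕ)
    (ha : Tendsto a V atTop) : ∃ φ : WeakDual ℝ (StrongDual ℝ X),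
      MapClusterPt φ atTop (fun n => StrongDual.toWeakDual (canon (x n))) ∧
        ∀ G : StrongDual ℝ X, Tendsto (fun n => G (x (a n))) V (𝓝 (φ G)) := by
  obtain ⟨φ, -, hφ⟩ := (WeakDual.isCompact_closedBall (𝕜 := ℝ)
    (0 : StrongDual ℝ (StrongDual ℝ X)) R).ultrafilter_le_nhds
    (V.map fun j => StrongDual.toWeakDual (canon (x (a j)))) (by
      rw [Ultrafilter.coe_map, le_principal_iff, mem_map]
      exact Eventually.of_forall fun j => mem_ball_dd _ (hR _))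
  have h1 : Tendsto (fun j => StrongDual.toWeakDual (canon (x (a j)))) V (𝓝 φ) := hφ
  exact ⟨φ, MapClusterPt.of_comp ha h1.mapClusterPt,
    fun G => ((WeakDual.eval_continuous G).tendsto φ).comp h1⟩

theorem le_clusterDiam (x : ℕ → X) {φ ψ : WeakDual ℝ (StrongDual ℝ X)}
    (hφ : MapClusterPt φ atTop fun n => StrongDual.toWeakDual (canon (x n)))
    (hψ : MapClusterPt ψ atTop fun n => StrongDual.toWeakDual (canon (x n)))
    (G : StrongDual ℝ X) (hG : ‖G‖ ≤ 1) : ENNReal.ofReal (φ G - ψ G) ≤ clusterDiam x := by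
  refine le_trans ?_ (Metric.edist_le_ediam_of_mem ⟨φ, hφ, rfl⟩ ⟨ψ, hψ, rfl⟩)
  rw [edist_dist, dist_eq_norm]
  apply ENNReal.ofReal_le_ofReal
  set Φ := WeakDual.toStrongDual φ - WeakDual.toStrongDual ψ
  calc φ G - ψ G = Φ G := rfl
    _ ≤ ‖Φ G‖ := Real.le_norm_self _
    _ ≤ ‖Φ‖ * ‖G‖ := Φ.le_opNorm G
    _ ≤ ‖Φ‖ * 1 := mul_le_mul_of_nonneg_left hG Φ.opNorm_nonneg
    _ = ‖Φ‖ := mul_one _

theorem clusterDiam_le (x : ℕ → X) {r : ℝ} (hr : 0 ≤ r)
    (h : ∀ G : StrongDual ℝ X, ‖G‖ ≤ 1 → ∀ ε, 0 < ε → ∀ᶠ n in atTop, G (x n) ≤ r + ε) :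
    clusterDiam x ≤ ENNReal.ofReal (2 * r) := by
  have h1 : ∀ φ : WeakDual ℝ (StrongDual ℝ X),
      MapClusterPt φ atTop (fun n => StrongDual.toWeakDual (canon (x n))) →
        ∀ G : StrongDual ℝ X, ‖G‖ ≤ 1 → φ G ≤ r := fun φ hφ G hG =>
    le_of_forall_pos_le_add fun ε hε =>
      (isClosed_le (WeakDual.eval_continuous G) continuous_const).mem_of_mapClusterPt hφ
        (h G hG ε hε)
  refine Metric.ediam_le ?_
  rintro _ ⟨φ, hφ, rfl⟩ _ ⟨ψ, hψ, rfl⟩
  rw [edist_dist, dist_eq_norm]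
  refine ENNReal.ofReal_le_ofReal
    (ContinuousLinearMap.opNorm_le_of_unit_norm (by linarith) fun G hG => ?_)
  have h2 := h1 φ hφ G hG.le
  have h3 := h1 ψ hψ G hG.le
  have h4 := h1 φ hφ (-G) (by rw [norm_neg]; exact hG.le)
  have h5 := h1 ψ hψ (-G) (by rw [norm_neg]; exact hG.le)
  rw [map_neg] at h4 h5
  show |φ G - ψ G| ≤ 2 * r
  exact abs_le.2 ⟨by linarith, by linarith⟩

end Gen

variable {M : Type u} [MetricSpace M]

theorem schur [CompleteSpace M] [MeasurableSpace M] [BorelSpace M] (hM : PurelyUnrectifiable M)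
    (o : M) (x : ℕ → Free o) (hx : Bornology.IsBounded (range x)) :
    osc x ≤ 3 * clusterDiam x := by
  obtain ⟨R, hR, hxR⟩ := hx.exists_pos_norm_le
  have hxR' : ∀ n, ‖x n‖ ≤ R := fun n => hxR _ ⟨n, rfl⟩
  have main : ∀ c ε : ℝ, 0 < ε → ε < c → ENNReal.ofReal c < osc x →
      ENNReal.ofReal (c / 3 - 3 * ε) ≤ clusterDiam x := by
    intro c ε hε hεc hc
    have h1 : ∀ n, ∃ a b, n ≤ a ∧ n ≤ b ∧ c < ‖x a - x b‖ := by
      intro n
      by_contra hn
      push Not at hn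
      refine absurd (hc.trans_le (iInf_le _ n)) (not_lt.2 (Metric.ediam_le ?_))
      rintro _ ⟨a, ha, rfl⟩ _ ⟨b, hb, rfl⟩
      rw [edist_dist, dist_eq_norm]
      exact ENNReal.ofReal_le_ofReal (hn a b ha hb)
    choose a b ha hb hab using h1
    choose F hF1 hF2 using fun n => exists_dual_vector'' ℝ (x (a n) - x (b n))
    choose w hw0 hwR hwa using fun n => approx_plan (x (a n) - x (b n)) (R := 2 * R) (by linarith)
      ((norm_sub_le _ _).trans (by linarith [hxR' (a n), hxR' (b n)])) hε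
    have hap : ∀ n (G : StrongDual ℝ (Free o)), ‖G‖ ≤ 1 →
        |G (x (a n) - x (b n)) - G (mol o (w n))| ≤ ε := by
      intro n G hG
      rw [← map_sub]
      calc _ ≤ ‖G‖ * ‖x (a n) - x (b n) - mol o (w n)‖ := G.le_opNorm _
        _ ≤ 1 * ε := mul_le_mul hG (hwa n).le (norm_nonneg _) zero_le_one
        _ = ε := one_mul _
    obtain ⟨g, hg, hgq⟩ := core2 hM o (c := c - ε) w (fun n y => F n (dl o y)) hε (by linarith)
      hw0 hwR (fun n => lip1_of_norm _ (hF1 n)) (fun n => by rw [dl_base, map_zero]) (fun n => by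
        rw [← apply_mol (F n) (fun y => F n (dl o y))
          (fun y => by rw [dl_base, map_zero, sub_zero])]
        have h2 := (abs_le.1 (hap n (F n) (hF1 n))).2
        have h3 : F n (x (a n) - x (b n)) = ‖x (a n) - x (b n)‖ := hF2 n
        linarith [hab n])
    obtain ⟨G, hG1, hG⟩ := exists_fun o g zero_le_one (fun x y => by rw [one_mul]; exact hg x y)
    have := frequently_iff_neBot.1 hgq
    obtain ⟨V, hV⟩ := Ultrafilter.exists_le (atTop ⊓ 𝓟 {n | (c - ε) / 3 - ε ≤ val (w n) g})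
    have hV1 : (V : Filter ℕ) ≤ atTop := hV.trans inf_le_left
    obtain ⟨φ, hφ, hφ'⟩ := exists_cluster x hxR' V a
      (tendsto_atTop_mono ha (tendsto_id'.2 hV1))
    obtain ⟨ψ, hψ, hψ'⟩ := exists_cluster x hxR' V b
      (tendsto_atTop_mono hb (tendsto_id'.2 hV1))
    refine le_trans (ENNReal.ofReal_le_ofReal ?_) (le_clusterDiam x hφ hψ G hG1)
    have h2 : ∀ᶠ n in (V : Filter ℕ), (c - ε) / 3 - ε ≤ val (w n) g :=
      le_principal_iff.1 (hV.trans inf_le_right)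
    refine ge_of_tendsto ((hφ' G).sub (hψ' G)) (h2.mono fun n hn => ?_)
    have h3 := (abs_le.1 (hap n G hG1)).1
    rw [apply_mol G g hG, map_sub] at h3
    linarith
  refine le_of_forall_lt_imp_le_of_dense fun t ht => ?_
  have htop : t ≠ ∞ := ht.ne_top
  rcases eq_or_ne t 0 with rfl | h0
  · exact zero_le
  have hc : 0 < t.toReal := ENNReal.toReal_pos h0 htop
  have h1 : ENNReal.ofReal (t.toReal / 3) ≤ clusterDiam x := by
    refine ENNReal.le_of_forall_pos_le_add fun ε hε _ => ?_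
    have hε' : (0 : ℝ) < ε := hε
    have h1 := main t.toReal (min (t.toReal / 2) (ε / 3)) (by positivity) (by
      have := min_le_left (t.toReal / 2) (ε / 3 : ℝ); linarith)
      (by rwa [ENNReal.ofReal_toReal htop])
    calc ENNReal.ofReal (t.toReal / 3)
        ≤ ENNReal.ofReal (t.toReal / 3 - 3 * min (t.toReal / 2) (ε / 3) + ε) := by
          apply ENNReal.ofReal_le_ofReal
          have := min_le_right (t.toReal / 2) (ε / 3 : ℝ); linarith
      _ ≤ ENNReal.ofReal (t.toReal / 3 - 3 * min (t.toReal / 2) (ε / 3)) + ENNReal.ofReal ε :=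
          ENNReal.ofReal_add_le
      _ ≤ clusterDiam x + ε := by rw [ENNReal.ofReal_coe_nnreal]; gcongr
  calc t = 3 * ENNReal.ofReal (t.toReal / 3) := by
        rw [← ENNReal.ofReal_ofNat 3, ← ENNReal.ofReal_mul (by norm_num),
          mul_div_cancel₀ _ (by norm_num), ENNReal.ofReal_toReal htop]
    _ ≤ 3 * clusterDiam x := by gcongr

theorem Ex.ev_le (F : StrongDual ℝ (Free (Ex.a 0))) (hF : ‖F‖ ≤ 1) {ε : ℝ} (hε : 0 < ε) :
    ∀ᶠ k in atTop, F (Ex.y k) ≤ 1 + ε := by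
  have hl := lip1_of_norm F hF
  rw [← Nat.cofinite_eq_atTop, eventually_cofinite]
  simp only [not_le]
  by_contra hI
  have hI' : {k | 1 + ε < F (Ex.y k)}.Infinite := hI
  let Z : Set ℝ := (fun k => F (dl _ (Ex.b k))) '' {k | 1 + ε < F (Ex.y k)}
  have hb : BddAbove Z := ⟨F (dl _ (Ex.b 0)) + 2, by
    rintro _ ⟨k, -, rfl⟩
    have h1 := (abs_le.1 (hl (Ex.b k) (Ex.b 0))).2
    have h2 : dist (Ex.b k) (Ex.b 0) ≤ 2 := by
      rw [Ex.dist_eq]
      simp only [dN, Ex.b]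
      split_ifs <;> simp_all
    simp only at h1 ⊢
    linarith⟩
  obtain ⟨_, ⟨k, hk, rfl⟩, h1⟩ := exists_lt_of_lt_csSup (hI'.nonempty.image _ : Z.Nonempty)
    (show sSup Z - ε < sSup Z by linarith)
  obtain ⟨l, hl1, hl2⟩ := hI'.exists_gt k
  have h2 := le_csSup hb ⟨l, hl1, rfl⟩
  have h3 := (abs_le.1 (hl (Ex.a k) (Ex.b l))).2
  have h4 : dist (Ex.a k) (Ex.b l) = 1 := by
    rw [Ex.dist_eq]
    simp [dN, Ex.a, Ex.b, hl2, hl2.ne]
  have h5 : 1 + ε < F (Ex.y k) := hk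
  rw [Ex.y, map_sub] at h5
  simp only at h1 h2 h3
  linarith

/-- the sequence `± y_k / 2` -/
noncomputable def Ex.x (n : ℕ) : Free (Ex.a 0) :=
  (if n % 2 = 0 then (1 / 2 : ℝ) else -(1 / 2)) • Ex.y (n / 2)

theorem Ex.x_bdd : Bornology.IsBounded (range Ex.x) :=
  isBounded_iff_forall_norm_le.2 ⟨3, by
    rintro _ ⟨n, rfl⟩
    have := Ex.norm_y (n / 2)
    have h0 := norm_nonneg (Ex.y (n / 2))
    rw [Ex.x, norm_smul]
    split_ifs <;> norm_num <;> linarith⟩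

theorem Ex.cluster_le : clusterDiam Ex.x ≤ 1 := by
  have h := clusterDiam_le Ex.x (r := 1 / 2) (by norm_num) (fun G hG ε hε => by
    have ht : Tendsto (fun n : ℕ => n / 2) atTop atTop := Nat.tendsto_div_const_atTop (by norm_num)
    filter_upwards [ht.eventually (Ex.ev_le G hG hε),
      ht.eventually (Ex.ev_le (-G) (by rwa [norm_neg]) hε)] with n h1 h2
    rw [_root_.neg_apply] at h2
    rw [Ex.x, map_smul, smul_eq_mul]
    split_ifs <;> linarith)
  simpa using h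

theorem Ex.osc_ge : 3 ≤ osc Ex.x := by
  refine le_iInf fun n => le_trans ?_ (Metric.edist_le_ediam_of_mem
    ⟨2 * (n + 1), show n ≤ 2 * (n + 1) by omega, rfl⟩
    ⟨2 * (n + 1) + 1, show n ≤ 2 * (n + 1) + 1 by omega, rfl⟩)
  have h1 : Ex.x (2 * (n + 1)) - Ex.x (2 * (n + 1) + 1) = Ex.y (n + 1) := by
    have e1 : 2 * (n + 1) / 2 = n + 1 := by omega
    have e2 : (2 * (n + 1) + 1) / 2 = n + 1 := by omega
    rw [Ex.x, Ex.x, if_pos (by omega), if_neg (by omega), e1, e2, ← sub_smul]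
    norm_num
  obtain ⟨F, hF, hF'⟩ := exists_fun (Ex.a 0) (fun x => (fZ (n + 1) x : ℝ)) zero_le_one
    (fZ_lip (n + 1))
  have h3 : F (Ex.y (n + 1)) = 3 := by
    rw [Ex.y, map_sub, hF', hF']
    simp [fZ, Ex.a, Ex.b]
    norm_num
  have h4 : |F (Ex.y (n + 1))| ≤ ‖F‖ * ‖Ex.y (n + 1)‖ := F.le_opNorm _
  have h5 := mul_le_mul_of_nonneg_right hF (norm_nonneg (Ex.y (n + 1)))
  rw [edist_dist, dist_eq_norm, h1, ← ENNReal.ofReal_ofNat 3]
  exact ENNReal.ofReal_le_ofReal (by linarith [(abs_le.1 h4).2])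

theorem sep_schur (h : ∃ δ : ℝ, 0 < δ ∧ ∀ x y : M, x ≠ y → δ ≤ dist x y) (o : M) (x : ℕ → Free o)
    (hx : Bornology.IsBounded (range x)) : osc x ≤ 3 * clusterDiam x := by
  have := sep_complete h
  borelize M
  exact schur (sep_unrect h) o x hx

theorem Ex.sharp2 : osc Ex.x = 3 ∧ clusterDiam Ex.x = 1 := by
  have h1 := sep_schur Ex.sep _ _ Ex.x_bdd
  refine ⟨le_antisymm (h1.trans ?_) Ex.osc_ge, le_antisymm Ex.cluster_le ?_⟩
  · calc 3 * clusterDiam Ex.x ≤ 3 * 1 := by gcongr; exact Ex.cluster_le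
      _ = 3 := mul_one _
  · have h2 := Ex.osc_ge.trans h1
    rwa [← mul_one (3 : ℝ≥0∞), mul_assoc, one_mul,
      ENNReal.mul_le_mul_iff_right (by norm_num) (by norm_num)] at h2

end Pool.Agent.P.MP_6e86bf_an
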